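import Pool.Agent.H330.EvenQ.Spec

namespace Pool.Agent.H330.EvenQ

open QuadraticMap Module Polynomial

namespace ALG

variable {F V : Type} [Field F] [AddCommGroup V] [Module F V]
  {Q : QuadraticForm F V} {J J' : V →ₗ[F] V}

theorem TT_apply (x : V) : TT J J' x = J (J' x) + J' (J x) := rfl

theorem ZZ_apply (x : V) : ZZ J J' x = J (J x) + J (J' x) + (J' (J x) + J' (J' x)) := by
  change (J + J') ((J + J') x) = _
  simp only [LinearMap.add_apply, map_add]
  abel

theorem polar_adj_pow {Z : V →ₗ[F] V} (h : ∀ x y, polar Q (Z x) y = polar Q x (Z y)) (k : ℕ)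
    (x y : V) : polar Q ((Z ^ k) x) y = polar Q x ((Z ^ k) y) := by
  induction k generalizing x y with
  | zero => rfl
  | succ k ih =>
    have h1 : (Z ^ (k + 1)) x = (Z ^ k) (Z x) := by rw [pow_succ]; rfl
    have h2 : (Z ^ (k + 1)) y = Z ((Z ^ k) y) := by rw [pow_succ']; rfl
    rw [h1, h2, ih, h]

end ALG

open ALG

theorem h_ALG : S_ALG := by
  intro F V _ _ _ _ Q ν J J' hJ hJ'
  have hF2 : ∀ a : F, a + a = 0 := CharTwo.add_self_eq_zero
  have padd : ∀ x y z : V, polar Q (x + y) z = polar Q x z + polar Q y z := polar_add_left Q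
  have paddr : ∀ x y z : V, polar Q x (y + z) = polar Q x y + polar Q x z := polar_add_right Q
  have pself : ∀ x : V, polar Q x x = 0 := by
    intro x
    rw [polar_self]
    have h : (2 : F) = 0 := CharTwo.two_eq_zero
    rw [two_smul, hF2]
  have c1 : ∀ x, TT J J' (J x) = J (TT J J' x) + TT J J' x := by
    intro x
    simp only [TT_apply, map_add, hJ.sq, map_smul]
    match_scalars <;> first | ring1 | (ring_nf; reduce_mod_char!)
  have c6 : ∀ x, J' x = J x + TT J J' x + ZZ J J' x := by
    intro x
    simp only [TT_apply, ZZ_apply, hJ.sq, hJ'.sq]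
    match_scalars <;> first | ring1 | (ring_nf; reduce_mod_char!)
  have c2 : ∀ x, ZZ J J' (J x) = J (ZZ J J' x) := by
    intro x
    simp only [ZZ_apply, map_add, hJ.sq, hJ'.sq, map_smul]
    match_scalars <;> first | ring1 | (ring_nf; reduce_mod_char!)
  have c3 : ∀ x, ZZ J J' (J' x) = J' (ZZ J J' x) := by
    intro x
    simp only [ZZ_apply, map_add, hJ.sq, hJ'.sq, map_smul]
    match_scalars <;> first | ring1 | (ring_nf; reduce_mod_char!)
  have c4 : ∀ x, ZZ J J' (TT J J' x) = TT J J' (ZZ J J' x) := by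
    intro x
    rw [TT_apply, map_add, c2, c3, c3, c2, TT_apply]
  have c5 : ∀ x, TT J J' (TT J J' x) = ZZ J J' x + ZZ J J' (ZZ J J' x) := by
    intro x
    simp only [TT_apply, ZZ_apply, map_add, hJ.sq, hJ'.sq, map_smul]
    match_scalars <;> first | ring1 | (ring_nf; reduce_mod_char!)
  have hN : ∀ x y, polar Q ((J + J') x) y = polar Q x ((J + J') y) := by
    intro x y
    rw [LinearMap.add_apply, LinearMap.add_apply, padd, paddr, hJ.adj, hJ'.adj]
  have hZ : ∀ x y, polar Q (ZZ J J' x) y = polar Q x (ZZ J J' y) := by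
    intro x y
    change polar Q ((J + J') ((J + J') x)) y = polar Q x ((J + J') ((J + J') y))
    rw [hN, hN]
  refine ⟨c1, c2, c3, c4, c5, c6, ?_, ?_, ?_, ?_⟩
  · intro x y
    rw [TT_apply, TT_apply, padd, paddr, hJ.adj, hJ'.adj, hJ'.adj, hJ.adj, add_comm]
  · intro x
    rw [TT_apply, padd, hJ.adj, hJ'.adj, polar_comm Q x (J' (J x)), hF2]
  · intro f x y
    induction f using Polynomial.induction_on' with
    | add f g hf hg => rw [map_add, LinearMap.add_apply, LinearMap.add_apply, padd, paddr, hf, hg]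
    | monomial n a =>
      rw [aeval_monomial]
      change polar Q (a • ((ZZ J J') ^ n) x) y = polar Q x (a • ((ZZ J J') ^ n) y)
      rw [polar_smul_left, polar_smul_right, polar_adj_pow hZ]
  · intro f x
    induction f using Polynomial.induction_on' with
    | add f g hf hg => rw [map_add, LinearMap.add_apply, padd, hf, hg, add_zero]
    | monomial n a =>
      rw [aeval_monomial]
      change polar Q (a • ((ZZ J J') ^ n) x) x = 0
      rw [polar_smul_left]
      have h0 : polar Q (((ZZ J J') ^ n) x) x = 0 := by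
        rcases Nat.even_or_odd' n with ⟨j, rfl | rfl⟩
        · have h1 : ((ZZ J J') ^ (2 * j)) x = ((ZZ J J') ^ j) (((ZZ J J') ^ j) x) := by
            rw [two_mul, pow_add]; rfl
          rw [h1, polar_adj_pow hZ, pself]
        · have h1 : ((ZZ J J') ^ (2 * j + 1)) x =
              ((ZZ J J') ^ j) (ZZ J J' (((ZZ J J') ^ j) x)) := by
            have : 2 * j + 1 = j + (1 + j) := by omega
            rw [this, pow_add, pow_add, pow_one]; rfl
          rw [h1, polar_adj_pow hZ]
          change polar Q ((J + J') ((J + J') (((ZZ J J') ^ j) x))) (((ZZ J J') ^ j) x) = 0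
          rw [hN, pself]
      rw [h0, smul_zero]

end Pool.Agent.H330.EvenQ
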