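import Pool.Agent.H330.EvenQ.Spec

namespace Pool.Agent.H330.EvenQ

open QuadraticMap Module Polynomial

namespace CASE3

set_option linter.unusedSectionVars false

variable {F V : Type} [Field F] [CharP F 2] [AddCommGroup V] [Module F V]

/-- the operator `R` -/
def R (Q : QuadraticForm F V) (a b x : V) : V :=
  (polar Q x a + polar Q x b) • a + polar Q x a • b

lemma R_add (Q : QuadraticForm F V) (a b x y : V) : R Q a b (x + y) = R Q a b x + R Q a b y := by
  unfold R
  rw [polar_add_left, polar_add_left]
  module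

lemma two0 : (2 : F) = 0 := by
  have := CharP.cast_eq_zero F 2
  exact_mod_cast this

end CASE3

open CASE3 in
theorem h_CASE3 (hA : S_ALG) (hR : S_REFL) : S_CASE3 := by
  intro F V _ _ _ _ _ _ Q hQ ν J J' hJ hJ' a z s ha hJa hT hZ
  obtain ⟨A1, A2, A3, A4, A5, A6, A7, A8, A9, A10⟩ := hA F V Q ν J J' hJ hJ'
  have h2 : (2 : F) = 0 := two0
  have hV : ∀ v : V, (2 : F) • v = 0 := fun v => by rw [h2, zero_smul]
  have hZadj : ∀ x y, polar Q (ZZ J J' x) y = polar Q x (ZZ J J' y) := by
    intro x y
    have := A9 X x y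
    rwa [aeval_X] at this
  have hb0 : polar Q (J a) a = 0 := hJ.alt a
  have hb0' : polar Q a (J a) = 0 := by rw [polar_comm]; exact hb0
  have hbb : polar Q (J a) (J a) = 0 := by
    have h1 : polar Q (J a) (J a) = 2 * Q (J a) := by
      rw [polar_self]; simp [two_mul]
    rw [h1, h2, zero_mul]
  have hq : Q (J a + a) = Q (J a) := by
    have h1 : Q (J a + a) = Q (J a) + Q a + polar Q (J a) a := by
      unfold polar; ring
    rw [h1, ha, hb0, add_zero, add_zero]
  obtain ⟨g, hg, hgv⟩ := hR F V Q hQ (J a) (J a + a) hJa (by rw [hq]; exact hJa)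
  have hgR : ∀ x, g x = x + (Q (J a))⁻¹ • R Q a (J a) x := by
    intro x
    rw [hgv]
    unfold refl R
    rw [hq]
    have e1 : polar Q (x + ((Q (J a))⁻¹ * polar Q x (J a + a)) • (J a + a)) (J a)
        = polar Q x (J a) := by
      rw [polar_add_left, polar_smul_left, polar_add_left, hbb, hb0']
      simp
    rw [e1, polar_add_right]
    linear_combination (norm := module) ((Q (J a))⁻¹ * polar Q x (J a)) • hV (J a)
  have hJJ : J (J a) = J a + ν • a := hJ.sq a
  have hTJ : TT J J' (J a) = z • J a + z • a := by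
    rw [A1, hT, map_smul]
  have hZJ : ZZ J J' (J a) = s • J a := by
    rw [A2, hZ, map_smul]
  refine ⟨g, hg, ?_, ?_, ?_⟩
  · -- nontrivial
    have ha0 : a ≠ 0 := by
      rintro rfl
      apply hJa
      simp
    obtain ⟨x, hx⟩ : ∃ x, polar Q x a ≠ 0 := by
      by_contra h
      push Not at h
      apply ha0
      apply hQ
      intro y
      rw [polar_comm]
      exact h y
    intro hg1
    have h1 := hgR x
    rw [hg1] at h1
    have h3 : (Q (J a))⁻¹ • R Q a (J a) x = 0 := by
      have h4 : (1 : V ≃ₗ[F] V) x = x := rfl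
      rw [h4] at h1
      exact left_eq_add.mp h1
    have h5 : R Q a (J a) x = 0 := by
      rcases smul_eq_zero.mp h3 with h | h
      · exact absurd (inv_eq_zero.mp h) hJa
      · exact h
    unfold R at h5
    have h6 : J a = (-((polar Q x a)⁻¹ * (polar Q x a + polar Q x (J a)))) • a := by
      have h7 := congrArg (fun v => (polar Q x a)⁻¹ • v) h5
      simp only [smul_add, smul_smul, smul_zero, inv_mul_cancel₀ hx, one_smul] at h7
      rw [neg_smul]
      exact eq_neg_of_add_eq_zero_right h7
    apply hJa
    rw [h6, QuadraticMap.map_smul, ha, smul_zero]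
  · intro x
    rw [hgR, hgR, map_add, map_smul]
    unfold R
    rw [map_add, map_smul, map_smul, hJ.adj, hJ.adj, hJJ, polar_add_right, polar_smul_right]
    simp only [smul_eq_mul]
    linear_combination (norm := module) ((Q (J a))⁻¹ * polar Q x (J a)) • hV a -
      ((Q (J a))⁻¹ * polar Q x a) • hV (J a)
  · intro x
    have hRT : R Q a (J a) (TT J J' x) = TT J J' (R Q a (J a) x) := by
      unfold R
      rw [A7, A7, hT, hTJ, map_add, map_smul, map_smul, hT, hTJ]
      simp only [polar_add_right, polar_smul_right, smul_eq_mul]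
      module
    have hRZ : R Q a (J a) (ZZ J J' x) = ZZ J J' (R Q a (J a) x) := by
      unfold R
      rw [hZadj, hZadj, hZ, hZJ, map_add, map_smul, map_smul, hZ, hZJ]
      simp only [polar_smul_right, smul_eq_mul]
      module
    have hRJ : R Q a (J a) (J x) = J (R Q a (J a) x) := by
      unfold R
      rw [map_add, map_smul, map_smul, hJ.adj, hJ.adj, hJJ, polar_add_right, polar_smul_right]
      simp only [smul_eq_mul]
      linear_combination (norm := module) (polar Q x (J a)) • hV a -
        (polar Q x a) • hV (J a)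
    rw [hgR, hgR, map_add, map_smul, A6 x, A6 (R Q a (J a) x), R_add, R_add, hRT, hRZ, hRJ]

end Pool.Agent.H330.EvenQ

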