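import Pool.Agent.H330.EvenQ.Spec

/-!
# CASE4a
-/

namespace Pool.Agent.H330.EvenQ

open QuadraticMap Module Polynomial

namespace CASE4a

/-- additive functions with small target have many zeros -/
theorem count {F A : Type} [AddCommGroup F] [AddCommGroup A] [Finite F] [Finite A]
    (Φ : A →+ F) (S : Set A) (h : Nat.card F * Nat.card S < Nat.card A) :
    ∃ b, Φ b = 0 ∧ b ∉ S := by
  by_contra hcon
  push Not at hcon
  have h1 := AddSubgroup.card_eq_card_quotient_mul_card_addSubgroup Φ.ker
  have h2 : Nat.card (A ⧸ Φ.ker) ≤ Nat.card F :=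
    Nat.card_le_card_of_injective _ (QuotientAddGroup.kerLift_injective Φ)
  have h3 : Nat.card Φ.ker ≤ Nat.card S := by
    refine Nat.card_le_card_of_injective (fun b : Φ.ker => (⟨b.1, hcon b.1 b.2⟩ : S)) ?_
    intro x y hxy
    simp only [Subtype.mk.injEq] at hxy
    exact Subtype.ext hxy
  have h4 := Nat.mul_le_mul h2 h3
  omega

end CASE4a

theorem h_CASE4a (hA : S_ALG) (hE : S_EVEN) : S_CASE4a := by
  intro F V _ _ _ _ _ _ Q hnd ν J J' hJ hJ' a z s hz hn hQa hQJa hTa hind
  obtain ⟨A1, A2, A3, A4, A5, A6, A7, A8, -, -⟩ := hA F V Q ν J J' hJ hJ'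
  set T := TT J J' with hT
  set Z := ZZ J J' with hZ
  have h2 : (2 : F) = 0 := CharTwo.two_eq_zero
  have hFF : ∀ c : F, c + c = 0 := fun c => CharTwo.add_self_eq_zero c
  have hVV : ∀ v : V, v + v = 0 := fun v => by rw [← two_smul F v, h2, zero_smul]
  have hneg : ∀ v : V, -v = v := fun v => neg_eq_of_add_eq_zero_left (hVV v)
  have hnegF : ∀ c : F, -c = c := fun c => neg_eq_of_add_eq_zero_left (hFF c)
  have Bself : ∀ x, polar Q x x = 0 := fun x => by
    rw [polar_self, two_nsmul, hFF]
  have Bc : ∀ x y, polar Q x y = polar Q y x := fun x y => polar_comm Q x y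
  -- the operator D
  set D : V →ₗ[F] V := T + z • LinearMap.id with hDdef
  have hD : ∀ x, D x = T x + z • x := fun x => by simp [hDdef]
  have Dadj : ∀ x y, polar Q (D x) y = polar Q x (D y) := fun x y => by
    rw [hD, hD, polar_add_left, polar_add_right, A7, polar_smul_left, polar_smul_right]
  have Dalt : ∀ x, polar Q (D x) x = 0 := fun x => by
    rw [hD, polar_add_left, A8, polar_smul_left, Bself, smul_zero, add_zero]
  have Da : D a = 0 := by rw [hD, hTa, hVV]
  have DJa : D (J a) = z • a := by
    rw [hD, A1, hTa, map_smul]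
    have := hVV (z • J a)
    calc z • J a + z • a + z • J a = (z • J a + z • J a) + z • a := by abel
      _ = z • a := by rw [this, zero_add]
  -- the operator n
  set n : V →ₗ[F] V := Z + s • LinearMap.id with hndef
  have hnx : ∀ x, n x = Z x + s • x := fun x => by simp [hndef]
  have hDD : ∀ x, D (D x) = n x + n (n x) := by
    intro x
    rw [hD (D x), hD x, map_add, map_smul, A5, hnx (n x), hnx x, map_add, map_smul, smul_add,
      smul_add, smul_smul, smul_smul, hz, add_smul]
    have e1 := hVV (z • T x)
    have e2 := hVV (s • Z x)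
    calc Z x + Z (Z x) + z • T x + (z • T x + (s • x + (s * s) • x))
        = Z x + Z (Z x) + (z • T x + z • T x) + s • x + (s * s) • x := by abel
      _ = Z x + Z (Z x) + s • x + (s * s) • x := by rw [e1, add_zero]
      _ = Z x + s • x + (Z (Z x) + (s • Z x + s • Z x) + (s * s) • x) := by rw [e2]; abel
      _ = Z x + s • x + (Z (Z x) + s • Z x + (s • Z x + (s * s) • x)) := by abel
  have hDnil : IsNilpotent D := by
    have e : D * D = n * (1 + n) := by
      ext x
      change D (D x) = n (x + n x)
      rw [hDD, map_add]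
    obtain ⟨k, hk⟩ := hn
    refine ⟨2 * k, ?_⟩
    rw [pow_mul, pow_two, e, ((Commute.one_right n).add_right (Commute.refl n)).mul_pow, hk,
      zero_mul]
  -- 1 + n is injective
  have hninj : ∀ x, n x = x → x = 0 := by
    intro x hx
    obtain ⟨k, hk⟩ := hn
    have : ∀ j : ℕ, (n ^ j) x = x := by
      intro j
      induction j with
      | zero => rfl
      | succ j ih =>
        rw [pow_succ, Module.End.mul_apply, hx, ih]
    have h := this k
    rw [hk] at h
    exact h.symm
  -- perpendicular spaces
  set B : LinearMap.BilinForm F V := Q.polarBilin with hBdef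
  have hBa : ∀ x y, B x y = polar Q x y := fun x y => rfl
  have hBr : B.IsRefl := fun x y h => by
    rw [hBa] at h ⊢
    rw [Bc]; exact h
  have hBn : B.Nondegenerate := by
    refine ⟨fun x hx => hnd x hx, fun x hx => hnd x fun y => ?_⟩
    rw [Bc]; exact hx y
  set S : Submodule F V := Submodule.span F {a, J a} with hS
  have memS : ∀ x, x ∈ S ↔ ∃ α β : F, α • a + β • J a = x := fun x =>
    Submodule.mem_span_pair
  set X : Submodule F V := B.orthogonal S with hX
  have memX : ∀ x, x ∈ X ↔ polar Q x a = 0 ∧ polar Q x (J a) = 0 := by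
    intro x
    rw [hX, LinearMap.BilinForm.mem_orthogonal_iff]
    constructor
    · intro h
      refine ⟨?_, ?_⟩
      · have := h a ((memS a).2 ⟨1, 0, by simp⟩)
        rw [Bc]; exact this
      · have := h (J a) ((memS (J a)).2 ⟨0, 1, by simp⟩)
        rw [Bc]; exact this
    · rintro ⟨h1, h2⟩ y hy
      obtain ⟨α, β, rfl⟩ := (memS y).1 hy
      rw [hBa, polar_add_left, polar_smul_left, polar_smul_left, Bc, h1, Bc, h2]
      simp
  have XX : B.orthogonal X = S := LinearMap.BilinForm.orthogonal_orthogonal hBn hBr S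
  have aJa : polar Q (J a) a = 0 := hJ.alt a
  have haJa : polar Q a (J a) = 0 := by rw [Bc]; exact aJa
  have hSX : S ≤ X := by
    intro x hx
    obtain ⟨α, β, rfl⟩ := (memS x).1 hx
    rw [memX]
    refine ⟨?_, ?_⟩
    · rw [polar_add_left, polar_smul_left, polar_smul_left, Bself, aJa]; simp
    · rw [polar_add_left, polar_smul_left, polar_smul_left, Bself, haJa]; simp
  have hfS : finrank F S = 2 := by
    have hli : LinearIndependent F ![a, J a] := by
      rw [LinearIndependent.pair_iff]
      exact hind
    have hr : ({a, J a} : Set V) = Set.range ![a, J a] := by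
      ext x
      simp only [Set.mem_insert_iff, Set.mem_singleton_iff, Set.mem_range, Fin.exists_fin_two,
        Matrix.cons_val_zero, Matrix.cons_val_one, Matrix.cons_val_fin_one]
      rw [eq_comm, @eq_comm _ x (J a)]
    rw [hS, hr]
    exact (finrank_span_eq_card hli).trans (Fintype.card_fin 2)
  have hfX : finrank F X = finrank F V - 2 := by
    rw [hX, LinearMap.BilinForm.finrank_orthogonal hBn, hfS]
  have hVe : Even (finrank F V) := by
    have h := hE F V B (fun x => Bself x)
    have h3 := LinearMap.finrank_range_add_finrank_ker B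
    rw [hBn.ker_eq_bot, finrank_bot, add_zero] at h3
    rwa [h3] at h
  have hXle : finrank F S ≤ finrank F X := Submodule.finrank_mono hSX
  by_cases hV4 : finrank F V = 4
  · exact Or.inl hV4
  right
  obtain ⟨v, hv⟩ := hVe
  have hV6 : 6 ≤ finrank F V := by omega
  refine ⟨by omega, ?_⟩
  -- invariance
  have DX : ∀ x ∈ X, D x ∈ X := by
    intro x hx
    rw [memX] at hx ⊢
    refine ⟨?_, ?_⟩
    · rw [Dadj, Da, polar_zero_right]
    · rw [Dadj, DJa, polar_smul_right, hx.1, smul_zero]
  have JX : ∀ x ∈ X, J x ∈ X := by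
    intro x hx
    rw [memX] at hx ⊢
    refine ⟨?_, ?_⟩
    · rw [hJ.adj]; exact hx.2
    · rw [hJ.adj, hJ.sq, polar_add_right, polar_smul_right, hx.1, hx.2]; simp
  have XS : ∀ x ∈ X, ∀ y ∈ S, polar Q x y = 0 := by
    intro x hx y hy
    rw [memX] at hx
    obtain ⟨α, β, rfl⟩ := (memS y).1 hy
    rw [polar_add_right, polar_smul_right, polar_smul_right, hx.1, hx.2]; simp
  -- the space 𝔅
  set W : Submodule F V := X ⊓ S.comap D with hW
  have hWe : Even (finrank F W) := by
    let β : X →ₗ[F] X →ₗ[F] F := (B ∘ₗ D).domRestrict₁₂ X X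
    have hβ : ∀ x y : X, β x y = polar Q (D x) y := fun x y => rfl
    have h := hE F X β (fun x => by rw [hβ]; exact Dalt x)
    have h3 := LinearMap.finrank_range_add_finrank_ker β
    have h4 : (LinearMap.ker β).map X.subtype = W := by
      ext x
      rw [Submodule.mem_map]
      constructor
      · rintro ⟨y, hy, rfl⟩
        refine ⟨y.2, ?_⟩
        change D y ∈ S
        rw [← XX, LinearMap.BilinForm.mem_orthogonal_iff]
        intro w hw
        rw [LinearMap.mem_ker] at hy
        have := LinearMap.congr_fun hy ⟨w, hw⟩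
        rw [hβ] at this
        rw [hBa, Bc]
        simpa using this
      · rintro ⟨hx, hx2⟩
        refine ⟨⟨x, hx⟩, ?_, rfl⟩
        rw [LinearMap.mem_ker]
        ext w
        rw [hβ]
        have : D x ∈ S := hx2
        rw [Bc]
        simpa using XS w w.2 _ this
    have h5 : finrank F (LinearMap.ker β) = finrank F W := by
      rw [← h4, Submodule.finrank_map_subtype_eq]
    rw [h5, hfX] at h3
    obtain ⟨r, hr⟩ := h
    rw [hr] at h3
    exact ⟨finrank F V / 2 - 1 - r, by omega⟩
  have hSW : S ≤ W := by
    refine le_inf hSX ?_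
    intro x hx
    change D x ∈ S
    obtain ⟨α, β, rfl⟩ := (memS x).1 hx
    rw [map_add, map_smul, map_smul, Da, DJa, smul_zero, zero_add, smul_smul]
    exact (memS _).2 ⟨β * z, 0, by simp⟩
  obtain ⟨x0, hx0W, hx0S⟩ : ∃ x ∈ W, x ∉ S := by
    have hlt : S < X := lt_of_le_of_ne hSX (fun h => by rw [h] at hfS; omega)
    obtain ⟨y, hyX, hyS⟩ := SetLike.exists_of_lt hlt
    have hex : ∃ k, (D ^ k) y ∈ S := by
      obtain ⟨k, hk⟩ := hDnil
      exact ⟨k, by rw [hk]; exact S.zero_mem⟩
    classical
    have hk0 : Nat.find hex ≠ 0 := by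
      intro h
      have := Nat.find_spec hex
      rw [h] at this
      exact hyS this
    obtain ⟨j, hj⟩ := Nat.exists_eq_succ_of_ne_zero hk0
    have hDk : ∀ i : ℕ, (D ^ i) y ∈ X := by
      intro i
      induction i with
      | zero => exact hyX
      | succ i ih =>
        rw [pow_succ', Module.End.mul_apply]
        exact DX _ ih
    refine ⟨(D ^ j) y, ⟨hDk j, ?_⟩, ?_⟩
    · change D ((D ^ j) y) ∈ S
      have := Nat.find_spec hex
      rw [hj, Nat.succ_eq_add_one, pow_succ', Module.End.mul_apply] at this
      exact this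
    · exact Nat.find_min hex (by omega)
  have hW4 : 4 ≤ finrank F W := by
    have hlt : S < W := lt_of_le_of_ne hSW (fun h => hx0S (by rw [h]; exact hx0W))
    have := Submodule.finrank_lt_finrank_of_lt hlt
    obtain ⟨r, hr⟩ := hWe
    omega
  -- z B(b, b') = 0
  have hTb : ∀ b, T b = z • b + D b := by
    intro b
    rw [hD]
    have := hVV (z • b)
    calc T b = T b + 0 := (add_zero _).symm
      _ = T b + (z • b + z • b) := by rw [this]
      _ = z • b + (T b + z • b) := by abel
  have hzB : ∀ b ∈ W, ∀ b' ∈ W, z * polar Q b b' = 0 := by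
    intro b hb b' hb'
    have hb1 : D b ∈ S := hb.2
    have hb1' : D b' ∈ S := hb'.2
    have e1 : polar Q (T (J b)) b' = z * polar Q (J b) b' := by
      rw [A7, hTb b', polar_add_right, polar_smul_right, XS _ (JX _ hb.1) _ hb1', add_zero,
        smul_eq_mul]
    have e2 : polar Q (T (J b)) b' = z * polar Q b (J b') + z * polar Q b b' := by
      rw [A1, polar_add_left, hJ.adj, hTb b, polar_add_left, polar_add_left, polar_smul_left,
        polar_smul_left, Bc (D b), XS _ (JX _ hb'.1) _ hb1, Bc (D b), XS _ hb'.1 _ hb1, add_zero,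
        add_zero, smul_eq_mul, smul_eq_mul]
    rw [e1, hJ.adj] at e2
    exact (left_eq_add.1 e2)
  -- a linear functional
  obtain ⟨w, hwa, hwJ⟩ : ∃ w, polar Q w a = 0 ∧ polar Q w (J a) = 1 := by
    by_contra hcon
    push Not at hcon
    have h1 : J a ∈ B.orthogonal (B.orthogonal (Submodule.span F {a})) := by
      rw [LinearMap.BilinForm.mem_orthogonal_iff]
      intro w hw
      rw [LinearMap.BilinForm.mem_orthogonal_iff] at hw
      have hwa : polar Q w a = 0 := by
        rw [Bc]; exact hw a (Submodule.mem_span_singleton_self a)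
      by_contra hne
      refine hcon ((polar Q w (J a))⁻¹ • w) ?_ ?_
      · rw [polar_smul_left, hwa, smul_zero]
      · rw [polar_smul_left, smul_eq_mul]
        exact inv_mul_cancel₀ hne
    rw [LinearMap.BilinForm.orthogonal_orthogonal hBn hBr, Submodule.mem_span_singleton] at h1
    obtain ⟨c, hc⟩ := h1
    have := hind (-c) 1 (by rw [neg_smul, one_smul, hc]; simp)
    exact one_ne_zero this.2
  -- the additive function
  let Φ : W →+ F := AddMonoidHom.mk' (fun b => polar Q w (D b) + z * Q b) (by
    intro b b'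
    have h := hzB b b.2 b' b'.2
    have hQ : Q ((b : V) + b') = Q b + Q b' + polar Q b b' := by
      unfold polar; ring
    simp only [Submodule.coe_add]
    rw [map_add, polar_add_right, hQ, mul_add, mul_add, h]
    ring)
  have : Finite V := Module.finite_of_finite F
  obtain ⟨b, hb0, hbS⟩ := CASE4a.count Φ {b : W | (b : V) ∈ S} (by
    have e1 : Nat.card {b : W | (b : V) ∈ S} ≤ Nat.card S := by
      refine Nat.card_le_card_of_injective (fun b => (⟨b.1.1, b.2⟩ : S)) ?_
      intro x y hxy
      simp only [Subtype.mk.injEq] at hxy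
      exact Subtype.ext (Subtype.ext hxy)
    have e2 : Nat.card S = Nat.card F ^ 2 := by
      rw [Module.natCard_eq_pow_finrank (K := F), hfS]
    have e3 : Nat.card W = Nat.card F ^ finrank F W := Module.natCard_eq_pow_finrank (K := F)
    have hq : 1 < Nat.card F := Finite.one_lt_card
    rw [e3]
    calc Nat.card F * Nat.card {b : W | (b : V) ∈ S} ≤ Nat.card F * Nat.card F ^ 2 := by
          rw [← e2]; exact Nat.mul_le_mul_left _ e1
      _ = Nat.card F ^ 3 := by ring
      _ < Nat.card F ^ finrank F W := Nat.pow_lt_pow_right hq (by omega))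
  have hbS' : (b : V) ∉ S := hbS
  obtain ⟨η0, η1, hη⟩ := (memS _).1 (show D b ∈ S from b.2.2)
  have hη1 : polar Q w (D b) = η1 := by
    rw [← hη, polar_add_right, polar_smul_right, polar_smul_right, hwa, hwJ]; simp
  have hb0' : η1 + z * Q b = 0 := by
    rw [← hη1]; exact hb0
  have hbη : η1 = z * Q b := by
    rw [add_eq_zero_iff_eq_neg, hnegF] at hb0'
    exact hb0'
  have hbX := (memX _).1 b.2.1
  refine ⟨b, η0, η1, hbS', hbX.1, hbX.2, ?_, hbη, ?_⟩
  · rw [hTb b, ← hη, add_assoc]
  · have hna : n a = 0 := by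
      have h := hDD a
      rw [Da, map_zero] at h
      refine hninj _ ?_
      have h9 := eq_neg_of_add_eq_zero_right h.symm
      rw [hneg] at h9
      exact h9
    have h := hDD b
    rw [← hη, map_add, map_smul, map_smul, Da, DJa, smul_zero, zero_add, smul_smul] at h
    -- (1 + n)(n b + z η1 a) = 0
    have h5 : n (b : V) + (z * η1) • a = 0 := by
      refine hninj _ ?_
      rw [map_add, map_smul, hna, smul_zero, add_zero]
      have h6 : n (n (b : V)) = (η1 * z) • a + n b := by
        rw [h]
        have := hVV (n (b : V))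
        calc n (n (b : V)) = n (n (b : V)) + 0 := (add_zero _).symm
          _ = n (n (b : V)) + (n (b : V) + n (b : V)) := by rw [this]
          _ = n b + n (n (b : V)) + n b := by abel
      rw [h6, mul_comm]
      abel
    have h7 : n (b : V) = (z * η1) • a := by
      rw [add_eq_zero_iff_eq_neg, hneg] at h5
      exact h5
    rw [hnx] at h7
    have h8 : Z (b : V) = Z b + s • (b : V) + s • (b : V) := by
      rw [add_assoc, hVV, add_zero]
    rw [h8, h7]
    abel

end Pool.Agent.H330.EvenQ
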