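import Pool.Agent.H330.EvenQ.Spec

/-!
# CASE4c: an `E`-Siegel transformation commuting with `J`, `J'`
-/

namespace Pool.Agent.H330.EvenQ

open QuadraticMap Module Polynomial

theorem CASE4c.four0 {F : Type} [Field F] [CharP F 2] : (4 : F) = 0 := by
  have h2 : (2 : F) = 0 := CharTwo.two_eq_zero
  have : (4 : F) = 2 * 2 := by norm_num
  rw [this, h2, mul_zero]

namespace CASE4c

section

variable {F V : Type} [Field F] [AddCommGroup V] [Module F V] (Q : QuadraticForm F V)

/-- the transformation `c` -/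
def cf (J : V →ₗ[F] V) (a b : V) (α β γ : F) (x : V) : V :=
  x + (polar Q x a + polar Q x (J a)) • b + polar Q x a • J b +
    (polar Q x b + polar Q x (J b) + α * polar Q x (J a) + γ * polar Q x a) • a +
    (polar Q x b + α * polar Q x a + β * polar Q x (J a)) • J a

variable {Q}

theorem cf_J [CharP F 2] {ν : F} {J : V →ₗ[F] V} (hJ : IsJ Q ν J) {a b : V} {α β γ : F}
    (h : α = γ + ν * β) (x : V) : cf Q J a b α β γ (J x) = J (cf Q J a b α β γ x) := by
  have e1 : polar Q (J x) a = polar Q x (J a) := hJ.adj x a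
  have e2 : polar Q (J x) (J a) = polar Q x (J a) + ν * polar Q x a := by
    rw [hJ.adj, hJ.sq, polar_add_right, polar_smul_right, smul_eq_mul]
  have e3 : polar Q (J x) b = polar Q x (J b) := hJ.adj x b
  have e4 : polar Q (J x) (J b) = polar Q x (J b) + ν * polar Q x b := by
    rw [hJ.adj, hJ.sq, polar_add_right, polar_smul_right, smul_eq_mul]
  unfold cf
  simp only [e1, e2, e3, e4, map_add, map_smul, hJ.sq, h]
  match_scalars <;> (rw [← CharTwo.add_eq_zero]; ring_nf; try simp only [CharTwo.two_eq_zero, CASE4c.four0, mul_zero, add_zero])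

theorem cf_T [CharP F 2] {J T : V →ₗ[F] V} (hTa : ∀ x y, polar Q (T x) y = polar Q x (T y))
    (hTJ : ∀ x, T (J x) = J (T x) + T x) {ν : F} (hJ : ∀ x, J (J x) = J x + ν • x)
    {a b : V} {α β γ z η0 η1 : F}
    (h : α = γ + ν * β) (ha : T a = z • a) (hb : T b = z • b + η0 • a + η1 • J a)
    (hη : η1 = z * β) (x : V) : cf Q J a b α β γ (T x) = T (cf Q J a b α β γ x) := by
  have e1 : polar Q (T x) a = z * polar Q x a := by
    rw [hTa, ha, polar_smul_right, smul_eq_mul]
  have hTJa : T (J a) = z • J a + z • a := by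
    rw [hTJ, ha, map_smul]
  have hTJb : T (J b) = z • J b + η0 • J a + η1 • (J a + ν • a) +
      (z • b + η0 • a + η1 • J a) := by
    rw [hTJ, hb, map_add, map_add, map_smul, map_smul, map_smul, hJ]
  have e2 : polar Q (T x) (J a) = z * polar Q x (J a) + z * polar Q x a := by
    rw [hTa, hTJa, polar_add_right, polar_smul_right, polar_smul_right, smul_eq_mul, smul_eq_mul]
  have e3 : polar Q (T x) b = z * polar Q x b + η0 * polar Q x a + η1 * polar Q x (J a) := by
    rw [hTa, hb]
    simp only [polar_add_right, polar_smul_right, smul_eq_mul]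
  have e4 : polar Q (T x) (J b) = z * polar Q x (J b) + η0 * polar Q x (J a) +
      η1 * (polar Q x (J a) + ν * polar Q x a) +
      (z * polar Q x b + η0 * polar Q x a + η1 * polar Q x (J a)) := by
    rw [hTa, hTJb]
    simp only [polar_add_right, polar_smul_right, smul_eq_mul]
  unfold cf
  simp only [e1, e2, e3, e4, map_add, map_smul, hTJa, hTJb, ha, hb, h, hη]
  match_scalars <;> (rw [← CharTwo.add_eq_zero]; ring_nf; try simp only [CharTwo.two_eq_zero, CASE4c.four0, mul_zero, add_zero])

theorem cf_Z [CharP F 2] {J Z : V →ₗ[F] V} (hZa : ∀ x y, polar Q (Z x) y = polar Q x (Z y))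
    (hZJ : ∀ x, Z (J x) = J (Z x)) {a b : V} {α β γ s τ : F}
    (ha : Z a = s • a) (hb : Z b = s • b + τ • a) (x : V) :
    cf Q J a b α β γ (Z x) = Z (cf Q J a b α β γ x) := by
  have e1 : polar Q (Z x) a = s * polar Q x a := by
    rw [hZa, ha, polar_smul_right, smul_eq_mul]
  have hZJa : Z (J a) = s • J a := by
    rw [hZJ, ha, map_smul]
  have hZJb : Z (J b) = s • J b + τ • J a := by
    rw [hZJ, hb, map_add, map_smul, map_smul]
  have e2 : polar Q (Z x) (J a) = s * polar Q x (J a) := by
    rw [hZa, hZJa, polar_smul_right, smul_eq_mul]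
  have e3 : polar Q (Z x) b = s * polar Q x b + τ * polar Q x a := by
    rw [hZa, hb]
    simp only [polar_add_right, polar_smul_right, smul_eq_mul]
  have e4 : polar Q (Z x) (J b) = s * polar Q x (J b) + τ * polar Q x (J a) := by
    rw [hZa, hZJb]
    simp only [polar_add_right, polar_smul_right, smul_eq_mul]
  unfold cf
  simp only [e1, e2, e3, e4, map_add, map_smul, hZJa, hZJb, ha, hb]
  match_scalars <;> (rw [← CharTwo.add_eq_zero]; ring_nf; try simp only [CharTwo.two_eq_zero, CASE4c.four0, mul_zero, add_zero])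

end

end CASE4c

open CASE4c

theorem h_CASE4c (hA : S_ALG) (hS : S_SIEG) : S_CASE4c := by
  intro F V _ _ _ _ _ _ Q hnd ν J J' hJ hJ' a b z s η0 η1 hQa hQJa hind hbn hba hbJa hTa hZa hTb
    hη hZb hdim
  obtain ⟨hTJ, hZJ, hZJ', hZT, hT2, hJ'eq, hTadj, hTalt, hZadj, hZalt⟩ := hA F V Q ν J J' hJ hJ'
  have hZadj' : ∀ x y, polar Q (ZZ J J' x) y = polar Q x (ZZ J J' y) := by
    intro x y
    have := hZadj X x y
    simpa using this
  have h2 : (2 : F) = 0 := CharTwo.two_eq_zero
  -- values
  have hself : ∀ x, polar Q x x = 0 := by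
    intro x
    rw [polar_self, nsmul_eq_mul]
    push_cast
    rw [h2, zero_mul]
  have hab : polar Q a b = 0 := by rw [polar_comm, hba]
  have haJa : polar Q a (J a) = 0 := by rw [polar_comm]; exact hJ.alt a
  have hJab : polar Q (J a) b = 0 := by rw [polar_comm, hbJa]
  have haJb : polar Q a (J b) = 0 := by rw [← hJ.adj, hJab]
  have hJaJb : polar Q (J a) (J b) = 0 := by
    rw [hJ.adj, hJ.sq, polar_add_right, polar_smul_right, haJb, hab, smul_zero, add_zero]
  have hJba : polar Q (J b) a = 0 := by rw [polar_comm, haJb]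
  have hJbJa : polar Q (J b) (J a) = 0 := by rw [polar_comm, hJaJb]
  have hbJb : polar Q b (J b) = 0 := by rw [polar_comm]; exact hJ.alt b
  obtain ⟨β, hβ⟩ : ∃ β, β = Q b := ⟨_, rfl⟩
  obtain ⟨γ, hγ⟩ : ∃ γ, γ = Q b + Q (J b) := ⟨_, rfl⟩
  obtain ⟨α, hα⟩ : ∃ α, α = γ + ν * β := ⟨_, rfl⟩
  -- the three Siegel transformations
  obtain ⟨g1, -, -, hg1, hg1O⟩ := hS F V Q hnd (J a) b hQJa hJab
  obtain ⟨g2, -, -, hg2, hg2O⟩ := hS F V Q hnd a (b + J b) hQa (by
    rw [polar_add_right, hab, haJb, add_zero])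
  obtain ⟨g3, -, -, hg3, hg3O⟩ := hS F V Q hnd a (α • J a) hQa (by
    rw [polar_smul_right, haJa, smul_zero])
  have hQbJb : Q (b + J b) = γ := by
    rw [QuadraticMap.map_add Q b (J b), hbJb, add_zero, hγ]
  have hQα : Q (α • J a) = 0 := by
    rw [QuadraticMap.map_smul, hQJa, smul_zero]
  have hc : ∀ x, (g3 * g2 * g1) x = cf Q J a b α β γ x := by
    intro x
    change g3 (g2 (g1 x)) = _
    rw [hg3, hg2, hg1]
    unfold sieg
    rw [hQbJb, hQα, ← hβ]
    simp only [polar_add_left, polar_add_right, polar_smul_left, polar_smul_right, smul_eq_mul,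
      hself, haJa, hJab, hJaJb, hJba, hJbJa, hbJb, hba, hbJa, hJ.alt, mul_zero,
      add_zero, zero_mul, zero_smul]
    unfold cf
    match_scalars <;> (rw [← CharTwo.add_eq_zero]; ring_nf; try simp only [CharTwo.two_eq_zero, CASE4c.four0, mul_zero, add_zero])
  refine ⟨g3 * g2 * g1, (Om Q).mul_mem ((Om Q).mul_mem (hg3O hdim) (hg2O hdim)) (hg1O hdim), ?_,
    ?_, ?_⟩
  · -- nontrivial
    intro h1
    have hfix : ∀ x, cf Q J a b α β γ x = x := by
      intro x
      rw [← hc, h1]
      rfl
    have ha0 : a ≠ 0 := by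
      intro h
      have := hind 1 0 (by rw [h]; simp)
      exact one_ne_zero this.1
    obtain ⟨y, hy⟩ : ∃ y, polar Q y a ≠ 0 := by
      by_contra hne
      push Not at hne
      exact ha0 (hnd a fun y => by rw [polar_comm]; exact hne y)
    obtain ⟨x, hx1, hx2⟩ : ∃ x, polar Q x a = 0 ∧ polar Q x (J a) ≠ 0 := by
      by_contra hne
      push Not at hne
      -- then `J a` is proportional to `a`
      have h3 : ∀ x, polar Q x (polar Q y a • J a + polar Q y (J a) • a) = 0 := by
        intro x
        have h4 := hne (polar Q y a • x + polar Q x a • y) (by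
          simp only [polar_add_left, polar_smul_left, smul_eq_mul]
          rw [mul_comm (polar Q x a)]
          exact CharTwo.add_self_eq_zero _)
        simp only [polar_add_left, polar_smul_left, smul_eq_mul] at h4
        simp only [polar_add_right, polar_smul_right, smul_eq_mul]
        rw [← h4]
        ring
      have h5 := hnd _ (fun x => by rw [polar_comm]; exact h3 x)
      have h6 := hind (polar Q y (J a)) (polar Q y a) (by rw [add_comm]; exact h5)
      exact hy h6.2
    have h7 := hfix x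
    unfold cf at h7
    rw [hx1] at h7
    apply hbn
    rw [Submodule.mem_span_pair]
    set k := polar Q x (J a) with hk
    set A := polar Q x b + polar Q x (J b) + α * k + γ * 0 with hAdef
    set B := polar Q x b + α * 0 + β * k with hBdef
    have h8 : k • b + A • a + B • J a = 0 := by
      have h9 : x + (k • b + A • a + B • J a) = x + 0 := by
        rw [add_zero]
        conv_rhs => rw [← h7]
        module
      exact add_left_cancel h9
    refine ⟨-(k⁻¹ * A), -(k⁻¹ * B), ?_⟩
    have h10 : k⁻¹ • (k • b + A • a + B • J a) = 0 := by rw [h8, smul_zero]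
    rw [smul_add, smul_add, smul_smul, smul_smul, smul_smul, inv_mul_cancel₀ hx2, one_smul] at h10
    rw [neg_smul, neg_smul]
    have h11 : b = -((k⁻¹ * A) • a) - (k⁻¹ * B) • J a := by
      rw [add_assoc, add_eq_zero_iff_eq_neg] at h10
      rw [h10]
      abel
    rw [← sub_eq_add_neg]
    exact h11.symm
  · intro x
    rw [hc, hc]
    exact cf_J hJ hα x
  · intro x
    rw [hc, hc, hJ'eq, hJ'eq]
    have k1 := cf_J (a := a) (b := b) hJ hα x
    have k2 := cf_T (Q := Q) (J := J) (T := TT J J') hTadj hTJ hJ.sq hα hTa hTb (by rw [hη, hβ]) x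
    have k3 := cf_Z (Q := Q) (J := J) (Z := ZZ J J') (α := α) (β := β) (γ := γ) hZadj' hZJ hZa hZb x
    have hadd : ∀ x y, cf Q J a b α β γ (x + y) = cf Q J a b α β γ x + cf Q J a b α β γ y := by
      intro x y
      rw [← hc, ← hc, ← hc, map_add]
    rw [hadd, hadd, k1, k2, k3]

end Pool.Agent.H330.EvenQ
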