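import Pool.Agent.H330.EvenQ.Spec

/-!
# COMB: combining the trichotomy on two orthogonal summands
-/

namespace Pool.Agent.H330.EvenQ

open QuadraticMap Module Polynomial

namespace COMB

lemma add_self (F : Type) [Field F] [CharP F 2] {V : Type} [AddCommGroup V] [Module F V] (x : V) :
    x + x = 0 := by
  rw [← two_smul F x, CharTwo.two_eq_zero, zero_smul]

variable {F V : Type} [Field F] [AddCommGroup V] [Module F V]

lemma mem_eig {J : V →ₗ[F] V} {μ : F} {x : V} : x ∈ eig J μ ↔ J x = μ • x := by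
  unfold eig
  rw [LinearMap.mem_ker, LinearMap.sub_apply, LinearMap.smul_apply, LinearMap.id_apply, sub_eq_zero]

lemma polar_symm (Q : QuadraticForm F V) (x y : V) : polar Q x y = polar Q y x :=
  polar_comm Q x y

/-- a totally singular subspace is totally isotropic -/
lemma iso_of_sing {Q : QuadraticForm F V} {S : Submodule F V} (h : ∀ x ∈ S, Q x = 0) :
    ∀ x ∈ S, ∀ y ∈ S, polar Q x y = 0 := by
  intro x hx y hy
  unfold polar
  rw [h x hx, h y hy, h _ (S.add_mem hx hy)]
  ring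

lemma Q_add {Q : QuadraticForm F V} {x y : V} (h1 : Q x = 0) (h2 : Q y = 0)
    (h3 : polar Q x y = 0) : Q (x + y) = 0 := by
  unfold polar at h3
  rw [h1, h2] at h3
  linear_combination h3

/-- dimension bound -/
lemma dim_bound [FiniteDimensional F V] {Q : QuadraticForm F V} (hQ : Nondeg Q)
    (S T : Submodule F V) (h1 : ∀ x ∈ S, ∀ y ∈ S, polar Q x y = 0)
    (h2 : ∀ x ∈ S, ∀ y ∈ T, polar Q x y = 0) (h3 : S ⊓ T = ⊥) :
    2 * finrank F S + finrank F T ≤ finrank F V := by
  have h4 := LinearMap.BilinForm.finrank_add_finrank_orthogonal' (B := polarBilin Q) S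
  have h5 : LinearMap.ker (polarBilin Q) = ⊥ := by
    rw [eq_bot_iff]
    intro x hx
    rw [Submodule.mem_bot]
    refine hQ x fun y => ?_
    have h6 : polarBilin Q x = 0 := hx
    have h7 := LinearMap.congr_fun h6 y
    simpa using h7
  rw [h5, inf_bot_eq, finrank_bot, add_zero] at h4
  have h6 : S ⊔ T ≤ LinearMap.BilinForm.orthogonal (polarBilin Q) S := by
    refine sup_le ?_ ?_
    · intro y hy
      rw [LinearMap.BilinForm.mem_orthogonal_iff]
      intro x hx
      exact h1 x hx y hy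
    · intro y hy
      rw [LinearMap.BilinForm.mem_orthogonal_iff]
      intro x hx
      exact h2 x hx y hy
  have h7 := Submodule.finrank_mono h6
  have h8 := Submodule.finrank_sup_add_finrank_inf_eq S T
  rw [h3, finrank_bot, add_zero] at h8
  omega

/-- ConB inside `V` -/
def VB (Q : QuadraticForm F V) (J : V →ₗ[F] V) (W : Submodule F V) : Prop :=
  ∃ S : Submodule F V, S ≤ W ∧ (∀ x ∈ S, J x ∈ S) ∧ (∀ x ∈ S, Q x = 0) ∧
    2 * finrank F S = finrank F W

/-- ConC inside `V` -/
def VC (Q : QuadraticForm F V) (ν : F) (J J' : V →ₗ[F] V) (W : Submodule F V) : Prop :=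
  ∃ μ : F, μ * μ = μ + ν ∧ (∃ S : Submodule F V, S ≤ eig J μ ⊓ W ∧ (∀ x ∈ S, Q x = 0) ∧
    2 * finrank F S = finrank F (eig J μ ⊓ W : Submodule F V)) ∧
    ∃ x ∈ W, Q x ≠ 0 ∧ (J x = μ • x ∨ J x = (μ + 1) • x) ∧ (J' x = J x ∨ J' x = J x + x)

lemma toVB {Q : QuadraticForm F V} {J : V →ₗ[F] V} {W : Submodule F V} {hJ : ∀ x ∈ W, J x ∈ W}
    (h : ConB (Q.comp W.subtype) (J.restrict hJ)) : VB Q J W := by
  obtain ⟨S, h1, h2, h3⟩ := h
  refine ⟨S.map W.subtype, Submodule.map_subtype_le W S, ?_, ?_, ?_⟩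
  · rintro x hx
    obtain ⟨y, hy, rfl⟩ := Submodule.mem_map.1 hx
    exact Submodule.mem_map.2 ⟨J.restrict hJ y, h1 y hy, rfl⟩
  · rintro x hx
    obtain ⟨y, hy, rfl⟩ := Submodule.mem_map.1 hx
    exact h2 y hy
  · rw [Submodule.finrank_map_subtype_eq, h3]

lemma map_eig {J : V →ₗ[F] V} {W : Submodule F V} (hJ : ∀ x ∈ W, J x ∈ W) (μ : F) :
    (eig (J.restrict hJ) μ).map W.subtype = eig J μ ⊓ W := by
  ext x
  rw [Submodule.mem_map, Submodule.mem_inf, mem_eig]
  constructor
  · rintro ⟨y, hy, rfl⟩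
    rw [mem_eig] at hy
    refine ⟨?_, y.2⟩
    have := congrArg (fun z : W => (z : V)) hy
    exact this
  · rintro ⟨h1, h2⟩
    refine ⟨⟨x, h2⟩, ?_, rfl⟩
    rw [mem_eig]
    exact Subtype.ext h1

lemma toVC {Q : QuadraticForm F V} {ν : F} {J J' : V →ₗ[F] V} {W : Submodule F V}
    {hJ : ∀ x ∈ W, J x ∈ W} {hJ' : ∀ x ∈ W, J' x ∈ W}
    (h : ConC (Q.comp W.subtype) ν (J.restrict hJ) (J'.restrict hJ')) : VC Q ν J J' W := by
  obtain ⟨μ, h1, ⟨S, h2, h3, h4⟩, ⟨x, h5, h6, h7⟩⟩ := h
  refine ⟨μ, h1, ⟨S.map W.subtype, ?_, ?_, ?_⟩, ⟨x, x.2, h5, ?_, ?_⟩⟩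
  · rw [← map_eig hJ μ]
    exact Submodule.map_mono h2
  · rintro x hx
    obtain ⟨y, hy, rfl⟩ := Submodule.mem_map.1 hx
    exact h3 y hy
  · rw [← map_eig hJ μ, Submodule.finrank_map_subtype_eq, Submodule.finrank_map_subtype_eq, h4]
  · rcases h6 with h6 | h6
    · exact Or.inl (congrArg (fun z : W => (z : V)) h6)
    · exact Or.inr (congrArg (fun z : W => (z : V)) h6)
  · rcases h7 with h7 | h7
    · exact Or.inl (congrArg (fun z : W => (z : V)) h7)
    · exact Or.inr (congrArg (fun z : W => (z : V)) h7)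

/-- extension of ConAs -/
lemma ext_A (hX : S_EXT) [Finite F] [CharP F 2] [FiniteDimensional F V] {Q : QuadraticForm F V}
    {J J' : V →ₗ[F] V} {W W' : Submodule F V} (hc : IsCompl W W')
    (ho : ∀ x ∈ W, ∀ y ∈ W', polar Q x y = 0) {hJ : ∀ x ∈ W, J x ∈ W} {hJ' : ∀ x ∈ W, J' x ∈ W}
    (kJ : ∀ x ∈ W', J x ∈ W') (kJ' : ∀ x ∈ W', J' x ∈ W')
    (h : ConAs (Q.comp W.subtype) (J.restrict hJ) (J'.restrict hJ')) : ConAs Q J J' := by
  obtain ⟨c, h1, h2, h3, h4⟩ := h
  obtain ⟨c', g1, g2, g3⟩ := hX F V Q W W' hc ho c h1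
  have key : ∀ (K : V →ₗ[F] V) (hK : ∀ x ∈ W, K x ∈ W), (∀ x ∈ W', K x ∈ W') →
      (∀ x, c (K.restrict hK x) = K.restrict hK (c x)) → ∀ v, c' (K v) = K (c' v) := by
    intro K hK kK hcK v
    have hv : v ∈ W ⊔ W' := by
      rw [hc.sup_eq_top]
      exact Submodule.mem_top
    obtain ⟨x, hx, y, hy, rfl⟩ := Submodule.mem_sup.1 hv
    rw [map_add, map_add, map_add, map_add, g3 y hy, g3 _ (kK y hy)]
    congr 1
    have e1 := g2 ⟨x, hx⟩
    have e2 := g2 ⟨K x, hK x hx⟩
    have e3 := congrArg (fun z : W => (z : V)) (hcK ⟨x, hx⟩)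
    have e4 : ((c ⟨K x, hK x hx⟩ : W) : V) = K ((c ⟨x, hx⟩ : W) : V) := e3
    change c' (K x) = _ at e2
    rw [e2, e4]
    change K _ = K (c' x)
    rw [← e1]
  refine ⟨c', g1, ?_, key J hJ kJ h3, key J' hJ' kJ' h4⟩
  intro hone
  apply h2
  ext x
  have e1 := g2 x
  rw [hone] at e1
  exact e1.symm

/-- a reflection in an eigenvector commutes with a self-adjoint operator -/
lemma refl_comm {Q : QuadraticForm F V} {K : V →ₗ[F] V}
    (hK : ∀ x y, polar Q (K x) y = polar Q x (K y)) {u : V} {l : F} (hu : K u = l • u) (v : V) :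
    refl Q u (K v) = K (refl Q u v) := by
  unfold refl
  rw [map_add, map_smul, hu, hK, hu, polar_smul_right, smul_smul, smul_eq_mul]
  congr 2
  ring

end COMB

open COMB in
theorem h_COMB (hR : S_REFL) (hX : S_EXT) : S_COMB := by
  intro F V _ _ _ _ _ _ Q hQ ν J J' hJJ hJJ' W W' hc ho hJ hJ' kJ kJ' h1 h2
  have ho' : ∀ x ∈ W', ∀ y ∈ W, polar Q x y = 0 := fun x hx y hy => by
    rw [polar_symm]
    exact ho y hy x hx
  have hsum : finrank F W + finrank F W' = finrank F V := Submodule.finrank_add_eq_of_isCompl hc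
  have hinf : W ⊓ W' = ⊥ := hc.inf_eq_bot
  have hdec : ∀ v : V, ∃ x ∈ W, ∃ y ∈ W', x + y = v := by
    intro v
    have hv : v ∈ W ⊔ W' := by
      rw [hc.sup_eq_top]
      exact Submodule.mem_top
    exact Submodule.mem_sup.1 hv
  have hz : ∀ x ∈ W, ∀ y ∈ W', x + y = 0 → x = 0 ∧ y = 0 := by
    intro x hx y hy hxy
    have h3 : x ∈ W ⊓ W' := by
      refine ⟨hx, ?_⟩
      have : x = -y := eq_neg_of_add_eq_zero_left hxy
      rw [this]
      exact W'.neg_mem hy
    rw [hinf, Submodule.mem_bot] at h3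
    refine ⟨h3, ?_⟩
    rw [h3, zero_add] at hxy
    exact hxy
  -- eigenspaces split
  have heig : ∀ μ : F, eig J μ = (eig J μ ⊓ W) ⊔ (eig J μ ⊓ W') := by
    intro μ
    apply le_antisymm
    · intro v hv
      obtain ⟨x, hx, y, hy, rfl⟩ := hdec v
      rw [mem_eig, map_add, smul_add] at hv
      have h3 := hz (J x - μ • x) (W.sub_mem (hJ x hx) (W.smul_mem _ hx)) (J y - μ • y)
        (W'.sub_mem (kJ y hy) (W'.smul_mem _ hy)) (by
          have : J x - μ • x + (J y - μ • y) = (J x + J y) - (μ • x + μ • y) := by abel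
          rw [this, hv, sub_self])
      refine Submodule.add_mem_sup ⟨?_, hx⟩ ⟨?_, hy⟩
      · exact mem_eig.2 (sub_eq_zero.1 h3.1)
      · exact mem_eig.2 (sub_eq_zero.1 h3.2)
    · exact sup_le inf_le_left inf_le_left
  -- B and C
  have hBC : ∀ U U' : Submodule F V, U ⊓ U' = ⊥ → (∀ x ∈ U, ∀ y ∈ U', polar Q x y = 0) →
      finrank F U + finrank F U' = finrank F V → (∀ x ∈ U', J x ∈ U') →
      (∀ μ : F, eig J μ = (eig J μ ⊓ U) ⊔ (eig J μ ⊓ U')) →
      VC Q ν J J' U → VB Q J U' → ConC Q ν J J' := by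
    intro U U' hi hort hfr hJU' hsp hC hB
    obtain ⟨μ, m1, ⟨S0, s1, s2, s3⟩, x, hx, m2, m3, m4⟩ := hC
    obtain ⟨S, t1, t2, t3, t4⟩ := hB
    have hmu : μ * μ + μ = ν := by
      rw [m1]
      have := CharTwo.add_self_eq_zero μ
      linear_combination this
    have a1 : ∀ v : V, J v + (μ + 1) • v ∈ eig J μ := by
      intro v
      rw [mem_eig, map_add, map_smul, hJJ.sq, smul_add, smul_smul]
      have e1 : μ * (μ + 1) = ν := by rw [← hmu]; ring
      rw [e1, add_smul, one_smul]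
      have e2 := add_self F (J v)
      calc J v + ν • v + (μ • J v + J v) = (J v + J v) + (μ • J v + ν • v) := by abel
        _ = _ := by rw [e2, zero_add]
    have a2 : ∀ v : V, J v + μ • v ∈ eig J (μ + 1) := by
      intro v
      rw [mem_eig, map_add, map_smul, hJJ.sq, smul_add, smul_smul]
      have e1 : (μ + 1) * μ = ν := by rw [← hmu]; ring
      rw [e1, add_smul, one_smul]
      abel
    have a3 : ∀ v : V, (J v + (μ + 1) • v) + (J v + μ • v) = v := by
      intro v
      rw [add_smul, one_smul]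
      have e1 := add_self F (J v)
      have e2 := add_self F (μ • v)
      calc (J v + (μ • v + v)) + (J v + μ • v) = (J v + J v) + (μ • v + μ • v) + v := by abel
        _ = v := by rw [e1, e2, zero_add, zero_add]
    have a4 : ∀ x ∈ eig J μ, ∀ y ∈ eig J (μ + 1), polar Q x y = 0 := by
      intro x hx y hy
      rw [mem_eig] at hx hy
      have e1 := hJJ.adj x y
      rw [hx, hy, polar_smul_left, polar_smul_right, smul_eq_mul, smul_eq_mul] at e1
      linear_combination -e1
    have a5 : eig J μ ⊓ eig J (μ + 1) = ⊥ := by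
      rw [eq_bot_iff]
      rintro x ⟨hx, hy⟩
      rw [SetLike.mem_coe, mem_eig] at hx hy
      rw [Submodule.mem_bot]
      rw [hx, add_smul, one_smul] at hy
      exact (left_eq_add.1 hy)
    -- splitting of J-invariant subspaces
    have a6 : ∀ P : Submodule F V, (∀ x ∈ P, J x ∈ P) →
        finrank F (eig J μ ⊓ P : Submodule F V) + finrank F (eig J (μ + 1) ⊓ P : Submodule F V) =
          finrank F P := by
      intro P hP
      have e1 : (eig J μ ⊓ P) ⊔ (eig J (μ + 1) ⊓ P) = P := by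
        apply le_antisymm
        · exact sup_le inf_le_right inf_le_right
        · intro v hv
          rw [← a3 v]
          exact Submodule.add_mem_sup ⟨a1 v, P.add_mem (hP v hv) (P.smul_mem _ hv)⟩
            ⟨a2 v, P.add_mem (hP v hv) (P.smul_mem _ hv)⟩
      have e2 : (eig J μ ⊓ P) ⊓ (eig J (μ + 1) ⊓ P) = ⊥ := by
        rw [eq_bot_iff, ← a5]
        exact inf_le_inf inf_le_left inf_le_left
      have e3 := Submodule.finrank_sup_add_finrank_inf_eq (eig J μ ⊓ P) (eig J (μ + 1) ⊓ P)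
      rw [e1, e2, finrank_bot, add_zero] at e3
      exact e3.symm
    have b1 := a6 S t2
    have b2 := a6 U' hJU'
    -- the bounds
    have c1 : ∀ l l' : F, (∀ x ∈ eig J l, ∀ y ∈ eig J l', polar Q x y = 0) →
        eig J l ⊓ eig J l' = ⊥ →
        2 * finrank F (eig J l ⊓ S : Submodule F V) + (finrank F U +
          finrank F (eig J l' ⊓ U' : Submodule F V)) ≤ finrank F V := by
      intro l l' hl hl0
      have e1 := Submodule.finrank_sup_add_finrank_inf_eq U (eig J l' ⊓ U')
      have e2 : U ⊓ (eig J l' ⊓ U') = ⊥ := by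
        rw [eq_bot_iff, ← hi]
        exact inf_le_inf le_rfl inf_le_right
      rw [e2, finrank_bot, add_zero] at e1
      rw [← e1]
      refine dim_bound hQ _ _ ?_ ?_ ?_
      · intro x hx y hy
        exact iso_of_sing t3 x hx.2 y hy.2
      · intro x hx y hy
        obtain ⟨u, hu, u', hu', rfl⟩ := Submodule.mem_sup.1 hy
        rw [polar_add_right, polar_symm Q x u, hort u hu x (t1 hx.2), hl x hx.1 u' hu'.1, add_zero]
      · rw [eq_bot_iff]
        rintro x ⟨hx, hy⟩
        obtain ⟨u, hu, u', hu', hxe⟩ := Submodule.mem_sup.1 hy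
        have hu0 : u ∈ U ⊓ U' := by
          refine ⟨hu, ?_⟩
          have : u = x - u' := by rw [← hxe]; abel
          rw [this]
          exact U'.sub_mem (t1 hx.2) hu'.2
        rw [hi, Submodule.mem_bot] at hu0
        rw [hu0, zero_add] at hxe
        have : x ∈ eig J l ⊓ eig J l' := ⟨hx.1, by rw [← hxe]; exact hu'.1⟩
        rw [hl0] at this
        exact this
    have c2 := c1 μ (μ + 1) a4 a5
    have c3 := c1 (μ + 1) μ (fun x hx y hy => by rw [polar_symm]; exact a4 y hy x hx)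
      (by rw [inf_comm]; exact a5)
    have c4 : 2 * finrank F (eig J μ ⊓ S : Submodule F V) =
        finrank F (eig J μ ⊓ U' : Submodule F V) := by omega
    refine ⟨μ, m1, ⟨S0 ⊔ (eig J μ ⊓ S), ?_, ?_, ?_⟩, x, m2, m3, m4⟩
    · exact sup_le (s1.trans inf_le_left) inf_le_left
    · intro v hv
      obtain ⟨u, hu, u', hu', rfl⟩ := Submodule.mem_sup.1 hv
      exact Q_add (s2 u hu) (t3 u' hu'.2) (hort u (s1 hu).2 u' (t1 hu'.2))
    · have e1 := Submodule.finrank_sup_add_finrank_inf_eq S0 (eig J μ ⊓ S)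
      have e2 : S0 ⊓ (eig J μ ⊓ S) = ⊥ := by
        rw [eq_bot_iff, ← hi]
        exact inf_le_inf (s1.trans inf_le_right) (inf_le_right.trans t1)
      rw [e2, finrank_bot, add_zero] at e1
      have e3 := Submodule.finrank_sup_add_finrank_inf_eq (eig J μ ⊓ U) (eig J μ ⊓ U')
      have e4 : (eig J μ ⊓ U) ⊓ (eig J μ ⊓ U') = ⊥ := by
        rw [eq_bot_iff, ← hi]
        exact inf_le_inf inf_le_right inf_le_right
      rw [e4, finrank_bot, add_zero, ← hsp μ] at e3
      omega
  rcases h1 with h1 | h1 | h1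
  · exact Or.inl (ext_A hX hc ho kJ kJ' h1)
  · rcases h2 with h2 | h2 | h2
    · exact Or.inl (ext_A hX hc.symm ho' hJ hJ' h2)
    · -- B and B
      right; left
      obtain ⟨S, s1, s2, s3, s4⟩ := toVB h1
      obtain ⟨T, t1, t2, t3, t4⟩ := toVB h2
      refine ⟨S ⊔ T, ?_, ?_, ?_⟩
      · intro v hv
        obtain ⟨u, hu, u', hu', rfl⟩ := Submodule.mem_sup.1 hv
        rw [map_add]
        exact Submodule.add_mem_sup (s2 u hu) (t2 u' hu')
      · intro v hv
        obtain ⟨u, hu, u', hu', rfl⟩ := Submodule.mem_sup.1 hv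
        exact Q_add (s3 u hu) (t3 u' hu') (ho u (s1 hu) u' (t1 hu'))
      · have e1 := Submodule.finrank_sup_add_finrank_inf_eq S T
        have e2 : S ⊓ T = ⊥ := by
          rw [eq_bot_iff, ← hinf]
          exact inf_le_inf s1 t1
        rw [e2, finrank_bot, add_zero] at e1
        omega
    · right; right
      exact hBC W' W (by rw [inf_comm]; exact hinf) ho' (by omega) hJ
        (fun μ => by rw [sup_comm]; exact heig μ) (toVC h2) (toVB h1)
  · rcases h2 with h2 | h2 | h2
    · exact Or.inl (ext_A hX hc.symm ho' hJ hJ' h2)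
    · right; right
      exact hBC W W' hinf ho hsum kJ heig (toVC h1) (toVB h2)
    · -- C and C
      left
      obtain ⟨μ, -, -, x, hx, m2, m3, m4⟩ := toVC h1
      obtain ⟨μ', -, -, y, hy, n2, n3, n4⟩ := toVC h2
      obtain ⟨g, hg, hg'⟩ := hR F V Q hQ x y m2 n2
      have ex : ∃ l : F, J x = l • x := by
        rcases m3 with h | h
        · exact ⟨_, h⟩
        · exact ⟨_, h⟩
      have ey : ∃ l : F, J y = l • y := by
        rcases n3 with h | h
        · exact ⟨_, h⟩
        · exact ⟨_, h⟩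
      obtain ⟨l, hl⟩ := ex
      obtain ⟨l', hl'⟩ := ey
      have ex' : ∃ k : F, J' x = k • x := by
        rcases m4 with h | h
        · exact ⟨l, by rw [h, hl]⟩
        · exact ⟨l + 1, by rw [h, hl, add_smul, one_smul]⟩
      have ey' : ∃ k : F, J' y = k • y := by
        rcases n4 with h | h
        · exact ⟨l', by rw [h, hl']⟩
        · exact ⟨l' + 1, by rw [h, hl', add_smul, one_smul]⟩
      obtain ⟨k, hk⟩ := ex'
      obtain ⟨k', hk'⟩ := ey'
      refine ⟨g, Subgroup.mem_sup_left hg, ?_, fun v => ?_, fun v => ?_⟩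
      · intro hone
        have hx0 : x ≠ 0 := by
          rintro rfl
          exact m2 (map_zero Q)
        obtain ⟨v, hv⟩ : ∃ v, polar Q v x ≠ 0 := by
          by_contra hcc
          push Not at hcc
          exact hx0 (hQ x fun v => by rw [polar_symm]; exact hcc v)
        have e1 := hg' v
        rw [hone] at e1
        have e2 : v = refl Q x (refl Q y v) := e1
        have e3 : polar Q y x = 0 := ho' y hy x hx
        unfold refl at e2
        rw [polar_add_left, polar_smul_left, e3, smul_zero, add_zero] at e2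
        have e4 : ((Q x)⁻¹ * polar Q v x) • x + ((Q y)⁻¹ * polar Q v y) • y = 0 := by
          have e5 : v + ((Q y)⁻¹ * polar Q v y) • y + ((Q x)⁻¹ * polar Q v x) • x =
            v + (((Q x)⁻¹ * polar Q v x) • x + ((Q y)⁻¹ * polar Q v y) • y) := by abel
          rw [e5] at e2
          exact left_eq_add.1 e2
        have e6 := (hz _ (W.smul_mem _ hx) _ (W'.smul_mem _ hy) e4).1
        rcases smul_eq_zero.1 e6 with e7 | e7
        · exact mul_ne_zero (inv_ne_zero m2) hv e7
        · exact hx0 e7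
      · rw [hg', hg', refl_comm hJJ.adj hl', refl_comm hJJ.adj hl]
      · rw [hg', hg', refl_comm hJJ'.adj hk', refl_comm hJJ'.adj hk]

end Pool.Agent.H330.EvenQ
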