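import Pool.Agent.H330.EvenQ.Spec

/-!
# From subgroups to the uniform domination number
-/

namespace Pool.Agent.H330.EvenQ

namespace DOM

/-- a set with at most two elements -/
theorem two {G : Type} (S : Set G) (h : S.encard ≤ 2) (hne : S.Nonempty) :
    ∃ a ∈ S, ∃ b ∈ S, ∀ x ∈ S, x = a ∨ x = b := by
  obtain ⟨a, ha⟩ := hne
  have h1 := Set.encard_sdiff_singleton_add_one ha
  have h2 : (S \ {a}).encard ≤ 1 := by
    rw [← h1] at h
    have h3 : (2 : ℕ∞) = 1 + 1 := by norm_num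
    rw [h3] at h
    exact (ENat.add_le_add_iff_right ENat.one_ne_top).1 h
  have h4 : (S \ {a}).Subsingleton := Set.encard_le_one_iff_subsingleton.1 h2
  by_cases h5 : (S \ {a}).Nonempty
  · obtain ⟨b, hb⟩ := h5
    refine ⟨a, ha, b, hb.1, fun x hx => ?_⟩
    by_cases hxa : x = a
    · exact Or.inl hxa
    · exact Or.inr (h4 ⟨hx, hxa⟩ hb)
  · refine ⟨a, ha, a, ha, fun x hx => ?_⟩
    by_cases hxa : x = a
    · exact Or.inl hxa
    · exact absurd ⟨x, hx, hxa⟩ h5

end DOM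

open DOM in
theorem h_DOM : S_DOM := by
  intro G _ hG
  unfold gammaU
  refine le_sInf ?_
  rintro n ⟨S, hS, ⟨s0, hs0⟩, rfl⟩
  by_contra hlt
  have hle : S.encard ≤ 2 := by
    have h1 : S.encard < 2 + 1 := by
      have h3 : (2 : ℕ∞) + 1 = 3 := by norm_num
      rw [h3]
      exact not_le.1 hlt
    exact Order.le_of_lt_add_one h1
  by_cases hne : S.Nonempty
  · obtain ⟨a, ha, b, hb, hab⟩ := two S hle hne
    obtain ⟨g, hg⟩ := isConj_iff.1 ((hs0 a ha).symm.trans (hs0 b hb))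
    obtain ⟨H, h1, h2, h3⟩ := hG a
    obtain ⟨c, hc1, hc2, hc3⟩ := h3 g
    obtain ⟨x, hx, hgen⟩ := hS c hc1
    rcases hab x hx with rfl | rfl
    · apply h2
      rw [eq_top_iff, ← hgen, Subgroup.closure_le]
      rintro y (rfl | rfl)
      · exact hc2
      · exact h1
    · apply h2
      have h4 : (⊤ : Subgroup G) ≤ H.comap (MulAut.conj g⁻¹).toMonoidHom := by
        rw [← hgen, Subgroup.closure_le]
        rintro y (rfl | rfl)
        · show g⁻¹ * y * g⁻¹⁻¹ ∈ H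
          rw [inv_inv]
          exact hc3
        · show g⁻¹ * y * g⁻¹⁻¹ ∈ H
          rw [inv_inv, ← hg]
          have e : g⁻¹ * (g * a * g⁻¹) * g = a := by group
          rw [e]
          exact h1
      rw [eq_top_iff]
      intro y _
      have h5 : g * y * g⁻¹ ∈ H.comap (MulAut.conj g⁻¹).toMonoidHom := h4 (Subgroup.mem_top _)
      have h6 : g⁻¹ * (g * y * g⁻¹) * g⁻¹⁻¹ ∈ H := h5
      have e : g⁻¹ * (g * y * g⁻¹) * g⁻¹⁻¹ = y := by group
      rwa [e] at h6
  · obtain ⟨H, -, -, h3⟩ := hG 1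
    obtain ⟨c, hc1, -, -⟩ := h3 1
    obtain ⟨x, hx, -⟩ := hS c hc1
    exact hne ⟨x, hx⟩

end Pool.Agent.H330.EvenQ
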