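import Mathlib

/-!
# Orthogonal groups in characteristic two: definitions

`F` is a finite field of characteristic `2`, `V` a finite-dimensional space, `Q` a quadratic form
with polar form `B = polar Q`.
-/

namespace Pool.Agent.H330.EvenQ

open QuadraticMap Module

section Defs

variable {F V : Type} [Field F] [AddCommGroup V] [Module F V]

/-- the polar form of `Q` is nondegenerate -/
def Nondeg (Q : QuadraticForm F V) : Prop := ∀ x, (∀ y, polar Q x y = 0) → x = 0

/-- the isometry group `O(V, Q)` -/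
def Orth (Q : QuadraticForm F V) : Subgroup (V ≃ₗ[F] V) where
  carrier := {g | ∀ x, Q (g x) = Q x}
  mul_mem' {a b} ha hb x := by
    change Q (a (b x)) = Q x
    rw [ha, hb]
  one_mem' x := rfl
  inv_mem' {a} ha x := by
    have h := ha (a⁻¹ x)
    have e : a (a⁻¹ x) = x := by
      change (a * a⁻¹) x = x
      rw [mul_inv_cancel]; rfl
    rw [e] at h
    exact h.symm

/-- `Ω(V, Q) = [O(V, Q), O(V, Q)]` -/
def Om (Q : QuadraticForm F V) : Subgroup (V ≃ₗ[F] V) := ⁅Orth Q, Orth Q⁆

/-- Siegel transformation (for `Q a = 0`, `polar Q a b = 0`) -/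
def sieg (Q : QuadraticForm F V) (a b x : V) : V :=
  x + polar Q x a • b + polar Q x b • a + (Q b * polar Q x a) • a

/-- reflection in `u` (for `Q u ≠ 0`) -/
def refl (Q : QuadraticForm F V) (u x : V) : V := x + ((Q u)⁻¹ * polar Q x u) • u

/-- the subgroup generated by `Ω` and the Siegel transformations -/
def Sg (Q : QuadraticForm F V) : Subgroup (V ≃ₗ[F] V) :=
  Om Q ⊔ Subgroup.closure {g | ∃ a b, Q a = 0 ∧ polar Q a b = 0 ∧ ∀ x, g x = sieg Q a b x}

/-- `J² = J + ν`, `J` self-adjoint and alternating for the polar form -/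
structure IsJ (Q : QuadraticForm F V) (ν : F) (J : V →ₗ[F] V) : Prop where
  sq : ∀ x, J (J x) = J x + ν • x
  adj : ∀ x y, polar Q (J x) y = polar Q x (J y)
  alt : ∀ x, polar Q (J x) x = 0

/-- `T = J J' + J' J` -/
def TT (J J' : V →ₗ[F] V) : V →ₗ[F] V := J ∘ₗ J' + J' ∘ₗ J

/-- `Z = (J + J')²` -/
def ZZ (J J' : V →ₗ[F] V) : V →ₗ[F] V := (J + J') ∘ₗ (J + J')

/-- a nontrivial element of `Ω` commutes with `J` and `J'` -/
def ConAo (Q : QuadraticForm F V) (J J' : V →ₗ[F] V) : Prop :=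
  ∃ c ∈ Om Q, c ≠ 1 ∧ (∀ x, c (J x) = J (c x)) ∧ (∀ x, c (J' x) = J' (c x))

/-- a nontrivial element of `Sg` commutes with `J` and `J'` -/
def ConAs (Q : QuadraticForm F V) (J J' : V →ₗ[F] V) : Prop :=
  ∃ c ∈ Sg Q, c ≠ 1 ∧ (∀ x, c (J x) = J (c x)) ∧ (∀ x, c (J' x) = J' (c x))

/-- there is a `J`-invariant totally singular subspace of half the dimension -/
def ConB (Q : QuadraticForm F V) (J : V →ₗ[F] V) : Prop :=
  ∃ S : Submodule F V, (∀ x ∈ S, J x ∈ S) ∧ (∀ x ∈ S, Q x = 0) ∧
    2 * finrank F S = finrank F V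

/-- the subspace `U` has a totally singular subspace of half its dimension -/
def Hyp (Q : QuadraticForm F V) (U : Submodule F V) : Prop :=
  ∃ S : Submodule F V, S ≤ U ∧ (∀ x ∈ S, Q x = 0) ∧ 2 * finrank F S = finrank F U

/-- the eigenspace of `J` -/
def eig (J : V →ₗ[F] V) (μ : F) : Submodule F V := LinearMap.ker (J - μ • LinearMap.id)

/-- `J` has an eigenvalue `μ` with hyperbolic eigenspace and there is a nonsingular eigenvector of
`J` on which `J'` acts as `J` or `J + 1` -/
def ConC (Q : QuadraticForm F V) (ν : F) (J J' : V →ₗ[F] V) : Prop :=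
  ∃ μ : F, μ * μ = μ + ν ∧ Hyp Q (eig J μ) ∧
    ∃ x, Q x ≠ 0 ∧ (J x = μ • x ∨ J x = (μ + 1) • x) ∧ (J' x = J x ∨ J' x = J x + x)

/-- the elements commuting with `J` -/
def cent (J : V →ₗ[F] V) : Subgroup (V ≃ₗ[F] V) where
  carrier := {g | ∀ x, g (J x) = J (g x)}
  mul_mem' {a b} ha hb x := by
    change a (b (J x)) = J (a (b x))
    rw [hb, ha]
  one_mem' x := rfl
  inv_mem' {a} ha x := by
    apply a.injective
    have e : ∀ y, a (a⁻¹ y) = y := fun y => by
      change (a * a⁻¹) y = y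
      rw [mul_inv_cancel]; rfl
    rw [e, ha, e]

/-- the stabiliser of the subspace `W` -/
def stab (W : Submodule F V) : Subgroup (V ≃ₗ[F] V) where
  carrier := {g | ∀ x, g x ∈ W ↔ x ∈ W}
  mul_mem' {a b} ha hb x := by
    change a (b x) ∈ W ↔ x ∈ W
    rw [ha, hb]
  one_mem' x := Iff.rfl
  inv_mem' {a} ha x := by
    have e : a (a⁻¹ x) = x := by
      change (a * a⁻¹) x = x
      rw [mul_inv_cancel]; rfl
    rw [← ha (a⁻¹ x), e]

end Defs

section Domination

variable {G : Type} [Group G]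

/-- total dominating set -/
def IsTDS (S : Set G) : Prop :=
  ∀ x : G, x ≠ 1 → ∃ s ∈ S, Subgroup.closure {x, s} = ⊤

/-- the uniform domination number (`⊤` if there is no total dominating set inside a conjugacy
class) -/
noncomputable def gammaU (G : Type) [Group G] : ℕ∞ :=
  sInf {n | ∃ S : Set G, IsTDS S ∧ (∃ s : G, ∀ x ∈ S, IsConj s x) ∧ n = S.encard}

end Domination

end Pool.Agent.H330.EvenQ
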