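import Pool.Agent.H330.EvenQ.Spec

/-!
# The rank of an alternating bilinear form is even
-/

set_option autoImplicit false

namespace Pool.Agent.H330.EvenQ

open QuadraticMap Module Polynomial

theorem EVEN.key (n : ℕ) : ∀ (F X : Type) [Field F] [AddCommGroup X] [Module F X]
    [FiniteDimensional F X] (β : X →ₗ[F] X →ₗ[F] F), (∀ x, β x x = 0) → finrank F X = n →
    Even (finrank F (LinearMap.range β)) := by
  induction n using Nat.strong_induction_on with
  | _ n ih =>
  intro F X _ _ _ _ β hβ hn
  have neg : ∀ x y, β x y = - β y x := by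
    intro x y
    have h := hβ (x + y)
    simp only [map_add, LinearMap.add_apply, hβ, zero_add, add_zero] at h
    exact eq_neg_of_add_eq_zero_right h
  by_cases h0 : β = 0
  · rw [h0, LinearMap.range_zero, finrank_bot]
    exact Even.zero
  obtain ⟨x, y, hc⟩ : ∃ x y, β x y ≠ 0 := by
    by_contra hcon
    push Not at hcon
    exact h0 (LinearMap.ext fun x => LinearMap.ext fun y => by simpa using hcon x y)
  set c := β x y with hcd
  have hyx : β y x = - c := by rw [neg y x]
  let φ : X →ₗ[F] F × F := (β x).prod (β y)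
  have φa : ∀ v, φ v = (β x v, β y v) := fun v => rfl
  have sec : ∀ s t : F, φ ((s / c) • y + (- t / c) • x) = (s, t) := by
    intro s t
    rw [φa]
    simp only [map_add, map_smul, smul_eq_mul, hβ, mul_zero, add_zero, zero_add, hyx, ← hcd]
    refine Prod.ext ?_ ?_
    · field_simp
    · field_simp
  have hsurj : LinearMap.range φ = ⊤ := by
    rw [LinearMap.range_eq_top]
    rintro ⟨s, t⟩
    exact ⟨_, sec s t⟩
  have hW := LinearMap.finrank_range_add_finrank_ker φ
  rw [hsurj, finrank_top, finrank_prod, finrank_self, hn] at hW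
  let γ : LinearMap.ker φ →ₗ[F] LinearMap.ker φ →ₗ[F] F :=
    β.domRestrict₁₂ (LinearMap.ker φ) (LinearMap.ker φ)
  have γa : ∀ v w : LinearMap.ker φ, γ v w = β v w := fun v w => rfl
  have hγ := ih (finrank F (LinearMap.ker φ)) (by omega) F (LinearMap.ker φ) γ
    (fun w => hβ w) rfl
  have hmem : ∀ v, v ∈ LinearMap.ker φ ↔ β x v = 0 ∧ β y v = 0 := by
    intro v
    rw [LinearMap.mem_ker, φa, Prod.mk_eq_zero]
  have hker : LinearMap.ker β = (LinearMap.ker γ).map (LinearMap.ker φ).subtype := by
    ext v
    rw [Submodule.mem_map]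
    constructor
    · intro hv
      rw [LinearMap.mem_ker] at hv
      have hvW : v ∈ LinearMap.ker φ := by
        rw [hmem, neg x v, neg y v, hv]
        simp
      refine ⟨⟨v, hvW⟩, ?_, rfl⟩
      rw [LinearMap.mem_ker]
      ext w
      rw [γa]
      simp [hv]
    · rintro ⟨⟨w, hw⟩, hw2, rfl⟩
      rw [LinearMap.mem_ker] at hw2 ⊢
      change β w = 0
      obtain ⟨w1, w2⟩ := (hmem w).1 hw
      ext u
      have hu : u - ((β x u / c) • y + (- β y u / c) • x) ∈ LinearMap.ker φ := by
        rw [LinearMap.mem_ker, map_sub, sec, φa, sub_self]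
      have h1 : β w (u - ((β x u / c) • y + (- β y u / c) • x)) = 0 := by
        have := LinearMap.congr_fun hw2 ⟨_, hu⟩
        rw [γa] at this
        exact this
      rw [map_sub, map_add, map_smul, map_smul, neg w y, neg w x, w1, w2] at h1
      simpa using h1
  have e1 := LinearMap.finrank_range_add_finrank_ker β
  have e2 := LinearMap.finrank_range_add_finrank_ker γ
  have e3 : finrank F (LinearMap.ker β) = finrank F (LinearMap.ker γ) := by
    rw [hker]
    exact Submodule.finrank_map_subtype_eq _ _
  have e4 : finrank F (LinearMap.range β) = finrank F (LinearMap.range γ) + 2 := by omega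
  rw [e4]
  exact hγ.add (by decide)

theorem h_EVEN : S_EVEN := fun F X _ _ _ _ β hβ => EVEN.key _ F X β hβ rfl

end Pool.Agent.H330.EvenQ
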