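import Pool.Agent.H330.EvenQ.Spec

/-!
# EXT: extension of the elements of `Sg` of a summand by the identity (helper264 for helper330)
-/

set_option autoImplicit false

namespace Pool.Agent.H330.EvenQ

open QuadraticMap Module

namespace EXT

variable {F V : Type} [Field F] [AddCommGroup V] [Module F V]

/-- extension by the identity -/
noncomputable def ext {W W' : Submodule F V} (h : IsCompl W W') : (W ≃ₗ[F] W) →* (V ≃ₗ[F] V) where
  toFun c := ((Submodule.prodEquivOfIsCompl W W' h).symm.trans
    (LinearEquiv.prodCongr c (LinearEquiv.refl F W'))).trans (Submodule.prodEquivOfIsCompl W W' h)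
  map_one' := by
    ext x
    change (Submodule.prodEquivOfIsCompl W W' h)
      (LinearEquiv.prodCongr (1 : W ≃ₗ[F] W) (LinearEquiv.refl F W')
        ((Submodule.prodEquivOfIsCompl W W' h).symm x)) = x
    have e : LinearEquiv.prodCongr (1 : W ≃ₗ[F] W) (LinearEquiv.refl F W')
        ((Submodule.prodEquivOfIsCompl W W' h).symm x) =
        (Submodule.prodEquivOfIsCompl W W' h).symm x := rfl
    rw [e, LinearEquiv.apply_symm_apply]
  map_mul' a b := by
    ext x
    change (Submodule.prodEquivOfIsCompl W W' h)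
      (LinearEquiv.prodCongr (a * b) (LinearEquiv.refl F W')
        ((Submodule.prodEquivOfIsCompl W W' h).symm x)) =
      (Submodule.prodEquivOfIsCompl W W' h) (LinearEquiv.prodCongr a (LinearEquiv.refl F W')
        ((Submodule.prodEquivOfIsCompl W W' h).symm
          ((Submodule.prodEquivOfIsCompl W W' h) (LinearEquiv.prodCongr b (LinearEquiv.refl F W')
            ((Submodule.prodEquivOfIsCompl W W' h).symm x)))))
    rw [LinearEquiv.symm_apply_apply]
    rfl

theorem ext_apply {W W' : Submodule F V} (h : IsCompl W W') (c : W ≃ₗ[F] W) (x : W) (y : W') :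
    ext h c ((x : V) + (y : V)) = (c x : V) + (y : V) := by
  change (Submodule.prodEquivOfIsCompl W W' h) (LinearEquiv.prodCongr c (LinearEquiv.refl F W')
        ((Submodule.prodEquivOfIsCompl W W' h).symm ((x : V) + (y : V)))) = _
  have e : (x : V) + (y : V) = Submodule.prodEquivOfIsCompl W W' h (x, y) := by
    rw [Submodule.coe_prodEquivOfIsCompl']
  rw [e, LinearEquiv.symm_apply_apply]
  change (Submodule.prodEquivOfIsCompl W W' h) (c x, y) = _
  rw [Submodule.coe_prodEquivOfIsCompl']

theorem exists_add {W W' : Submodule F V} (h : IsCompl W W') (z : V) :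
    ∃ (x : W) (y : W'), z = (x : V) + (y : V) := by
  obtain ⟨p, hp⟩ := (Submodule.prodEquivOfIsCompl W W' h).surjective z
  refine ⟨p.1, p.2, ?_⟩
  rw [← hp, Submodule.coe_prodEquivOfIsCompl']

variable {Q : QuadraticForm F V} {W W' : Submodule F V} (h : IsCompl W W')
  (ho : ∀ x ∈ W, ∀ y ∈ W', polar Q x y = 0)
include ho

theorem Q_add (x : W) (y : W') : Q ((x : V) + (y : V)) = Q x + Q y := by
  have h1 := ho x x.2 y y.2
  unfold polar at h1
  have h2 : Q ((x : V) + (y : V)) = (Q ((x : V) + (y : V)) - Q x - Q y) + (Q x + Q y) := by ring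
  rw [h2, h1, zero_add]

theorem ext_orth : (Orth (Q.comp W.subtype)).map (ext h) ≤ Orth Q := by
  rintro _ ⟨c, hc, rfl⟩ z
  obtain ⟨x, y, rfl⟩ := exists_add h z
  rw [ext_apply, Q_add ho, Q_add ho]
  have h1 : Q ((c x : W) : V) = Q (x : V) := hc x
  rw [h1]

theorem ext_om : (Om (Q.comp W.subtype)).map (ext h) ≤ Om Q := by
  unfold Om
  rw [Subgroup.map_commutator]
  exact Subgroup.commutator_mono (ext_orth h ho) (ext_orth h ho)

theorem ext_sg : (Sg (Q.comp W.subtype)).map (ext h) ≤ Sg Q := by
  unfold Sg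
  rw [Subgroup.map_sup]
  refine sup_le_sup (ext_om h ho) ?_
  rw [MonoidHom.map_closure]
  refine Subgroup.closure_mono ?_
  rintro _ ⟨g, ⟨a, b, ha, hab, hg⟩, rfl⟩
  refine ⟨(a : V), (b : V), ha, hab, ?_⟩
  intro z
  obtain ⟨x, y, rfl⟩ := exists_add h z
  have e : ∀ w : W, polar Q ((x : V) + (y : V)) (w : V) = polar Q (x : V) (w : V) := by
    intro w
    rw [polar_add_left]
    have h1 := ho w w.2 y y.2
    rw [polar_comm] at h1
    rw [h1, add_zero]
  rw [ext_apply, hg x]
  unfold sieg
  rw [e a, e b]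
  have h1 : ((x + polar (Q.comp W.subtype) x a • b + polar (Q.comp W.subtype) x b • a +
      ((Q.comp W.subtype) b * polar (Q.comp W.subtype) x a) • a : W) : V) =
      (x : V) + polar Q (x : V) (a : V) • (b : V) + polar Q (x : V) (b : V) • (a : V) +
      (Q (b : V) * polar Q (x : V) (a : V)) • (a : V) := rfl
  rw [h1]
  abel

end EXT

theorem h_EXT : S_EXT := by
  intro F V _ _ _ _ _ _ Q W W' h ho c hc
  refine ⟨EXT.ext h c, EXT.ext_sg h ho ⟨c, hc, rfl⟩, ?_, ?_⟩
  · intro x
    have := EXT.ext_apply h c x 0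
    simpa using this
  · intro y hy
    have := EXT.ext_apply h c 0 ⟨y, hy⟩
    simpa using this

end Pool.Agent.H330.EvenQ
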