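import Pool.Agent.H330.EvenQ.Spec

/-!
# FIX: a nontrivial element of `Ω` which is trivial on the perp of a 3-dimensional space (helper921)
-/

set_option autoImplicit false

namespace Pool.Agent.H330.EvenQ

open QuadraticMap Module

namespace FIX

section

variable {F V : Type} [Field F] [AddCommGroup V] [Module F V]

theorem exists_out [FiniteDimensional F V] {X : Submodule F V} (h : 3 ≤ finrank F X) (u v : V) :
    ∃ w ∈ X, w ∉ Submodule.span F {u, v} := by
  classical
  by_contra hcon
  push Not at hcon
  have h1 : X ≤ Submodule.span F {u, v} := fun w hw => hcon w hw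
  have h2 := Submodule.finrank_mono h1
  have h3 : finrank F (Submodule.span F (({u, v} : Finset V) : Set V)) ≤ ({u, v} : Finset V).card :=
    finrank_span_finset_le_card _
  rw [Finset.coe_insert, Finset.coe_singleton] at h3
  have h4 : ({u, v} : Finset V).card ≤ 2 := Finset.card_le_two
  omega

theorem exists_polar {Q : QuadraticForm F V} (hQ : Nondeg Q) {a : V} (ha : a ≠ 0) :
    ∃ v, polar Q v a ≠ 0 := by
  by_contra hcon
  push Not at hcon
  apply ha
  apply hQ
  intro y
  rw [polar_comm]
  exact hcon y

theorem refl_fix {Q : QuadraticForm F V} {y v : V} (h : polar Q v y = 0) : refl Q y v = v := by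
  unfold refl
  rw [h, mul_zero, zero_smul, add_zero]

end

end FIX

open FIX in
theorem h_FIX (hR : S_REFL) (hS : S_SIEG) : S_FIX := by
  intro F V _ _ _ _ _ _ Q hQ h5 X hX
  by_cases hA : ∃ x ∈ X, ∃ y ∈ X, Q x ≠ 0 ∧ Q y ≠ 0 ∧ y ∉ Submodule.span F {x}
  · obtain ⟨x, hx, y, hy, hx0, hy0, hxy⟩ := hA
    obtain ⟨g, hg, hgv⟩ := hR F V Q hQ x y hx0 hy0
    refine ⟨g, hg, ?_, ?_⟩
    · intro h1
      have hyne : y ≠ 0 := by
        rintro rfl
        exact hy0 (map_zero Q)
      obtain ⟨v, hv⟩ := exists_polar hQ hyne
      have h2 := hgv v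
      rw [h1] at h2
      have h3 : (1 : V ≃ₗ[F] V) v = v := rfl
      rw [h3] at h2
      unfold refl at h2
      obtain ⟨α, hα⟩ : ∃ α, α = (Q y)⁻¹ * polar Q v y := ⟨_, rfl⟩
      rw [← hα] at h2
      obtain ⟨β, hβ⟩ : ∃ β, β = (Q x)⁻¹ * polar Q (v + α • y) x := ⟨_, rfl⟩
      rw [← hβ] at h2
      have hα0 : α ≠ 0 := by
        rw [hα]
        exact mul_ne_zero (inv_ne_zero hy0) hv
      apply hxy
      rw [Submodule.mem_span_singleton]
      refine ⟨-(α⁻¹ * β), ?_⟩
      have h4 : α • y + β • x = 0 := by
        have : v + (α • y + β • x) = v := by rw [← add_assoc]; exact h2.symm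
        exact add_eq_left.1 this
      have h5 : α • (-(α⁻¹ * β) • x) = α • y := by
        rw [smul_smul, mul_neg, ← mul_assoc, mul_inv_cancel₀ hα0, one_mul, neg_smul]
        exact (eq_neg_of_add_eq_zero_left h4).symm
      exact smul_right_injective V hα0 h5
    · intro v hv
      rw [hgv, refl_fix (hv y hy), refl_fix (hv x hx)]
  · push Not at hA
    -- `X` is totally singular
    have hts : ∀ v ∈ X, Q v = 0 := by
      intro u hu
      by_contra hu0
      have key : ∀ v ∈ X, v ∉ Submodule.span F {u} → polar Q u v = Q u := by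
        intro v hv hvu
        have h1 : Q v = 0 := by
          by_contra h
          exact hvu (hA u hu v hv hu0 h)
        have h2 : Q (u + v) = 0 := by
          by_contra h
          have h3 := hA u hu (u + v) (X.add_mem hu hv) hu0 h
          apply hvu
          have h4 := Submodule.sub_mem _ h3 (Submodule.mem_span_singleton_self u)
          rwa [add_sub_cancel_left] at h4
        have h3 : polar Q u v = Q (u + v) - Q u - Q v := rfl
        rw [h3, h1, h2, sub_zero, zero_sub]
        exact CharTwo.neg_eq _
      obtain ⟨v, hv, hvu⟩ := exists_out hX u u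
      rw [Set.pair_eq_singleton] at hvu
      obtain ⟨w, hw, hwu⟩ := exists_out hX u v
      have hwu' : w ∉ Submodule.span F {u} := by
        intro h
        exact hwu (Submodule.span_mono (Set.singleton_subset_iff.2 (Set.mem_insert _ _)) h)
      have hvw : v + w ∉ Submodule.span F {u} := by
        intro h
        apply hwu
        have h1 : v + w ∈ Submodule.span F {u, v} :=
          Submodule.span_mono (Set.singleton_subset_iff.2 (Set.mem_insert _ _)) h
        have h2 : v ∈ Submodule.span F {u, v} :=
          Submodule.subset_span (Set.mem_insert_of_mem _ (Set.mem_singleton _))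
        have h3 := Submodule.sub_mem _ h1 h2
        rwa [add_sub_cancel_left] at h3
      have h1 := key v hv hvu
      have h2 := key w hw hwu'
      have h3 := key (v + w) (X.add_mem hv hw) hvw
      rw [QuadraticMap.polar_add_right, h1, h2, CharTwo.add_self_eq_zero] at h3
      exact hu0 h3.symm
    obtain ⟨a, ha, ha0⟩ := exists_out hX 0 0
    have hane : a ≠ 0 := by
      rintro rfl
      exact ha0 (Submodule.zero_mem _)
    obtain ⟨b, hb, hba⟩ := exists_out hX a a
    rw [Set.pair_eq_singleton] at hba
    have hab : polar Q a b = 0 := by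
      have h3 : polar Q a b = Q (a + b) - Q a - Q b := rfl
      rw [h3, hts _ (X.add_mem ha hb), hts a ha, hts b hb, sub_zero, sub_zero]
    obtain ⟨g, -, -, hgv, hgO⟩ := hS F V Q hQ a b (hts a ha) hab
    refine ⟨g, hgO h5, ?_, ?_⟩
    · intro h1
      obtain ⟨v, hv⟩ := exists_polar hQ hane
      have h2 := hgv v
      rw [h1] at h2
      have h3 : (1 : V ≃ₗ[F] V) v = v := rfl
      rw [h3] at h2
      unfold sieg at h2
      obtain ⟨α, hα⟩ : ∃ α, α = polar Q v a := ⟨_, rfl⟩
      obtain ⟨β, hβ⟩ : ∃ β, β = polar Q v b := ⟨_, rfl⟩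
      rw [← hα] at h2 hv
      rw [← hβ] at h2
      apply hba
      rw [Submodule.mem_span_singleton]
      refine ⟨-(α⁻¹ * (β + Q b * α)), ?_⟩
      have h4 : α • b + (β + Q b * α) • a = 0 := by
        have : v + (α • b + (β + Q b * α) • a) = v := by
          rw [add_smul, ← add_assoc, ← add_assoc]
          exact h2.symm
        exact add_eq_left.1 this
      have h5 : α • (-(α⁻¹ * (β + Q b * α)) • a) = α • b := by
        rw [smul_smul, mul_neg, ← mul_assoc, mul_inv_cancel₀ hv, one_mul, neg_smul]
        exact (eq_neg_of_add_eq_zero_left h4).symm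
      exact smul_right_injective V hv h5
    · intro v hv
      rw [hgv]
      unfold sieg
      rw [hv a ha, hv b hb, zero_smul, zero_smul, mul_zero, zero_smul, add_zero, add_zero, add_zero]

end Pool.Agent.H330.EvenQ
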