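import Pool.Agent.H330.EvenQ.Spec

namespace Pool.Agent.H330.EvenQ

open QuadraticMap Module

variable {F V : Type} [Field F] [AddCommGroup V] [Module F V]

theorem Om_le (Q : QuadraticForm F V) : Om Q ≤ Orth Q := by
  unfold Om
  rw [Subgroup.commutator_le]
  intro a ha b hb
  rw [commutatorElement_def]
  exact Subgroup.mul_mem _ (Subgroup.mul_mem _ (Subgroup.mul_mem _ ha hb)
    (Subgroup.inv_mem _ ha)) (Subgroup.inv_mem _ hb)

/-- the property of `G = Om Q` used for the domination number -/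
theorem subgroups (hT : S_TOP) (F V : Type) [Field F] [Finite F] [CharP F 2] [AddCommGroup V]
    [Module F V] [FiniteDimensional F V] (Q : QuadraticForm F V) (hQ : Nondeg Q) (m : ℕ)
    (hm : 4 ≤ m) (he : Even m) (hV : finrank F V = 2 * m) (s : Om Q) :
    ∃ H : Subgroup (Om Q), s ∈ H ∧ H ≠ ⊤ ∧
      ∀ g : Om Q, ∃ c : Om Q, c ≠ 1 ∧ c ∈ H ∧ g⁻¹ * c * g ∈ H := by
  obtain ⟨H, hs, hn, hc⟩ := hT F V Q hQ m hm he hV (s : V ≃ₗ[F] V) (Om_le Q s.2)
  refine ⟨H.subgroupOf (Om Q), ?_, ?_, ?_⟩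
  · rw [Subgroup.mem_subgroupOf]; exact hs
  · intro h
    apply hn
    rw [Subgroup.subgroupOf_eq_top] at h
    exact h
  · intro g
    obtain ⟨c, h1, h2, h3, h4⟩ := hc (g : V ≃ₗ[F] V) (Om_le Q g.2)
    refine ⟨⟨c, h1⟩, ?_, ?_, ?_⟩
    · intro h
      exact h2 (congrArg Subtype.val h)
    · rw [Subgroup.mem_subgroupOf]; exact h3
    · rw [Subgroup.mem_subgroupOf]; exact h4

/-- the main theorem -/
theorem final (hT : S_TOP) (hD : S_DOM) (F V : Type) [Field F] [Finite F] [CharP F 2]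
    [AddCommGroup V] [Module F V] [FiniteDimensional F V] (m : ℕ) (hm : 4 ≤ m) (he : Even m)
    (hV : finrank F V = 2 * m) (Q : QuadraticForm F V) (hQ : Nondeg Q) :
    3 ≤ gammaU (Om Q) ∧
      ∀ s : Om Q, ∃ H : Subgroup (Om Q), s ∈ H ∧ H ≠ ⊤ ∧
        ∀ g : Om Q, H ⊓ H.map (MulAut.conj g).toMonoidHom ≠ ⊥ := by
  refine ⟨hD _ (subgroups hT F V Q hQ m hm he hV), fun s => ?_⟩
  obtain ⟨H, hs, hn, hc⟩ := subgroups hT F V Q hQ m hm he hV s
  refine ⟨H, hs, hn, fun g h => ?_⟩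
  obtain ⟨c, h1, h2, h3⟩ := hc g
  apply h1
  have : c ∈ H ⊓ H.map (MulAut.conj g).toMonoidHom := by
    refine ⟨h2, g⁻¹ * c * g, h3, ?_⟩
    simp [MulAut.conj_apply, mul_assoc]
  rw [h] at this
  exact this

end Pool.Agent.H330.EvenQ
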