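import Pool.Agent.H330.EvenQ.Spec


namespace Pool.Agent.H330.EvenQ

open QuadraticMap Module Polynomial

namespace GLOB

variable {F V : Type} [Field F] [AddCommGroup V] [Module F V]

/-- an operator commuting with `Z` commutes with the polynomials in `Z` -/
lemma comm_aeval (Z J : V →ₗ[F] V) (h : ∀ x, Z (J x) = J (Z x)) (f : F[X]) (x : V) :
    aeval Z f (J x) = J (aeval Z f x) := by
  have hc : Commute Z J := by
    ext x
    exact h x
  have h2 : Commute (aeval Z f) J := by
    induction f using Polynomial.induction_on' with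
    | add p q hp hq =>
      rw [map_add]
      exact hp.add_left hq
    | monomial n a =>
      rw [aeval_monomial]
      exact (Algebra.commute_algebraMap_left a J).mul_left (hc.pow_left n)
  exact LinearMap.congr_fun h2 x

/-- polynomials in a restriction -/
lemma aeval_res (Z : V →ₗ[F] V) (W : Submodule F V) (Z' : W →ₗ[F] W)
    (h : ∀ x : W, (Z' x : V) = Z x) (f : F[X]) (x : W) :
    (aeval Z' f x : V) = aeval Z f (x : V) := by
  induction f using Polynomial.induction_on' with
  | add p q hp hq =>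
    rw [map_add, map_add, LinearMap.add_apply, LinearMap.add_apply, Submodule.coe_add, hp, hq]
  | monomial n a =>
    have hn : ∀ n : ℕ, ∀ x : W, ((Z' ^ n) x : V) = (Z ^ n) (x : V) := by
      intro n
      induction n with
      | zero => intro x; rfl
      | succ n ih =>
        intro x
        rw [pow_succ, pow_succ, Module.End.mul_apply, Module.End.mul_apply, ih, h]
    rw [aeval_monomial, aeval_monomial, Module.End.mul_apply, Module.End.mul_apply,
      Module.algebraMap_end_apply, Module.algebraMap_end_apply, Submodule.coe_smul, hn]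

lemma polar_res (Q : QuadraticForm F V) (W : Submodule F V) (x y : W) :
    polar (Q.comp W.subtype) x y = polar Q (x : V) (y : V) := rfl

lemma isJ_res {Q : QuadraticForm F V} {ν : F} {J : V →ₗ[F] V} (h : IsJ Q ν J)
    (W : Submodule F V) (hJ : ∀ x ∈ W, J x ∈ W) : IsJ (Q.comp W.subtype) ν (J.restrict hJ) where
  sq x := Subtype.ext (h.sq x)
  adj x y := h.adj x y
  alt x := h.alt x

lemma ZZ_res (J J' : V →ₗ[F] V) (W : Submodule F V) (hJ : ∀ x ∈ W, J x ∈ W)
    (hJ' : ∀ x ∈ W, J' x ∈ W) (x : W) :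
    (ZZ (J.restrict hJ) (J'.restrict hJ') x : V) = ZZ J J' (x : V) := rfl

lemma nondeg_res {Q : QuadraticForm F V} (h : Nondeg Q) {W W' : Submodule F V}
    (hc : IsCompl W W') (ho : ∀ x ∈ W, ∀ y ∈ W', polar Q x y = 0) :
    Nondeg (Q.comp W.subtype) := by
  intro x hx
  apply Subtype.ext
  apply h
  intro y
  have hy : y ∈ W ⊔ W' := by rw [hc.sup_eq_top]; trivial
  obtain ⟨a, ha, b, hb, rfl⟩ := Submodule.mem_sup.1 hy
  rw [QuadraticMap.polar_add_right, ho x x.2 b hb, add_zero]
  exact hx ⟨a, ha⟩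

lemma factor [FiniteDimensional F V] [Nontrivial V] (Z : V →ₗ[F] V) :
    ∃ p : F[X], Irreducible p ∧ ∃ v : V, v ≠ 0 ∧ aeval Z p v = 0 := by
  have hint : IsIntegral F Z := Algebra.IsIntegral.isIntegral Z
  have h0 : minpoly F Z ≠ 0 := minpoly.ne_zero hint
  obtain ⟨p, hp, r, hr⟩ := WfDvdMonoid.exists_irreducible_factor (minpoly.not_isUnit F Z) h0
  refine ⟨p, hp, ?_⟩
  have hr0 : r ≠ 0 := by
    rintro rfl
    rw [mul_zero] at hr
    exact h0 hr
  have hne : aeval Z r ≠ 0 := by
    intro h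
    have h1 := Polynomial.natDegree_le_natDegree (minpoly.degree_le_of_ne_zero F Z hr0 h)
    rw [hr, Polynomial.natDegree_mul hp.ne_zero hr0] at h1
    have := hp.natDegree_pos
    omega
  obtain ⟨v, hv⟩ : ∃ v, aeval Z r v ≠ 0 := by
    by_contra hall
    push Not at hall
    exact hne (LinearMap.ext hall)
  refine ⟨aeval Z r v, hv, ?_⟩
  rw [← Module.End.mul_apply, ← map_mul, ← hr, minpoly.aeval]
  rfl

end GLOB

open GLOB in
theorem h_GLOB (hA : S_ALG) (hP : S_PRIM) (hC : S_COMB) : S_GLOB := by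
  intro F V _ _ _ _ _ _ Q hQ ν J J' hJ hJ'
  obtain ⟨n, hn⟩ : ∃ n, finrank F V = n := ⟨_, rfl⟩
  induction n using Nat.strong_induction_on generalizing V with
  | _ n ih =>
    rcases subsingleton_or_nontrivial V with hsub | hnt
    · refine Or.inr (Or.inl ⟨⊥, ?_, ?_, ?_⟩)
      · intro x hx
        rw [Submodule.mem_bot] at hx ⊢
        rw [hx, map_zero]
      · intro x hx
        rw [Submodule.mem_bot] at hx
        rw [hx, QuadraticMap.map_zero]
      · rw [finrank_bot, finrank_zero_of_subsingleton]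
    obtain ⟨-, hZJ, hZJ', -, -, -, -, -, hadj, -⟩ := hA F V Q ν J J' hJ hJ'
    obtain ⟨p, hp, v, hv0, hv⟩ := factor (ZZ J J')
    obtain ⟨N, hN1, hN⟩ : ∃ N, 1 ≤ N ∧ IsCompl (LinearMap.ker (aeval (ZZ J J') p ^ N))
        (LinearMap.range (aeval (ZZ J J') p ^ N)) := by
      have h := (LinearMap.eventually_isCompl_ker_pow_range_pow
        (aeval (ZZ J J') p)).and (Filter.eventually_ge_atTop 1)
      obtain ⟨N, hN⟩ := h.exists
      exact ⟨N, hN.2, hN.1⟩
    obtain ⟨g, hg⟩ : ∃ g, g = aeval (ZZ J J') p ^ N := ⟨_, rfl⟩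
    have hgp : g = aeval (ZZ J J') (p ^ N) := by rw [hg, map_pow]
    rw [← hg] at hN
    obtain ⟨W, hW⟩ : ∃ W, W = LinearMap.ker g := ⟨_, rfl⟩
    obtain ⟨W', hW'⟩ : ∃ W', W' = LinearMap.range g := ⟨_, rfl⟩
    rw [← hW, ← hW'] at hN
    have horth : ∀ x ∈ W, ∀ y ∈ W', polar Q x y = 0 := by
      intro x hx y hy
      rw [hW, LinearMap.mem_ker] at hx
      rw [hW'] at hy
      obtain ⟨z, rfl⟩ := hy
      rw [hgp, ← hadj, ← hgp, hx, QuadraticMap.polar_zero_left]
    have horth' : ∀ x ∈ W', ∀ y ∈ W, polar Q x y = 0 := by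
      intro x hx y hy
      rw [QuadraticMap.polar_comm]
      exact horth y hy x hx
    have hgJ : ∀ x, g (J x) = J (g x) := fun x => by
      rw [hgp]
      exact comm_aeval _ _ hZJ _ x
    have hgJ' : ∀ x, g (J' x) = J' (g x) := fun x => by
      rw [hgp]
      exact comm_aeval _ _ hZJ' _ x
    have iJ : ∀ x ∈ W, J x ∈ W := by
      intro x hx
      rw [hW, LinearMap.mem_ker] at hx ⊢
      rw [hgJ, hx, map_zero]
    have iJ' : ∀ x ∈ W, J' x ∈ W := by
      intro x hx
      rw [hW, LinearMap.mem_ker] at hx ⊢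
      rw [hgJ', hx, map_zero]
    have kJ : ∀ x ∈ W', J x ∈ W' := by
      intro x hx
      rw [hW'] at hx ⊢
      obtain ⟨z, rfl⟩ := hx
      exact ⟨J z, hgJ z⟩
    have kJ' : ∀ x ∈ W', J' x ∈ W' := by
      intro x hx
      rw [hW'] at hx ⊢
      obtain ⟨z, rfl⟩ := hx
      exact ⟨J' z, hgJ' z⟩
    have hvW : v ∈ W := by
      rw [hW, LinearMap.mem_ker, hg]
      obtain ⟨M, rfl⟩ : ∃ M, N = M + 1 := ⟨N - 1, by omega⟩
      rw [pow_succ, Module.End.mul_apply, hv, map_zero]
    have hntW : Nontrivial W := ⟨⟨⟨v, hvW⟩, 0, fun h => hv0 (congrArg Subtype.val h)⟩⟩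
    have hfr : finrank F W + finrank F W' = finrank F V :=
      Submodule.finrank_add_eq_of_isCompl hN
    have hpos : 0 < finrank F W := finrank_pos
    refine hC F V Q hQ ν J J' hJ hJ' W W' hN horth iJ iJ' kJ kJ' ?_ ?_
    · refine hP F W (Q.comp W.subtype) (nondeg_res hQ hN horth) hntW ν _ _ (isJ_res hJ W iJ)
        (isJ_res hJ' W iJ') p N hp ?_
      rw [← map_pow]
      ext x
      rw [aeval_res (ZZ J J') W _ (ZZ_res J J' W iJ iJ'), ← hgp]
      have hx : ∀ y ∈ W, g y = 0 := by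
        intro y hy
        rw [hW] at hy
        exact hy
      rw [hx x x.2]
      rfl
    · exact ih (finrank F W') (by omega) W' (Q.comp W'.subtype) (nondeg_res hQ hN.symm horth')
        (J.restrict kJ) (J'.restrict kJ') (isJ_res hJ W' kJ) (isJ_res hJ' W' kJ') rfl

end Pool.Agent.H330.EvenQ
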