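import Pool.Agent.H330.EvenQ.Spec

/-!
# EvenQ (helper330): an irreducible isometry generates a field (helper350)
-/

namespace Pool.Agent.H330.EvenQ

open QuadraticMap Module Polynomial

namespace IRR

section base

variable {F V : Type} [Field F] [AddCommGroup V] [Module F V]

/-- the ideal of the polynomials `f` with `f(s) w = 0` -/
noncomputable def annI (s : V →ₗ[F] V) (w : V) : Ideal F[X] where
  carrier := {f | aeval s f w = 0}
  add_mem' := by
    intro f g hf hg
    change aeval s (f + g) w = 0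
    change aeval s f w = 0 at hf
    change aeval s g w = 0 at hg
    rw [map_add, LinearMap.add_apply]
    rw [hf, hg, add_zero]
  zero_mem' := by simp
  smul_mem' := by
    intro c f hf
    change aeval s (c * f) w = 0
    change aeval s f w = 0 at hf
    rw [map_mul, Module.End.mul_apply]
    rw [hf, map_zero]

lemma mem_annI {s : V →ₗ[F] V} {w : V} {f : F[X]} : f ∈ annI s w ↔ aeval s f w = 0 := Iff.rfl

/-- `f ↦ f(s) w` -/
noncomputable def evm (s : V →ₗ[F] V) (w : V) : F[X] →ₗ[F] V :=
  (LinearMap.applyₗ w) ∘ₗ (aeval s).toLinearMap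

lemma evm_apply (s : V →ₗ[F] V) (w : V) (f : F[X]) : evm s w f = aeval s f w := rfl

lemma cyc {s : V →ₗ[F] V} (hirr : ∀ U : Submodule F V, (∀ x ∈ U, s x ∈ U) → U = ⊥ ∨ U = ⊤)
    {v : V} (hv : v ≠ 0) (x : V) : ∃ f : F[X], aeval s f v = x := by
  have h1 : ∀ y ∈ LinearMap.range (evm s v), s y ∈ LinearMap.range (evm s v) := by
    rintro y ⟨f, rfl⟩
    refine ⟨X * f, ?_⟩
    rw [evm_apply, evm_apply, map_mul, aeval_X, Module.End.mul_apply]
  have h2 : v ∈ LinearMap.range (evm s v) := ⟨1, by rw [evm_apply, map_one]; rfl⟩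
  rcases hirr _ h1 with h | h
  · rw [h, Submodule.mem_bot] at h2
    exact absurd h2 hv
  · have h3 : x ∈ LinearMap.range (evm s v) := by rw [h]; trivial
    obtain ⟨f, hf⟩ := h3
    exact ⟨f, hf⟩

lemma annI_max {s : V →ₗ[F] V} (hirr : ∀ U : Submodule F V, (∀ x ∈ U, s x ∈ U) → U = ⊥ ∨ U = ⊤)
    {w : V} (hw : w ≠ 0) : (annI s w).IsMaximal := by
  rw [Ideal.isMaximal_iff]
  refine ⟨?_, ?_⟩
  · rw [mem_annI, map_one]
    exact hw
  · intro J f hIJ hf hfJ
    rw [mem_annI] at hf
    obtain ⟨g, hg⟩ := cyc hirr hf w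
    have h1 : g * f - 1 ∈ annI s w := by
      rw [mem_annI, map_sub, map_mul, map_one, LinearMap.sub_apply, Module.End.mul_apply, hg]
      exact sub_self _
    have h2 := J.sub_mem (J.mul_mem_left g hfJ) (hIJ h1)
    rwa [sub_sub_cancel] at h2

lemma exists_field (s : V →ₗ[F] V) [Nontrivial V]
    (hirr : ∀ U : Submodule F V, (∀ x ∈ U, s x ∈ U) → U = ⊥ ∨ U = ⊤) :
    ∃ (K : Type) (_ : Field K) (_ : Algebra F K) (e : V ≃ₗ[F] K) (t : K),
      (∀ x, e (s x) = t * e x) ∧ (∀ a : K, ∃ f : F[X], aeval t f = a) := by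
  obtain ⟨w, hw⟩ := exists_ne (0 : V)
  have hmax := annI_max hirr hw
  have hsurj : Function.Surjective (evm s w) := fun x => cyc hirr hw x
  have hker : LinearMap.ker (evm s w) = (annI s w).restrictScalars F := rfl
  let K := F[X] ⧸ annI s w
  let e : V ≃ₗ[F] K := ((evm s w).quotKerEquivOfSurjective hsurj).symm.trans
    ((Submodule.quotEquivOfEq _ _ hker).trans (Submodule.Quotient.restrictScalarsEquiv F _))
  have he : ∀ f : F[X], e (aeval s f w) = Ideal.Quotient.mk (annI s w) f := by
    intro f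
    have h1 : ((evm s w).quotKerEquivOfSurjective hsurj).symm (aeval s f w) =
        Submodule.Quotient.mk f := by
      rw [LinearEquiv.symm_apply_eq]
      rfl
    change (Submodule.Quotient.restrictScalarsEquiv F _) ((Submodule.quotEquivOfEq _ _ hker)
      (((evm s w).quotKerEquivOfSurjective hsurj).symm (aeval s f w))) = _
    rw [h1]
    rfl
  refine ⟨K, Ideal.Quotient.field _, inferInstanceAs (Algebra F (F[X] ⧸ annI s w)), e,
    Ideal.Quotient.mk _ X, ?_, ?_⟩
  · intro x
    obtain ⟨f, rfl⟩ := cyc hirr hw x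
    have h2 : s (aeval s f w) = aeval s (X * f) w := by
      rw [map_mul, aeval_X, Module.End.mul_apply]
    rw [h2]
    have h3 := he (X * f)
    have h4 := he f
    rw [h3, h4, map_mul]
  · intro a
    obtain ⟨f, rfl⟩ := Ideal.Quotient.mk_surjective a
    refine ⟨f, ?_⟩
    have h5 := Polynomial.aeval_algHom_apply (Ideal.Quotient.mkₐ F (annI s w)) (X : F[X]) f
    rw [aeval_X_left_apply] at h5
    exact h5

end base

section fld

variable {F K : Type} [Field F] [Field K] [Algebra F K]

lemma polar_mul_t (Q : QuadraticForm F K) {t : K} (ht : t ≠ 0) (hQ : ∀ x, Q (t * x) = Q x)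
    (x y : K) : polar Q (t * x) y = polar Q x (t⁻¹ * y) := by
  have h1 : y = t * (t⁻¹ * y) := by rw [mul_inv_cancel_left₀ ht]
  conv_lhs => rw [h1]
  unfold QuadraticMap.polar
  rw [← mul_add, hQ, hQ, hQ]

lemma polar_mul_pow (Q : QuadraticForm F K) {t : K} (ht : t ≠ 0) (hQ : ∀ x, Q (t * x) = Q x)
    (n : ℕ) : ∀ x y : K, polar Q (t ^ n * x) y = polar Q x (t⁻¹ ^ n * y) := by
  induction n with
  | zero => intro x y; simp
  | succ n ih =>
    intro x y
    rw [pow_succ, mul_assoc, ih, polar_mul_t Q ht hQ, pow_succ', mul_assoc]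

lemma adj_poly (Q : QuadraticForm F K) {t : K} (ht : t ≠ 0) (hQ : ∀ x, Q (t * x) = Q x)
    (f : F[X]) (x y : K) : polar Q (aeval t f * x) y = polar Q x (aeval t⁻¹ f * y) := by
  induction f using Polynomial.induction_on' with
  | add f g hf hg =>
    rw [map_add, map_add, add_mul, add_mul, polar_add_left, polar_add_right, hf, hg]
  | monomial n a =>
    rw [aeval_monomial, aeval_monomial, mul_assoc, mul_assoc, ← Algebra.smul_def,
      ← Algebra.smul_def, polar_smul_left, polar_smul_right, polar_mul_pow Q ht hQ]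

variable [Finite F] [Finite K]

/-- the adjoint of the multiplication with `a` is the multiplication with `a ^ (q ^ n)` -/
lemma exists_n (Q : QuadraticForm F K) {t : K} (ht : t ≠ 0) (hQ : ∀ x, Q (t * x) = Q x)
    (hnd : ∀ x, (∀ y, polar Q x y = 0) → x = 0) (hgen : ∀ a : K, ∃ f : F[X], aeval t f = a) :
    ∃ n : ℕ, (n = 0 ∨ 2 * n = finrank F K) ∧ t ^ (Nat.card F ^ n) = t⁻¹ ∧
      ∀ a x y : K, polar Q (a * x) y = polar Q x (a ^ (Nat.card F ^ n) * y) := by
  have hmin : aeval t⁻¹ (minpoly F t) = 0 := by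
    have h1 : ∀ x : K, polar Q (aeval t⁻¹ (minpoly F t)) x = 0 := by
      intro x
      have h2 := adj_poly Q ht hQ (minpoly F t) x 1
      rw [minpoly.aeval, zero_mul, polar_zero_left, mul_one, polar_comm] at h2
      exact h2.symm
    exact hnd _ h1
  have : Fintype F := Fintype.ofFinite F
  obtain ⟨σ, hσ⟩ := minpoly.exists_algEquiv_of_root' (x := t⁻¹) (y := t)
    (Algebra.IsAlgebraic.isAlgebraic t) hmin
  obtain ⟨⟨n, hn⟩, hσn⟩ := (FiniteField.bijective_frobeniusAlgEquivOfAlgebraic_pow F K).2 σ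
  simp only at hσn
  have hval : ∀ (m : ℕ) (a : K), (FiniteField.frobeniusAlgEquivOfAlgebraic F K ^ m) a =
      a ^ (Nat.card F ^ m) := by
    intro m
    induction m with
    | zero => intro a; simp
    | succ m ih =>
      intro a
      rw [pow_succ, AlgEquiv.mul_apply, ih, FiniteField.coe_frobeniusAlgEquivOfAlgebraic]
      simp only
      rw [← pow_mul, Nat.card_eq_fintype_card, pow_succ']
  have hσa : ∀ a : K, σ a = a ^ (Nat.card F ^ n) := by
    intro a
    rw [← hσn, hval]
  have hσf : ∀ f : F[X], σ (aeval t f) = aeval t⁻¹ f := by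
    intro f
    rw [← hσ]
    exact (Polynomial.aeval_algHom_apply (σ : K →ₐ[F] K) t f).symm
  have hσ2 : σ * σ = 1 := by
    ext a
    obtain ⟨f, rfl⟩ := hgen a
    rw [AlgEquiv.mul_apply, hσf]
    have h3 : σ (aeval t⁻¹ f) = aeval (σ t⁻¹) f :=
      (Polynomial.aeval_algHom_apply (σ : K →ₐ[F] K) t⁻¹ f).symm
    rw [h3, map_inv₀, hσ, inv_inv]
    rfl
  refine ⟨n, ?_, ?_, ?_⟩
  · rw [← hσn, ← pow_add] at hσ2
    have h4 := orderOf_dvd_of_pow_eq_one hσ2
    rw [FiniteField.orderOf_frobeniusAlgEquivOfAlgebraic] at h4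
    obtain ⟨c, hc⟩ := h4
    rcases Nat.eq_zero_or_pos n with h0 | h0
    · exact Or.inl h0
    · right
      have h5 : c < 2 := by
        by_contra h6
        have : finrank F K * 2 ≤ finrank F K * c := Nat.mul_le_mul_left _ (by omega)
        omega
      have h6 : c ≠ 0 := by
        rintro rfl
        omega
      have h7 : c = 1 := by omega
      subst h7
      omega
  · rw [← hσa, hσ]
  · intro a x y
    obtain ⟨f, rfl⟩ := hgen a
    rw [adj_poly Q ht hQ, ← hσa, hσf]

end fld


section J0

variable {F K : Type} [Field F] [Field K] [Algebra F K] [Finite F] [Finite K]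

omit [Finite K] in
lemma sum_even (m : ℕ) (f : ℕ → K) : ∑ i ∈ Finset.range (2 * m), f i =
    ∑ j ∈ Finset.range m, f (2 * j) + ∑ j ∈ Finset.range m, f (2 * j + 1) := by
  induction m with
  | zero => simp
  | succ m ih =>
    rw [show 2 * (m + 1) = 2 * m + 1 + 1 by ring, Finset.sum_range_succ, Finset.sum_range_succ, ih,
      Finset.sum_range_succ, Finset.sum_range_succ]
    ring

omit [Finite F] in
lemma frob_pow [Fintype F] (m : ℕ) (a : K) :
    (FiniteField.frobeniusAlgEquivOfAlgebraic F K ^ m) a = a ^ (Fintype.card F ^ m) := by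
  induction m generalizing a with
  | zero => simp
  | succ m ih =>
    rw [pow_succ, AlgEquiv.mul_apply, ih, FiniteField.coe_frobeniusAlgEquivOfAlgebraic]
    simp only
    rw [← pow_mul, pow_succ']

lemma exists_J0 {m : ℕ} (hm : finrank F K = 2 * m) :
    ∃ j : K, j + j ^ Nat.card F = 1 := by
  have : Fintype F := Fintype.ofFinite F
  obtain ⟨y, hy⟩ := Algebra.trace_surjective F K 1
  have h1 := trace_eq_sum_automorphisms (K := F) (L := K) y
  rw [hy, map_one] at h1
  have h2 : ∑ σ : Gal(K/F), σ y = ∑ i ∈ Finset.range (2 * m), y ^ (Fintype.card F ^ i) := by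
    rw [← (Equiv.ofBijective _ (FiniteField.bijective_frobeniusAlgEquivOfAlgebraic_pow F K)).sum_comp
      (fun σ : Gal(K/F) => σ y), ← hm, Finset.sum_range]
    refine Finset.sum_congr rfl fun i _ => ?_
    exact frob_pow (i : ℕ) y
  rw [h2, sum_even m (fun i => y ^ (Fintype.card F ^ i))] at h1
  refine ⟨∑ j ∈ Finset.range m, y ^ (Fintype.card F ^ (2 * j)), ?_⟩
  have h3 : (∑ j ∈ Finset.range m, y ^ (Fintype.card F ^ (2 * j))) ^ Nat.card F =
      ∑ j ∈ Finset.range m, y ^ (Fintype.card F ^ (2 * j + 1)) := by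
    have h4 := map_sum (FiniteField.frobeniusAlgHom F K)
      (fun j => y ^ (Fintype.card F ^ (2 * j))) (Finset.range m)
    rw [FiniteField.coe_frobeniusAlgHom] at h4
    simp only at h4
    rw [Nat.card_eq_fintype_card, h4]
    refine Finset.sum_congr rfl fun j _ => ?_
    rw [← pow_mul, ← pow_succ]
  rw [h3]
  exact h1.symm

lemma mem_base (x : K) (hx : x ^ Nat.card F = x) : ∃ c : F, algebraMap F K c = x := by
  have : Fintype F := Fintype.ofFinite F
  have h1 : x ∈ Set.range (algebraMap F K) := by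
    rw [IsGalois.mem_range_algebraMap_iff_fixed]
    intro σ
    obtain ⟨⟨n, hn⟩, hσn⟩ := (FiniteField.bijective_frobeniusAlgEquivOfAlgebraic_pow F K).2 σ
    simp only at hσn
    rw [← hσn, frob_pow]
    clear hσn hn
    induction n with
    | zero => simp
    | succ n ih => rw [pow_succ, pow_mul, ih, ← Nat.card_eq_fintype_card, hx]
  exact h1

end J0

end IRR

theorem h_IRR : S_IRR := by
  intro F V _ _ _ _ _ _ Q hnd m hm hme hV s hs hirr
  have hnt : Nontrivial V := Module.nontrivial_of_finrank_pos (R := F) (by rw [hV]; omega)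
  obtain ⟨K, _, _, e, t, het, hgen⟩ := IRR.exists_field (s : V →ₗ[F] V) hirr
  have hfinV : Finite V := Module.finite_of_finite F
  have hfinK : Finite K := Finite.of_equiv V e.toEquiv
  have hch : CharP K 2 := charP_of_injective_algebraMap' F 2
  have het' : ∀ x, e (s x) = t * e x := het
  set Q' : QuadraticForm F K := Q.comp (e.symm : K →ₗ[F] V) with hQ'
  have hQ'a : ∀ x, Q' x = Q (e.symm x) := fun x => rfl
  have hpol : ∀ x y, polar Q' x y = polar Q (e.symm x) (e.symm y) := by
    intro x y
    unfold QuadraticMap.polar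
    rw [hQ'a, hQ'a, hQ'a, map_add]
  have hpol' : ∀ x y, polar Q x y = polar Q' (e x) (e y) := by
    intro x y
    rw [hpol, e.symm_apply_apply, e.symm_apply_apply]
  have hsym : ∀ x, e.symm (t * x) = s (e.symm x) := by
    intro x
    rw [LinearEquiv.symm_apply_eq, het', e.apply_symm_apply]
  have hQt : ∀ x, Q' (t * x) = Q' x := by
    intro x
    rw [hQ'a, hsym, hQ'a]
    exact hs _
  have ht : t ≠ 0 := by
    rintro rfl
    obtain ⟨v, hv⟩ := exists_ne (0 : V)
    have h1 := het' (s.symm v)
    rw [zero_mul, s.apply_symm_apply] at h1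
    exact hv (e.map_eq_zero_iff.1 h1)
  have hnd' : ∀ x, (∀ y, polar Q' x y = 0) → x = 0 := by
    intro x hx
    have h1 : e.symm x = 0 := by
      refine hnd _ fun y => ?_
      have := hx (e y)
      rwa [hpol, e.symm_apply_apply] at this
    exact e.symm.map_eq_zero_iff.1 h1
  have hfr : finrank F K = 2 * m := by rw [← e.finrank_eq, hV]
  obtain ⟨n, hn, -, hadj⟩ := IRR.exists_n Q' ht hQt hnd' hgen
  obtain ⟨j, hj⟩ := IRR.exists_J0 hfr
  set q := Nat.card F with hq
  have h20 : (2 : K) = 0 := CharTwo.two_eq_zero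
  have hj1 : j ^ q = j + 1 := by linear_combination hj - j * h20
  have hqadd : ∀ a b : K, (a + b) ^ q = a ^ q + b ^ q := by
    intro a b
    have : Fintype F := Fintype.ofFinite F
    have h1 := map_add (FiniteField.frobeniusAlgHom F K) a b
    rw [FiniteField.coe_frobeniusAlgHom] at h1
    simp only at h1
    rw [hq, Nat.card_eq_fintype_card]
    exact h1
  have hj2 : (j ^ q) ^ q = j := by
    rw [hj1, hqadd, hj1, one_pow]
    linear_combination h20
  have hje : ∀ i : ℕ, j ^ (q ^ (2 * i)) = j := by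
    intro i
    induction i with
    | zero => simp
    | succ i ih =>
      rw [show 2 * (i + 1) = 2 * i + 1 + 1 by ring, pow_succ, pow_succ, pow_mul, pow_mul, ih, hj2]
  have hjn : j ^ (q ^ n) = j := by
    rcases hn with h | h
    · rw [h, pow_zero, pow_one]
    · obtain ⟨i, hi⟩ := hme
      have : n = 2 * i := by omega
      rw [this, hje]
  obtain ⟨ν, hν⟩ := IRR.mem_base (F := F) (K := K) (j * j + j) (by
    change (j * j + j) ^ q = j * j + j
    rw [hqadd, mul_pow, hj1]
    linear_combination (j + 1) * h20)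
  let Jl : V →ₗ[F] V := (e.symm : K →ₗ[F] V) ∘ₗ (LinearMap.mulLeft F j) ∘ₗ (e : V →ₗ[F] K)
  have hJ : ∀ x, Jl x = e.symm (j * e x) := fun x => rfl
  have heJ : ∀ x, e (Jl x) = j * e x := fun x => by rw [hJ, e.apply_symm_apply]
  have hself : ∀ a x y : K, a ^ (q ^ n) = a → polar Q' (a * x) y = polar Q' x (a * y) := by
    intro a x y ha
    have := hadj a x y
    rwa [ha] at this
  refine ⟨ν, Jl, ⟨?_, ?_, ?_⟩, ?_, ?_⟩
  · intro x
    apply e.injective
    rw [heJ, heJ, map_add, heJ, map_smul, Algebra.smul_def, hν]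
    linear_combination (-(j * e x)) * h20
  · intro x y
    rw [hpol', hpol', heJ, heJ]
    exact hself j _ _ hjn
  · intro x
    rw [hpol', heJ]
    -- `j` is a square
    have : Fintype K := Fintype.ofFinite K
    obtain ⟨l, hl⟩ := FiniteField.isSquare_of_char_two
      (by rw [← CharP.eq K hch (ringChar.charP K)] : ringChar K = 2) j
    have hln : l ^ (q ^ n) = l := by
      have h1 : (l ^ (q ^ n) + l) * (l ^ (q ^ n) + l) = 0 := by
        have h2 : l ^ (q ^ n) * l ^ (q ^ n) = l * l := by
          rw [← mul_pow, ← hl, hjn]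
        linear_combination h2 + (l * l + l ^ (q ^ n) * l) * h20
      have h3 := mul_self_eq_zero.1 h1
      linear_combination h3 - l * h20
    rw [hl, mul_assoc, hself l _ _ hln, polar_self, two_nsmul]
    exact CharTwo.add_self_eq_zero _
  · intro x
    apply e.injective
    rw [het', heJ, heJ, het']
    ring
  · intro μ hμ
    have h1 : (algebraMap F K μ + j) * (algebraMap F K μ + j + 1) = 0 := by
      have h2 : algebraMap F K μ * algebraMap F K μ = algebraMap F K μ + (j * j + j) := by
        rw [← hν, ← map_mul, ← map_add, hμ]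
      linear_combination h2 + (algebraMap F K μ * j + j * j + algebraMap F K μ + j) * h20
    have h4 : (algebraMap F K μ) ^ q = algebraMap F K μ := by
      have : Fintype F := Fintype.ofFinite F
      rw [← map_pow, hq, Nat.card_eq_fintype_card, FiniteField.pow_card]
    rcases mul_eq_zero.1 h1 with h | h
    · have h5 : j = algebraMap F K μ := by linear_combination h - algebraMap F K μ * h20
      rw [h5, h4] at hj1
      have : (1 : K) = 0 := by linear_combination -hj1
      exact one_ne_zero this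
    · have h5 : j = algebraMap F K μ + 1 := by
        linear_combination h - (algebraMap F K μ + 1) * h20
      rw [h5, hqadd, h4, one_pow] at hj1
      have : (1 : K) = 0 := by linear_combination -hj1
      exact one_ne_zero this

end Pool.Agent.H330.EvenQ
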