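import Pool.Agent.H330.EvenQ.Spec

namespace Pool.Agent.H330.EvenQ

open QuadraticMap Module Polynomial

namespace LF

variable {F V : Type} [Field F] [CharP F 2] [AddCommGroup V] [Module F V]

lemma add_self_F (x : F) : x + x = 0 := CharTwo.add_self_eq_zero x

lemma add_self_V (F : Type) [Field F] [CharP F 2] {V : Type} [AddCommGroup V] [Module F V]
    (x : V) : x + x = 0 := by
  have h : (1 + 1 : F) • x = 0 := by rw [add_self_F, zero_smul]
  rwa [add_smul, one_smul] at h

lemma eq_of_add (F : Type) [Field F] [CharP F 2] {V : Type} [AddCommGroup V] [Module F V]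
    {x y : V} (h : x + y = 0) : x = y := by
  have h1 : y + y = 0 := add_self_V F y
  calc x = x + (y + y) := by rw [h1, add_zero]
    _ = (x + y) + y := by abel
    _ = y := by rw [h, zero_add]

lemma polar_self0 (Q : QuadraticForm F V) (x : V) : polar Q x x = 0 := by
  unfold polar
  rw [add_self_V F x, QuadraticMap.map_zero]
  have := add_self_F (Q x)
  linear_combination -this

lemma sqrt_exists [Finite F] (a : F) : ∃ z : F, z * z = a := by
  have h : ringChar F = 2 := ringChar.eq F 2 |>.symm ▸ rfl
  obtain ⟨r, hr⟩ := FiniteField.isSquare_of_char_two h a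
  exact ⟨r, hr.symm⟩

omit [CharP F 2] in
lemma pow_fix {n : V →ₗ[F] V} {y : V} (h : n y = y) : ∀ k : ℕ, (n ^ k) y = y := by
  intro k
  induction k with
  | zero => rfl
  | succ k ih => rw [pow_succ, Module.End.mul_apply, h, ih]

omit [CharP F 2] in
lemma pow_eig {n : V →ₗ[F] V} {y : V} {c : F} (h : n y = c • y) :
    ∀ k : ℕ, (n ^ k) y = c ^ k • y := by
  intro k
  induction k with
  | zero => simp
  | succ k ih => rw [pow_succ, Module.End.mul_apply, h, map_smul, ih, smul_smul, pow_succ,
      mul_comm]

end LF

open LF in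
theorem h_LF (hA : S_ALG) (hE : S_EVEN) (hG : S_SING) (h3 : S_CASE3) (h4 : S_CASE4a)
    (h5 : S_CASE4c) : S_LF := by
  intro F V _ _ _ _ _ _ Q hnd hnt ν J J' hJ hJ' s hnil hNS
  obtain ⟨aTJ, aZJ, aZJ', aZT, aTT, aJ', aTadj, aTalt, -, -⟩ := hA F V Q ν J J' hJ hJ'
  obtain ⟨z, hz⟩ := sqrt_exists (F := F) (s + s * s)
  -- the nilpotent operator `n`
  obtain ⟨n, hn⟩ : ∃ n : V →ₗ[F] V, n = ZZ J J' + s • LinearMap.id := ⟨_, rfl⟩
  have hnx : ∀ x, n x = ZZ J J' x + s • x := fun x => by rw [hn]; rfl
  obtain ⟨K, hK⟩ : ∃ K, n ^ K = 0 := by rw [hn]; exact hnil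
  -- the operator `D`
  obtain ⟨D, hD⟩ : ∃ D : V →ₗ[F] V, D = TT J J' + z • LinearMap.id := ⟨_, rfl⟩
  have hDx : ∀ x, D x = TT J J' x + z • x := fun x => by rw [hD]; rfl
  have hDD : ∀ x, D (D x) = n x + n (n x) := by
    intro x
    rw [hDx, hDx, map_add, map_smul, aTT, smul_add, smul_smul, hz, hnx, hnx, map_add, map_smul,
      smul_add, smul_smul]
    have e1 := add_self_V F (z • TT J J' x)
    have e2 := add_self_V F (s • ZZ J J' x)
    have e3 : ZZ J J' x + ZZ J J' (ZZ J J' x) + z • TT J J' x +
        (z • TT J J' x + (s + s * s) • x) =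
        ZZ J J' x + ZZ J J' (ZZ J J' x) + (s + s * s) • x +
          (z • TT J J' x + z • TT J J' x) := by abel
    have e4 : ZZ J J' x + s • x + (ZZ J J' (ZZ J J' x) + s • ZZ J J' x +
        (s • ZZ J J' x + (s * s) • x)) =
        ZZ J J' x + ZZ J J' (ZZ J J' x) + (s • x + (s * s) • x) +
          (s • ZZ J J' x + s • ZZ J J' x) := by abel
    rw [e3, e4, e1, e2, add_smul]
  have hD2 : D ^ 2 = n * (1 + n) := by
    apply LinearMap.ext
    intro x
    rw [_root_.sq, Module.End.mul_apply, hDD, Module.End.mul_apply, LinearMap.add_apply,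
      Module.End.one_apply, map_add]
  have hDnil : IsNilpotent D := by
    have hc : Commute n (1 + n) := (Commute.one_right n).add_right (Commute.refl n)
    refine ⟨2 * K, ?_⟩
    rw [pow_mul, hD2, hc.mul_pow, hK, zero_mul]
  have hDadj : ∀ x y, polar Q (D x) y = polar Q x (D y) := by
    intro x y
    rw [hDx, hDx, polar_add_left, polar_add_right, polar_smul_left, polar_smul_right, aTadj]
  have hDalt : ∀ x, polar Q (D x) x = 0 := by
    intro x
    rw [hDx, polar_add_left, polar_smul_left, aTalt, polar_self0]
    simp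
  -- dimension at least three
  have heven : Even (finrank F V) := by
    have h1 := hE F V (polarBilin Q) (fun x => by
      rw [polarBilin_apply_apply]; exact polar_self0 Q x)
    have h2 : LinearMap.ker (polarBilin Q) = ⊥ := by
      rw [LinearMap.ker_eq_bot']
      intro x hx
      apply hnd
      intro y
      have := congrArg (fun f : V →ₗ[F] F => f y) hx
      simpa using this
    rwa [LinearMap.finrank_range_of_inj (LinearMap.ker_eq_bot.mp h2)] at h1
  have hpos : 0 < finrank F V := finrank_pos
  have hdim : 3 ≤ finrank F V := by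
    by_contra hlt
    have h2 : finrank F V = 2 := by
      obtain ⟨r, hr⟩ := heven
      omega
    obtain ⟨x, hx⟩ := exists_ne (0 : V)
    -- the orthogonal complement of `x` is the line of `x`
    have hline : ∀ w, polar Q x w = 0 → ∃ μ : F, w = μ • x := by
      intro w hw
      obtain ⟨f, hf⟩ : ∃ f : V →ₗ[F] F, f = polarBilin Q x := ⟨_, rfl⟩
      have hfy : ∀ y, f y = polar Q x y := fun y => by rw [hf, polarBilin_apply_apply]
      have hf0 : f ≠ 0 := by
        intro h0
        apply hx
        apply hnd
        intro y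
        rw [← hfy, h0]; rfl
      have hrk := LinearMap.finrank_range_add_finrank_ker f
      have hr1 : finrank F (LinearMap.range f) = 1 := by
        rw [LinearMap.range_eq_top.mpr (LinearMap.surjective hf0), finrank_top, finrank_self]
      have hk1 : finrank F (LinearMap.ker f) = 1 := by omega
      have hxk : x ∈ LinearMap.ker f := by
        rw [LinearMap.mem_ker, hfy]; exact polar_self0 Q x
      have hwk : w ∈ LinearMap.ker f := by
        rw [LinearMap.mem_ker, hfy]; exact hw
      have hx' : (⟨x, hxk⟩ : LinearMap.ker f) ≠ 0 := fun h => hx (congrArg Subtype.val h)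
      obtain ⟨μ, hμ⟩ := (finrank_eq_one_iff_of_nonzero' _ hx').mp hk1 ⟨w, hwk⟩
      exact ⟨μ, (congrArg Subtype.val hμ).symm⟩
    obtain ⟨μ, hμ⟩ := hline (J x) (by rw [polar_comm]; exact hJ.alt x)
    obtain ⟨μ', hμ'⟩ := hline (J' x) (by rw [polar_comm]; exact hJ'.alt x)
    have hroot : ∀ (L : V →ₗ[F] V) (c : F), IsJ Q ν L → L x = c • x → c * c = c + ν := by
      intro L c hL hc
      have h1 := hL.sq x
      rw [hc, map_smul, hc, smul_smul, ← add_smul] at h1
      exact smul_left_injective F hx h1
    have r1 := hroot J μ hJ hμ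
    have r2 := hroot J' μ' hJ' hμ'
    rcases hNS with hNS | ⟨hs0, hs1⟩
    · exact hNS μ r1
    · have hZ : ZZ J J' x = ((μ + μ') * (μ + μ')) • x := by
        have e1 : ZZ J J' x = (J + J') ((J + J') x) := rfl
        have e2 : (J + J') x = (μ + μ') • x := by
          rw [LinearMap.add_apply, hμ, hμ', add_smul]
        rw [e1, e2, map_smul, e2, smul_smul]
      have hn' : n x = ((μ + μ') * (μ + μ') + s) • x := by
        rw [hnx, hZ, add_smul]
      have hk := pow_eig hn' K
      rw [hK, LinearMap.zero_apply] at hk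
      have h0 : ((μ + μ') * (μ + μ') + s) ^ K = 0 := by
        by_contra hne
        exact hx ((smul_eq_zero.mp hk.symm).resolve_left hne)
      have h1 : (μ + μ') * (μ + μ') + s = 0 := by
        by_contra hne
        exact pow_ne_zero K hne h0
      have h2 : (μ + μ') * (μ + μ') = μ + μ' := by
        have e0 := add_self_F (μ * μ')
        have e1 := add_self_F ν
        linear_combination r1 + r2 + e0 + e1
      have h3 : (μ + μ') * (μ + μ' - 1) = 0 := by linear_combination h2
      have h4 : μ + μ' + s = 0 := by rw [← h2]; exact h1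
      rcases mul_eq_zero.mp h3 with h5 | h5
      · apply hs0
        rw [h5, zero_add] at h4
        exact h4
      · apply hs1
        have h6 : μ + μ' = 1 := by linear_combination h5
        rw [h6] at h4
        have e1 := add_self_F (1 : F)
        linear_combination h4 - e1
  -- the singular vector
  obtain ⟨a, ha0, hDa, hQa⟩ := hG F V Q hnd hdim D hDadj hDalt hDnil
  have hTa : TT J J' a = z • a := by
    rw [hDx] at hDa
    exact eq_of_add F hDa
  have hna : n a = 0 := by
    have h1 := hDD a
    rw [hDa, map_zero] at h1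
    have h2 : n (n a) = n a := (eq_of_add F h1.symm).symm
    have h3 := pow_fix h2 K
    rw [hK, LinearMap.zero_apply] at h3
    exact h3.symm
  have hZa : ZZ J J' a = s • a := by
    rw [hnx] at hna
    exact eq_of_add F hna
  by_cases hQJ : Q (J a) = 0
  swap
  · exact Or.inl (h3 F V Q hnd ν J J' hJ hJ' a z s hQa hQJ hTa hZa)
  have hind : ∀ α β : F, α • a + β • J a = 0 → α = 0 ∧ β = 0 := by
    intro α β hαβ
    by_cases hβ : β = 0
    · rw [hβ, zero_smul, add_zero] at hαβ
      exact ⟨(smul_eq_zero.mp hαβ).resolve_right ha0, hβ⟩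
    · exfalso
      obtain ⟨μ, hμdef⟩ : ∃ μ : F, μ = β⁻¹ * α := ⟨_, rfl⟩
      have hμ : J a = μ • a := by
        have h1 : β • J a = α • a := (eq_of_add F hαβ).symm
        have h2 : J a = β⁻¹ • (β • J a) := by rw [smul_smul, inv_mul_cancel₀ hβ, one_smul]
        rw [h2, h1, smul_smul, hμdef]
      have hr : μ * μ = μ + ν := by
        have h1 := hJ.sq a
        rw [hμ, map_smul, hμ, smul_smul, ← add_smul] at h1
        exact smul_left_injective F ha0 h1
      have hz0 : z = 0 := by
        have h1 := aTJ a
        rw [hTa, map_smul, hμ, map_smul, hTa, smul_smul, smul_smul, ← add_smul] at h1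
        have h2 := smul_left_injective F ha0 h1
        linear_combination -h2
      have hs : s * (s + 1) = 0 := by
        rw [hz0] at hz
        linear_combination -hz
      rcases hNS with hNS | ⟨hs0, hs1⟩
      · exact hNS μ hr
      · rcases mul_eq_zero.mp hs with h | h
        · exact hs0 h
        · apply hs1
          have e1 := add_self_F (1 : F)
          linear_combination h - e1
  rcases h4 F V Q hnd ν J J' hJ hJ' a z s hz hnil hQa hQJ hTa hind with h | ⟨h, b, η0, η1, hb⟩
  · right
    refine ⟨Submodule.span F {a, J a}, ?_, ?_, ?_⟩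
    · intro x hx
      rw [Submodule.mem_span_pair] at hx ⊢
      obtain ⟨α, β, rfl⟩ := hx
      refine ⟨β * ν, α + β, ?_⟩
      rw [map_add, map_smul, map_smul, hJ.sq, add_smul, smul_add, smul_smul]
      abel
    · intro x hx
      rw [Submodule.mem_span_pair] at hx
      obtain ⟨α, β, rfl⟩ := hx
      rw [QuadraticMap.map_add (⇑Q) (α • a) (β • J a), QuadraticMap.map_smul, QuadraticMap.map_smul, hQa, hQJ,
        polar_smul_left, polar_smul_right, polar_comm, hJ.alt]
      simp
    · have hli : LinearIndependent F ![a, J a] := by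
        rw [LinearIndependent.pair_iff]
        exact hind
      have h1 := finrank_span_eq_card hli
      have h2 : Set.range ![a, J a] = {a, J a} := by
        rw [Matrix.range_cons, Matrix.range_cons, Matrix.range_empty, Set.union_empty]
        rfl
      rw [h2] at h1
      rw [h1, h]
      rfl
  · left
    obtain ⟨hb1, hb2, hb3, hb4, hb5, hb6⟩ := hb
    exact h5 F V Q hnd ν J J' hJ hJ' a b z s η0 η1 hQa hQJ hind hb1 hb2 hb3 hTa hZa hb4 hb5 hb6 h

end Pool.Agent.H330.EvenQ
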