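import Pool.Agent.H330.EvenQ.Spec

namespace Pool.Agent.H330.EvenQ

open QuadraticMap Module Polynomial

namespace LS

variable {F V : Type} [Field F] [AddCommGroup V] [Module F V]
  {Q : QuadraticForm F V} {V0 V1 : Submodule F V} {T : V →ₗ[F] V}

theorem add_self' [CharP F 2] (x : V) : x + x = 0 := by
  rw [← two_smul F x, CharTwo.two_eq_zero, zero_smul]

theorem eq_of_add [CharP F 2] {x y : V} (h : x + y = 0) : x = y := by
  have h1 : x + y + y = y := by rw [h, zero_add]
  rw [add_assoc, add_self' (F := F), add_zero] at h1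
  exact h1

theorem symm' (h : LSset Q V0 V1 T) : LSset Q V1 V0 T where
  nd := h.nd
  compl := h.compl.symm
  orth x hx y hy := by rw [polar_comm]; exact h.orth y hy x hx
  t0 := h.t1
  t1 := h.t0
  adj := h.adj
  nil := h.nil

theorem lsa_symm (h : LSA Q V0 V1 T) : LSA Q V1 V0 T := by
  obtain ⟨c, h1, h2, h3, h4, h5⟩ := h
  exact ⟨c, h1, h2, h3, h5, h4⟩

theorem dec (h : LSset Q V0 V1 T) (x : V) : ∃ x0 ∈ V0, ∃ x1 ∈ V1, x0 + x1 = x := by
  have : x ∈ V0 ⊔ V1 := by rw [h.compl.sup_eq_top]; trivial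
  exact Submodule.mem_sup.1 this

theorem zer (h : LSset Q V0 V1 T) {x : V} (h0 : x ∈ V0) (h1 : x ∈ V1) : x = 0 :=
  Submodule.disjoint_def.1 h.compl.disjoint x h0 h1

theorem ker_dec (h : LSset Q V0 V1 T) {x : V} (hx : T x = 0) :
    ∃ x0 ∈ V0, ∃ x1 ∈ V1, x0 + x1 = x ∧ T x0 = 0 ∧ T x1 = 0 := by
  obtain ⟨x0, h0, x1, h1, rfl⟩ := dec h x
  rw [map_add] at hx
  have h2 : T x0 = - T x1 := eq_neg_of_add_eq_zero_left hx
  have h3 : T x0 = 0 := zer h (by rw [h2]; exact V0.neg_mem (h.t1 x1 h1)) (h.t0 x0 h0)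
  refine ⟨x0, h0, x1, h1, rfl, h3, ?_⟩
  rw [h3, zero_add] at hx
  exact hx

theorem alt [CharP F 2] (h : LSset Q V0 V1 T) (x : V) : polar Q (T x) x = 0 := by
  obtain ⟨x0, h0, x1, h1, rfl⟩ := dec h x
  rw [map_add, polar_add_left, polar_add_right, polar_add_right]
  have e1 : polar Q (T x0) x0 = 0 := by
    rw [polar_comm]; exact h.orth x0 h0 _ (h.t0 x0 h0)
  have e2 : polar Q (T x1) x1 = 0 := h.orth _ (h.t1 x1 h1) x1 h1
  have e3 : polar Q (T x0) x1 = polar Q (T x1) x0 := by
    rw [h.adj, polar_comm]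
  rw [e1, e2, e3, zero_add, add_zero, CharTwo.add_self_eq_zero]

theorem even_ker [CharP F 2] [FiniteDimensional F V] (hE : S_EVEN) (h : LSset Q V0 V1 T) :
    Even (finrank F (LinearMap.ker T)) := by
  let β0 : V →ₗ[F] V →ₗ[F] F := polarBilin Q
  have b0 : ∀ x y, β0 x y = polar Q x y := fun x y => rfl
  have hk0 : LinearMap.ker β0 = ⊥ := by
    rw [LinearMap.ker_eq_bot']
    intro x hx
    apply h.nd
    intro y
    rw [← b0, hx]
    rfl
  have h0 := hE F V β0 (fun x => by
    rw [b0, polar_self, two_nsmul, CharTwo.add_self_eq_zero])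
  have h1 := hE F V (β0 ∘ₗ T) (fun x => by
    rw [LinearMap.comp_apply, b0]; exact alt h x)
  have h2 := LinearMap.finrank_range_add_finrank_ker β0
  have h3 := LinearMap.finrank_range_add_finrank_ker (β0 ∘ₗ T)
  rw [hk0, finrank_bot, add_zero] at h2
  rw [LinearMap.ker_comp_of_ker_eq_bot T hk0] at h3
  rw [h2] at h0
  rw [← h3, Nat.even_add] at h0
  exact h0.1 h1

theorem ex_ker [Nontrivial V] (h : LSset Q V0 V1 T) : ∃ x, x ≠ 0 ∧ T x = 0 := by
  by_contra hc
  push Not at hc
  have hinj : Function.Injective T := by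
    rw [← LinearMap.ker_eq_bot, LinearMap.ker_eq_bot']
    intro x hx
    by_contra h0
    exact hc x h0 hx
  obtain ⟨n, hn⟩ := h.nil
  have h1 : Function.Injective (T ^ n : V →ₗ[F] V) := by
    rw [Module.End.coe_pow]
    exact hinj.iterate n
  rw [hn] at h1
  obtain ⟨x, hx⟩ := exists_ne (0 : V)
  exact hx (h1 (by simp))

theorem t_zero (hnil : IsNilpotent T) (h : ∀ x, T x = 0 → (∃ y, x = T y) → x = 0) : T = 0 := by
  have key : ∀ n, T ^ (n + 1) = 0 → T = 0 := by
    intro n
    induction n with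
    | zero => intro h1; rwa [zero_add, pow_one] at h1
    | succ n ih =>
      intro h1
      apply ih
      ext x
      have h2 : T ((T ^ (n + 1)) x) = 0 := by
        have h3 := congrArg (fun S : V →ₗ[F] V => S x) h1
        rw [pow_succ'] at h3
        exact h3
      refine h _ h2 ⟨(T ^ n) x, ?_⟩
      rw [pow_succ']
      rfl
  obtain ⟨n, hn⟩ := hnil
  apply key n
  rw [pow_succ, hn, zero_mul]

variable [Finite F] [CharP F 2] [FiniteDimensional F V]

omit [Finite F] in
theorem pol_ker (h : LSset Q V0 V1 T) {x : V} (hx : T x = 0) (v : V) : polar Q (T v) x = 0 := by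
  rw [h.adj, hx, polar_zero_right]

omit [CharP F 2] [Finite F] [FiniteDimensional F V] in
theorem exists_polar (hnd : Nondeg Q) {x : V} (hx : x ≠ 0) : ∃ v, polar Q v x ≠ 0 := by
  by_contra hc
  push Not at hc
  apply hx
  apply hnd
  intro y
  rw [polar_comm]
  exact hc y

/-- reflections in vectors of the kernel -/
theorem refl_facts (h : LSset Q V0 V1 T) {x : V} (hx : x ∈ V0 ∨ x ∈ V1) (hT : T x = 0) (v : V) :
    refl Q x (T v) = T v ∧ T (refl Q x v) = T v ∧ (v ∈ V0 → refl Q x v ∈ V0) ∧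
      (v ∈ V1 → refl Q x v ∈ V1) := by
  unfold refl
  refine ⟨?_, ?_, ?_, ?_⟩
  · rw [pol_ker h hT, mul_zero, zero_smul, add_zero]
  · rw [map_add, map_smul, hT, smul_zero, add_zero]
  · intro hv
    rcases hx with hx | hx
    · exact V0.add_mem hv (V0.smul_mem _ hx)
    · rw [h.orth v hv x hx, mul_zero, zero_smul, add_zero]
      exact hv
  · intro hv
    rcases hx with hx | hx
    · rw [polar_comm, h.orth x hx v hv, mul_zero, zero_smul, add_zero]
      exact hv
    · exact V1.add_mem hv (V1.smul_mem _ hx)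

/-- two nonsingular vectors of the kernel -/
theorem case1 (hR : S_REFL) (h : LSset Q V0 V1 T) {x y : V} (hx : x ∈ V0 ∨ x ∈ V1)
    (hy : y ∈ V0 ∨ y ∈ V1) (hTx : T x = 0) (hTy : T y = 0) (hQx : Q x ≠ 0) (hQy : Q y ≠ 0)
    (hxy : y ∉ Submodule.span F {x}) : LSA Q V0 V1 T := by
  obtain ⟨g, hg, hgv⟩ := hR F V Q h.nd x y hQx hQy
  refine ⟨g, (le_sup_left : Om Q ≤ Sg Q) hg, ?_, ?_, ?_, ?_⟩
  · rintro rfl
    have hy0 : y ≠ 0 := by
      rintro rfl
      exact hQy (map_zero Q)
    obtain ⟨v, hv⟩ := exists_polar h.nd hy0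
    have h1 := hgv v
    rw [LinearEquiv.coe_one, id_eq] at h1
    apply hxy
    rw [Submodule.mem_span_singleton]
    unfold refl at h1
    set κ := (Q y)⁻¹ * polar Q v y with hκ
    set l := (Q x)⁻¹ * polar Q (v + κ • y) x with hl
    have hκ0 : κ ≠ 0 := mul_ne_zero (inv_ne_zero hQy) hv
    have h2 : κ • y + l • x = 0 := by
      have h3 : v + (κ • y + l • x) = v + 0 := by rw [← add_assoc, ← h1, add_zero]
      exact add_left_cancel h3
    have h4 : κ • y = l • x := eq_of_add (F := F) h2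
    refine ⟨κ⁻¹ * l, ?_⟩
    rw [mul_smul, ← h4, smul_smul, inv_mul_cancel₀ hκ0, one_smul]
  · intro v
    rw [hgv, hgv, (refl_facts h hy hTy v).1, (refl_facts h hx hTx v).1,
      (refl_facts h hx hTx _).2.1, (refl_facts h hy hTy v).2.1]
  · intro v hv
    rw [hgv]
    exact (refl_facts h hx hTx _).2.2.1 ((refl_facts h hy hTy v).2.2.1 hv)
  · intro v hv
    rw [hgv]
    exact (refl_facts h hx hTx _).2.2.2 ((refl_facts h hy hTy v).2.2.2 hv)

/-- a Siegel transformation in vectors of the kernel -/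
theorem case2 (hS : S_SIEG) (h : LSset Q V0 V1 T) {a b : V} (ha : a ∈ V0)
    (hb : b ∈ V0) (hTa : T a = 0) (hTb : T b = 0) (hQa : Q a = 0) (hab : polar Q a b = 0)
    (ha0 : a ≠ 0) (hba : b ∉ Submodule.span F {a}) : LSA Q V0 V1 T := by
  obtain ⟨g, _, hg, hgv, _⟩ := hS F V Q h.nd a b hQa hab
  refine ⟨g, hg, ?_, ?_, ?_, ?_⟩
  · rintro rfl
    obtain ⟨v, hv⟩ := exists_polar h.nd ha0
    have h1 := hgv v
    rw [LinearEquiv.coe_one, id_eq] at h1
    apply hba
    rw [Submodule.mem_span_singleton]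
    unfold sieg at h1
    have h2 : polar Q v a • b + (polar Q v b + Q b * polar Q v a) • a = 0 := by
      have h3 : v + (polar Q v a • b + (polar Q v b + Q b * polar Q v a) • a) = v + 0 := by
        rw [add_zero, add_smul, ← add_assoc, ← add_assoc, ← h1]
      exact add_left_cancel h3
    have h4 := eq_of_add (F := F) h2
    refine ⟨(polar Q v a)⁻¹ * (polar Q v b + Q b * polar Q v a), ?_⟩
    rw [mul_smul, ← h4, smul_smul, inv_mul_cancel₀ hv, one_smul]
  · intro v
    rw [hgv, hgv]
    unfold sieg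
    rw [pol_ker h hTa, pol_ker h hTb, map_add, map_add, map_add, map_smul, map_smul, map_smul,
      hTa, hTb]
    simp
  · intro v hv
    rw [hgv]
    unfold sieg
    exact V0.add_mem (V0.add_mem (V0.add_mem hv (V0.smul_mem _ hb)) (V0.smul_mem _ ha))
      (V0.smul_mem _ ha)
  · intro v hv
    rw [hgv]
    unfold sieg
    rw [polar_comm Q v a, polar_comm Q v b, h.orth a ha v hv, h.orth b hb v hv]
    simpa using hv

omit [Finite F] [CharP F 2] [FiniteDimensional F V] in
theorem span_pair_mem {a b x : V} (h : x ∈ Submodule.span F {a, b}) :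
    ∃ α β : F, x = α • a + β • b := by
  obtain ⟨α, β, h⟩ := Submodule.mem_span_pair.1 h
  exact ⟨α, β, h.symm⟩

/-- the case where `K₁` has no singular vector -/
theorem half [Nontrivial V] (hE : S_EVEN) (hR : S_REFL) (hS : S_SIEG) (hC : S_LSCHAIN)
    (h : LSset Q V0 V1 T) (h1 : ∀ x ∈ V1, T x = 0 → Q x = 0 → x = 0) :
    LSA Q V0 V1 T ∨ (Hyp Q V0 ∧ Hyp Q V1) ∨
      (Hyp Q V0 ∧ ∃ x, Q x ≠ 0 ∧ x ∈ V1 ∧ T x = 0) := by
  by_cases hL : LSA Q V0 V1 T
  · exact Or.inl hL
  right
  have hev := even_ker hE h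
  -- nonsingular vectors are proportional
  have p1 : ∀ x y : V, (x ∈ V0 ∨ x ∈ V1) → (y ∈ V0 ∨ y ∈ V1) → T x = 0 → T y = 0 →
      Q x ≠ 0 → Q y ≠ 0 → y ∈ Submodule.span F {x} := by
    intro x y hx hy hTx hTy hQx hQy
    by_contra hc
    exact hL (case1 hR h hx hy hTx hTy hQx hQy hc)
  have p2 : ∀ a b : V, a ∈ V0 → b ∈ V0 → T a = 0 → T b = 0 → Q a = 0 → polar Q a b = 0 →
      a ≠ 0 → b ∈ Submodule.span F {a} := by
    intro a b ha hb hTa hTb hQa hab ha0
    by_contra hc
    exact hL (case2 hS h ha hb hTa hTb hQa hab ha0 hc)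
  by_cases hK1 : ∀ x ∈ V1, T x = 0 → x = 0
  · left
    obtain ⟨k, hk0, hTk⟩ := ex_ker h
    have hK : ∀ x, T x = 0 → x ∈ V0 := by
      intro x hx
      obtain ⟨x0, h0, x1, h1', rfl, hT0, hT1⟩ := ker_dec h hx
      rw [hK1 x1 h1' hT1, add_zero]
      exact h0
    obtain ⟨y, hTy, hy⟩ : ∃ y, T y = 0 ∧ y ∉ Submodule.span F {k} := by
      by_contra hc
      push Not at hc
      have e1 : LinearMap.ker T = Submodule.span F {k} := by
        apply le_antisymm
        · intro x hx
          exact hc x hx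
        · rw [Submodule.span_singleton_le_iff_mem]
          exact hTk
      rw [e1, finrank_span_singleton hk0] at hev
      exact absurd hev (by decide)
    have hy0 : y ≠ 0 := by
      rintro rfl
      exact hy (Submodule.zero_mem _)
    -- `k` or `y` is singular
    have hky : k ∉ Submodule.span F {y} := by
      intro hc
      obtain ⟨c, hc⟩ := Submodule.mem_span_singleton.1 hc
      have hc0 : c ≠ 0 := by
        rintro rfl
        rw [zero_smul] at hc
        exact hk0 hc.symm
      apply hy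
      rw [Submodule.mem_span_singleton]
      exact ⟨c⁻¹, by rw [← hc, smul_smul, inv_mul_cancel₀ hc0, one_smul]⟩
    obtain ⟨a, b, hTa, hTb, ha0, hba, hQa, hspan⟩ : ∃ a b : V, T a = 0 ∧ T b = 0 ∧ a ≠ 0 ∧
        b ∉ Submodule.span F {a} ∧ Q a = 0 ∧ ∀ z, z ∈ Submodule.span F {a, b} ↔
          z ∈ Submodule.span F {k, y} := by
      by_cases hQk : Q k = 0
      · exact ⟨k, y, hTk, hTy, hk0, hy, hQk, fun z => Iff.rfl⟩
      · refine ⟨y, k, hTy, hTk, hy0, hky, ?_, fun z => by rw [Set.pair_comm]⟩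
        by_contra hQy
        exact hy (p1 k y (Or.inl (hK k hTk)) (Or.inl (hK y hTy)) hTk hTy hQk hQy)
    have hBab : polar Q a b ≠ 0 := fun hc =>
      hba (p2 a b (hK a hTa) (hK b hTb) hTa hTb hQa hc ha0)
    -- the kernel is spanned by `a` and `b`
    have hker : ∀ z, T z = 0 → z ∈ Submodule.span F {a, b} := by
      intro z hz
      by_contra hc
      set w := polar Q a z • b + polar Q a b • z with hw
      have hTw : T w = 0 := by rw [hw, map_add, map_smul, map_smul, hTb, hz]; simp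
      have hBw : polar Q a w = 0 := by
        rw [hw, polar_add_right, polar_smul_right, polar_smul_right, smul_eq_mul, smul_eq_mul,
          mul_comm, CharTwo.add_self_eq_zero]
      have h2 := p2 a w (hK a hTa) (hK w hTw) hTa hTw hQa hBw ha0
      obtain ⟨c, h3⟩ := Submodule.mem_span_singleton.1 h2
      apply hc
      rw [Submodule.mem_span_pair]
      refine ⟨(polar Q a b)⁻¹ * c, (polar Q a b)⁻¹ * polar Q a z, ?_⟩
      have h4 : c • a + polar Q a z • b = polar Q a b • z := by
        rw [h3, hw, add_comm (polar Q a z • b), add_assoc, add_self' (F := F), add_zero]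
      rw [mul_smul, mul_smul, ← smul_add, h4, smul_smul, inv_mul_cancel₀ hBab, one_smul]
    have hT0 : T = 0 := by
      apply t_zero h.nil
      rintro x hx ⟨w, rfl⟩
      obtain ⟨α, β, e⟩ := span_pair_mem (hker _ hx)
      have e1 : polar Q (T w) a = 0 := pol_ker h hTa w
      have e2 : polar Q (T w) b = 0 := pol_ker h hTb w
      rw [e, polar_add_left, polar_smul_left, polar_smul_left, polar_self, polar_comm Q b a,
        two_nsmul, CharTwo.add_self_eq_zero, smul_zero, zero_add, smul_eq_mul] at e1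
      rw [e, polar_add_left, polar_smul_left, polar_smul_left, polar_self,
        two_nsmul, CharTwo.add_self_eq_zero, smul_zero, add_zero, smul_eq_mul] at e2
      have hβ : β = 0 := (mul_eq_zero.1 e1).resolve_right hBab
      have hα : α = 0 := (mul_eq_zero.1 e2).resolve_right hBab
      rw [e, hα, hβ, zero_smul, zero_smul, add_zero]
    have hTz : ∀ x, T x = 0 := fun x => by rw [hT0]; rfl
    have hV1 : V1 = ⊥ := by
      rw [Submodule.eq_bot_iff]
      intro x hx
      exact hK1 x hx (hTz x)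
    have hV0 : V0 = Submodule.span F {a, b} := by
      apply le_antisymm
      · intro x _
        exact hker x (hTz x)
      · rw [Submodule.span_le]
        rintro x hx
        rcases hx with rfl | hx
        · exact hK _ hTa
        · rw [Set.mem_singleton_iff] at hx
          rw [hx]
          exact hK _ hTb
    constructor
    · refine ⟨Submodule.span F {a}, ?_, ?_, ?_⟩
      · rw [Submodule.span_singleton_le_iff_mem]
        exact hK a hTa
      · intro x hx
        obtain ⟨c, rfl⟩ := Submodule.mem_span_singleton.1 hx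
        rw [QuadraticMap.map_smul, hQa, smul_zero]
      · rw [finrank_span_singleton ha0, hV0]
        have hli : LinearIndependent F ![a, b] := by
          rw [LinearIndependent.pair_iff' ha0]
          intro c hc
          exact hba (Submodule.mem_span_singleton.2 ⟨c, hc⟩)
        have h5 := finrank_span_eq_card hli
        rw [Matrix.range_cons, Matrix.range_cons, Matrix.range_empty, Set.union_empty,
          Set.singleton_union] at h5
        rw [h5]
        simp
    · refine ⟨⊥, bot_le, ?_, ?_⟩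
      · intro x hx
        rw [(Submodule.mem_bot F).1 hx, map_zero]
      · rw [hV1, finrank_bot]
  · right
    push Not at hK1
    obtain ⟨a1, ha1, hTa1, ha10⟩ := hK1
    have hQa1 : Q a1 ≠ 0 := fun hc => ha10 (h1 a1 ha1 hTa1 hc)
    have q1 : ∀ x ∈ V1, T x = 0 → x ∈ Submodule.span F {a1} := by
      intro x hx hTx
      by_cases hx0 : x = 0
      · rw [hx0]; exact Submodule.zero_mem _
      · exact p1 a1 x (Or.inr ha1) (Or.inr hx) hTa1 hTx hQa1 fun hc => hx0 (h1 x hx hTx hc)
    have q2 : ∀ x ∈ V0, T x = 0 → Q x = 0 := by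
      intro x hx hTx
      by_contra hQx
      have h2 := p1 a1 x (Or.inr ha1) (Or.inl hx) hTa1 hTx hQa1 hQx
      obtain ⟨c, hc⟩ := Submodule.mem_span_singleton.1 h2
      have h3 : x = 0 := zer h hx (by rw [← hc]; exact V1.smul_mem _ ha1)
      rw [h3, map_zero] at hQx
      exact hQx rfl
    have q3 : ∀ x ∈ V0, ∀ y ∈ V0, T x = 0 → T y = 0 → x ≠ 0 → y ∈ Submodule.span F {x} := by
      intro x hx y hy hTx hTy hx0
      apply p2 x y hx hy hTx hTy (q2 x hx hTx) _ hx0
      unfold polar
      rw [q2 _ (V0.add_mem hx hy) (by rw [map_add, hTx, hTy, add_zero]), q2 x hx hTx,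
        q2 y hy hTy]
      simp
    obtain ⟨a, ha, hTa, ha0⟩ : ∃ a ∈ V0, T a = 0 ∧ a ≠ 0 := by
      by_contra hc
      push Not at hc
      have e1 : LinearMap.ker T = Submodule.span F {a1} := by
        apply le_antisymm
        · intro x hx
          obtain ⟨x0, h0, x1, h1', rfl, hT0, hT1⟩ := ker_dec h hx
          rw [hc x0 h0 hT0, zero_add]
          exact q1 x1 h1' hT1
        · rw [Submodule.span_singleton_le_iff_mem]
          exact hTa1
      rw [e1, finrank_span_singleton ha10] at hev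
      exact absurd hev (by decide)
    have hker : LinearMap.ker T = Submodule.span F {a, a1} := by
      apply le_antisymm
      · intro x hx
        obtain ⟨x0, h0, x1, h1', rfl, hT0, hT1⟩ := ker_dec h hx
        refine Submodule.add_mem _ ?_ ?_
        · exact Submodule.span_mono (by simp) (q3 a ha x0 h0 hTa hT0 ha0)
        · exact Submodule.span_mono (by simp) (q1 x1 h1' hT1)
      · rw [Submodule.span_le]
        rintro x hx
        rcases hx with rfl | hx
        · exact hTa
        · rw [Set.mem_singleton_iff] at hx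
          rw [hx]
          exact hTa1
    rcases hC F V Q V0 V1 T h a ha a1 ha1 ha0 (q2 a ha hTa) hQa1 hker with h2 | h2
    · exact absurd h2 hL
    · exact ⟨h2, a1, hQa1, ha1, hTa1⟩

end LS

open LS in
theorem h_LS (hE : S_EVEN) (_hG : S_SING) (hR : S_REFL) (hS : S_SIEG) (hX : S_LSCROSS)
    (hC : S_LSCHAIN) : S_LS := by
  intro F V _ _ _ _ _ _ Q V0 V1 T h hN
  by_cases c1 : ∀ x ∈ V1, T x = 0 → Q x = 0 → x = 0
  · rcases half hE hR hS hC h c1 with h2 | h2 | ⟨h2, x, h3, h4, h5⟩
    · exact Or.inl h2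
    · exact Or.inr (Or.inl h2)
    · exact Or.inr (Or.inr ⟨Or.inl h2, x, h3, Or.inr h4, h5⟩)
  by_cases c0 : ∀ x ∈ V0, T x = 0 → Q x = 0 → x = 0
  · rcases half hE hR hS hC (symm' h) c0 with h2 | h2 | ⟨h2, x, h3, h4, h5⟩
    · exact Or.inl (lsa_symm h2)
    · exact Or.inr (Or.inl h2.symm)
    · exact Or.inr (Or.inr ⟨Or.inr h2, x, h3, Or.inl h4, h5⟩)
  push Not at c0 c1
  obtain ⟨a1, h11, h12, h13, h14⟩ := c1
  obtain ⟨a0, h01, h02, h03, h04⟩ := c0
  rcases hX F V Q V0 V1 T h a0 h01 a1 h11 h04 h14 h03 h13 h02 h12 with h2 | h2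
  · exact Or.inl h2
  · exact Or.inr (Or.inl h2)

end Pool.Agent.H330.EvenQ
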