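import Pool.Agent.H330.EvenQ.Spec

namespace Pool.Agent.H330.EvenQ

open QuadraticMap Module

namespace LSCHAIN

section

set_option linter.unusedSectionVars false

theorem dbl (F : Type) {V : Type} [Field F] [CharP F 2] [AddCommGroup V] [Module F V] (v : V) :
    v + v = 0 := by
  have h : (2 : F) • v = 0 := by
    rw [CharTwo.two_eq_zero, zero_smul]
  rwa [two_smul] at h

variable {F V : Type} [Field F] [CharP F 2] [AddCommGroup V] [Module F V]

theorem polar_self' (Q : QuadraticForm F V) (x : V) : polar Q x x = 0 := by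
  rw [QuadraticMap.polar_self, two_smul]
  exact CharTwo.add_self_eq_zero _

theorem Q_add (Q : QuadraticForm F V) (x y : V) : Q (x + y) = Q x + Q y + polar Q x y :=
  QuadraticMap.map_add Q x y

theorem Q_smul (Q : QuadraticForm F V) (c : F) (x : V) : Q (c • x) = c * c * Q x := by
  rw [QuadraticMap.map_smul, smul_eq_mul]

theorem pal (Q : QuadraticForm F V) (x y z : V) : polar Q (x + y) z = polar Q x z + polar Q y z :=
  polar_add_left Q x y z

theorem par (Q : QuadraticForm F V) (x y z : V) : polar Q x (y + z) = polar Q x y + polar Q x z :=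
  polar_add_right Q x y z

theorem psl (Q : QuadraticForm F V) (c : F) (x z : V) : polar Q (c • x) z = c * polar Q x z := by
  rw [polar_smul_left, smul_eq_mul]

theorem psr (Q : QuadraticForm F V) (c : F) (x z : V) : polar Q x (c • z) = c * polar Q x z := by
  rw [polar_smul_right, smul_eq_mul]

/-- the orthogonal complement of the kernel of a self-adjoint operator is its image -/
theorem range_of_orth [FiniteDimensional F V] (Q : QuadraticForm F V) (hQ : Nondeg Q)
    (T : V →ₗ[F] V) (adj : ∀ x y, polar Q (T x) y = polar Q x (T y)) (x : V)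
    (hx : ∀ k, T k = 0 → polar Q k x = 0) : ∃ y, T y = x := by
  set B : LinearMap.BilinForm F V := Q.polarBilin with hB
  have hBa : ∀ x y, B x y = polar Q x y := fun _ _ => rfl
  have hrefl : B.IsRefl := by
    intro x y h
    rw [hBa] at h ⊢
    rw [polar_comm]
    exact h
  have hnd : B.Nondegenerate := by
    constructor
    · intro x h
      exact hQ x h
    · intro y h
      refine hQ y fun z => ?_
      rw [polar_comm]
      exact h z
  have h1 := LinearMap.BilinForm.orthogonal_orthogonal hnd hrefl (LinearMap.range T)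
  have h2 : x ∈ B.orthogonal (B.orthogonal (LinearMap.range T)) := by
    rw [LinearMap.BilinForm.mem_orthogonal_iff]
    intro n hn
    rw [LinearMap.BilinForm.mem_orthogonal_iff] at hn
    change polar Q n x = 0
    apply hx
    apply hQ
    intro y
    have := hn (T y) ⟨y, rfl⟩
    change polar Q (T y) n = 0 at this
    rw [adj, polar_comm] at this
    exact this
  rw [h1] at h2
  exact h2

theorem exists_decomp {V0 V1 : Submodule F V} (h : IsCompl V0 V1) (x : V) :
    ∃ x0 ∈ V0, ∃ x1 ∈ V1, x0 + x1 = x := by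
  have : x ∈ V0 ⊔ V1 := by
    rw [h.sup_eq_top]
    exact Submodule.mem_top
  exact Submodule.mem_sup.mp this

theorem eq_zero_of_mem {V0 V1 : Submodule F V} (h : IsCompl V0 V1) {x : V} (h0 : x ∈ V0)
    (h1 : x ∈ V1) : x = 0 := by
  have : x ∈ V0 ⊓ V1 := ⟨h0, h1⟩
  rw [h.inf_eq_bot] at this
  exact (Submodule.mem_bot F).mp this

theorem preim1 {V0 V1 : Submodule F V} {Q : QuadraticForm F V} {T : V →ₗ[F] V}
    (h : LSset Q V0 V1 T) {x : V} (hx : x ∈ V0) (hr : ∃ y, T y = x) : ∃ y ∈ V1, T y = x := by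
  obtain ⟨y, hy⟩ := hr
  obtain ⟨y0, h0, y1, h1, hy2⟩ := exists_decomp h.compl y
  refine ⟨y1, h1, ?_⟩
  have e1 : T y0 + T y1 = x := by rw [← map_add, hy2, hy]
  have e2 : T y0 = x - T y1 := by rw [← e1]; abel
  have e3 : T y0 ∈ V0 := by
    rw [e2]
    exact V0.sub_mem hx (h.t1 _ h1)
  have e4 := eq_zero_of_mem h.compl e3 (h.t0 _ h0)
  rw [e4, zero_add] at e1
  exact e1

theorem preim0 {V0 V1 : Submodule F V} {Q : QuadraticForm F V} {T : V →ₗ[F] V}
    (h : LSset Q V0 V1 T) {x : V} (hx : x ∈ V1) (hr : ∃ y, T y = x) : ∃ y ∈ V0, T y = x := by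
  obtain ⟨y, hy⟩ := hr
  obtain ⟨y0, h0, y1, h1, hy2⟩ := exists_decomp h.compl y
  refine ⟨y0, h0, ?_⟩
  have e1 : T y0 + T y1 = x := by rw [← map_add, hy2, hy]
  have e2 : T y1 = x - T y0 := by rw [← e1]; abel
  have e3 : T y1 ∈ V1 := by
    rw [e2]
    exact V1.sub_mem hx (h.t0 _ h0)
  have e4 := eq_zero_of_mem h.compl (h.t1 _ h1) e3
  rw [e4, add_zero] at e1
  exact e1

/-- a nonzero subspace invariant under a nilpotent operator contains a nonzero vector of its
kernel -/
theorem exists_ker {T : V →ₗ[F] V} (hT : IsNilpotent T) (W : Set V) (hW : ∀ x ∈ W, T x ∈ W)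
    (h0 : ∀ x ∈ W, T x = 0 → x = 0) : ∀ x ∈ W, x = 0 := by
  obtain ⟨n, hn⟩ := hT
  have key : ∀ m : ℕ, ∀ x ∈ W, (T ^ m) x = 0 → x = 0 := by
    intro m
    induction m with
    | zero =>
      intro x _ h
      simpa using h
    | succ m ih =>
      intro x hx h
      apply h0 x hx
      apply ih _ (hW x hx)
      rw [pow_succ] at h
      exact h
  intro x hx
  apply key n x hx
  rw [hn]
  rfl


theorem chain_hyp [FiniteDimensional F V] {Q : QuadraticForm F V} {V0 V1 : Submodule F V}
    {T : V →ₗ[F] V} (h : LSset Q V0 V1 T) {a a1 b v : V} (ha : a ∈ V0) (ha1 : a1 ∈ V1)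
    (hQa : Q a = 0) (hker : LinearMap.ker T = Submodule.span F {a, a1}) (hTa : T a = 0)
    (hTa1 : T a1 = 0) (hb : b ∈ V1) (hv : v ∈ V0)
    (hTb : T b = a) (hTv : T v = a1) (hne : polar Q b a1 ≠ 0) : Hyp Q V0 := by
  have hva : polar Q v a = polar Q b a1 := by
    rw [← hTb, ← h.adj, hTv, polar_comm]
  have key : ∀ x ∈ {x : V | polar Q x v = 0 ∧ polar Q x a = 0 ∧ polar Q x a1 = 0 ∧
      polar Q x b = 0}, x = 0 := by
    apply exists_ker h.nil
    · rintro x ⟨h1, h2, h3, h4⟩
      refine ⟨?_, ?_, ?_, ?_⟩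
      · rw [h.adj, hTv]
        exact h3
      · rw [h.adj, hTa, polar_zero_right]
      · rw [h.adj, hTa1, polar_zero_right]
      · rw [h.adj, hTb]
        exact h2
    · rintro x ⟨h1, h2, h3, h4⟩ hx
      have hx2 : x ∈ LinearMap.ker T := hx
      rw [hker, Submodule.mem_span_pair] at hx2
      obtain ⟨α, β, rfl⟩ := hx2
      have e1 : polar Q a1 v = 0 := by
        rw [polar_comm]
        exact h.orth _ hv _ ha1
      have e2 : polar Q a b = 0 := h.orth _ ha _ hb
      rw [pal, psl, psl, e1, mul_zero, add_zero, polar_comm Q a v, hva] at h1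
      rw [pal, psl, psl, e2, mul_zero, zero_add, polar_comm Q a1 b] at h4
      rw [(mul_eq_zero.mp h1).resolve_right hne, (mul_eq_zero.mp h4).resolve_right hne,
        zero_smul, zero_smul, add_zero]
  have hspan : V0 = Submodule.span F (Set.range ![v, a]) := by
    apply le_antisymm
    · intro x hx
      set γ := polar Q b a1 with hγ
      have h0 : x - (γ⁻¹ * polar Q x a) • v - (γ⁻¹ * polar Q x v) • a = 0 := by
        have hm : x - (γ⁻¹ * polar Q x a) • v - (γ⁻¹ * polar Q x v) • a ∈ V0 :=
          V0.sub_mem (V0.sub_mem hx (V0.smul_mem _ hv)) (V0.smul_mem _ ha)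
        apply key
        refine ⟨?_, ?_, h.orth _ hm _ ha1, h.orth _ hm _ hb⟩
        · rw [polar_sub_left, polar_sub_left, psl, psl, polar_self', polar_comm Q a v, hva]
          field_simp
          ring
        · rw [polar_sub_left, polar_sub_left, psl, psl, polar_self', hva]
          field_simp
          ring
      have h1 : x = (γ⁻¹ * polar Q x a) • v + (γ⁻¹ * polar Q x v) • a := by
        rw [sub_sub, sub_eq_zero] at h0
        exact h0
      rw [Matrix.range_cons, Matrix.range_cons, Matrix.range_empty, Set.union_empty,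
        Set.singleton_union, Submodule.mem_span_pair]
      exact ⟨_, _, h1.symm⟩
    · rw [Submodule.span_le]
      rintro x ⟨i, rfl⟩
      fin_cases i
      · exact hv
      · exact ha
  have hli : LinearIndependent F ![v, a] := by
    rw [LinearIndependent.pair_iff]
    intro s t hst
    have h1 : polar Q (s • v + t • a) a = 0 := by rw [hst, polar_zero_left]
    have h2 : polar Q (s • v + t • a) v = 0 := by rw [hst, polar_zero_left]
    rw [pal, psl, psl, polar_self', mul_zero, add_zero, hva] at h1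
    rw [pal, psl, psl, polar_self', mul_zero, zero_add, polar_comm, hva] at h2
    exact ⟨(mul_eq_zero.mp h1).resolve_right hne, (mul_eq_zero.mp h2).resolve_right hne⟩
  have ha0 : a ≠ 0 := by
    rintro rfl
    rw [polar_zero_right] at hva
    exact hne hva.symm
  refine ⟨Submodule.span F {a}, ?_, ?_, ?_⟩
  · rw [Submodule.span_le, Set.singleton_subset_iff]
    exact ha
  · intro x hx
    obtain ⟨t, rfl⟩ := Submodule.mem_span_singleton.mp hx
    rw [Q_smul, hQa, mul_zero]
  · rw [finrank_span_singleton ha0, hspan, finrank_span_eq_card hli]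
    rfl

theorem chain_com [FiniteDimensional F V] (hS : S_SIEG) [Finite F] {Q : QuadraticForm F V}
    {V0 V1 : Submodule F V}
    {T : V →ₗ[F] V} (h : LSset Q V0 V1 T) {a b w : V} (ha : a ∈ V0) (ha0 : a ≠ 0)
    (hQa : Q a = 0) (hTa : T a = 0) (hb : b ∈ V1) (hTb : T b = a) (hQb : Q b = 0)
    (hw : w ∈ V0) (hTTw : T (T w) = a) (hQTw : Q (T w) = 1) (haw : polar Q a w = 0)
    (hbw : polar Q b (T w) = 0) : LSA Q V0 V1 T := by
  obtain ⟨g1, -, hg1, e1, -⟩ := hS F V Q h.nd a w hQa haw
  obtain ⟨g2, -, hg2, e2, -⟩ := hS F V Q h.nd b (T w) hQb hbw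
  have hTw : T w ∈ V1 := h.t0 _ hw
  have e3 : ∀ x, (g1 * g2) x = x + polar Q x b • T w + polar Q x (T w) • b + polar Q x b • b +
      (polar Q x a • w + polar Q x w • a + (Q w * polar Q x a) • a) := by
    intro x
    change g1 (g2 x) = _
    have e4 : g2 x = x + polar Q x b • T w + polar Q x (T w) • b + polar Q x b • b := by
      rw [e2, sieg, hQTw, one_mul]
    have hm : polar Q x b • T w + polar Q x (T w) • b + polar Q x b • b ∈ V1 :=
      V1.add_mem (V1.add_mem (V1.smul_mem _ hTw) (V1.smul_mem _ hb)) (V1.smul_mem _ hb)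
    have e5 : ∀ y ∈ V0, polar Q (g2 x) y = polar Q x y := by
      intro y hy
      rw [e4, add_assoc, add_assoc, pal, ← add_assoc, polar_comm Q (_ + _) y, h.orth _ hy _ hm,
        add_zero]
    rw [e1, sieg, e5 a ha, e5 w hw, e4]
    abel
  have e6 : ∀ x, T ((g1 * g2) x) = T x + polar Q x a • T w + polar Q x (T w) • a := by
    intro x
    rw [e3]
    simp only [map_add, map_smul, hTa, hTTw, hTb, smul_zero, add_zero]
    have := dbl F (polar Q x b • a)
    calc T x + polar Q x b • a + polar Q x (T w) • a + polar Q x b • a + polar Q x a • T w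
        = T x + polar Q x a • T w + polar Q x (T w) • a + (polar Q x b • a + polar Q x b • a) := by
          abel
      _ = _ := by rw [this, add_zero]
  refine ⟨g1 * g2, (Sg Q).mul_mem hg1 hg2, ?_, ?_, ?_, ?_⟩
  · intro h1
    apply ha0
    apply h.nd
    intro x
    have h2 := e6 x
    rw [h1] at h2
    change T x = _ at h2
    have h3 : polar Q x a • T w + polar Q x (T w) • a = 0 := by
      rw [add_assoc] at h2
      exact left_eq_add.mp h2
    have h4 := congrArg T h3
    rw [map_add, map_smul, map_smul, hTTw, hTa, smul_zero, add_zero, map_zero] at h4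
    rw [polar_comm]
    exact (smul_eq_zero.mp h4).resolve_right ha0
  · intro x
    rw [e6, e3]
    have f1 : polar Q (T x) b = polar Q x a := by rw [h.adj, hTb]
    have f2 : polar Q (T x) (T w) = polar Q x a := by rw [h.adj, hTTw]
    have f3 : polar Q (T x) a = 0 := by rw [h.adj, hTa, polar_zero_right]
    have f4 : polar Q (T x) w = polar Q x (T w) := h.adj _ _
    rw [f1, f2, f3, f4, zero_smul, mul_zero, zero_smul]
    have := dbl F (polar Q x a • b)
    calc T x + polar Q x a • T w + polar Q x a • b + polar Q x a • b +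
          (0 + polar Q x (T w) • a + 0)
        = T x + polar Q x a • T w + polar Q x (T w) • a + (polar Q x a • b + polar Q x a • b) := by
          abel
      _ = _ := by rw [this, add_zero]
  · intro x hx
    rw [e3, h.orth _ hx _ hb, h.orth _ hx _ hTw, zero_smul, zero_smul, add_zero,
      add_zero, add_zero]
    exact V0.add_mem hx (V0.add_mem (V0.add_mem (V0.smul_mem _ hw) (V0.smul_mem _ ha))
      (V0.smul_mem _ ha))
  · intro x hx
    have g1 : polar Q x a = 0 := by
      rw [polar_comm]
      exact h.orth _ ha _ hx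
    have g2 : polar Q x w = 0 := by
      rw [polar_comm]
      exact h.orth _ hw _ hx
    rw [e3, g1, g2, mul_zero, zero_smul, zero_smul, add_zero, add_zero, add_zero]
    exact V1.add_mem (V1.add_mem (V1.add_mem hx (V1.smul_mem _ hTw)) (V1.smul_mem _ hb))
      (V1.smul_mem _ hb)

end

end LSCHAIN

open LSCHAIN in
theorem h_LSCHAIN (hS : S_SIEG) : S_LSCHAIN := by
  intro F V _ _ _ _ _ _ Q V0 V1 T h a ha a1 ha1 ha0 hQa hQa1 hker
  have hTa : T a = 0 := by
    have : a ∈ LinearMap.ker T := by
      rw [hker]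
      exact Submodule.subset_span (by simp)
    exact this
  have hTa1 : T a1 = 0 := by
    have : a1 ∈ LinearMap.ker T := by
      rw [hker]
      exact Submodule.subset_span (by simp)
    exact this
  have haa1 : polar Q a a1 = 0 := h.orth _ ha _ ha1
  have hrange : ∀ x, polar Q a x = 0 → polar Q a1 x = 0 → ∃ y, T y = x := by
    intro x h1 h2
    apply range_of_orth Q h.nd T h.adj
    intro k hk
    have hk2 : k ∈ LinearMap.ker T := hk
    rw [hker, Submodule.mem_span_pair] at hk2
    obtain ⟨α, β, rfl⟩ := hk2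
    rw [pal, psl, psl, h1, h2, mul_zero, mul_zero, add_zero]
  obtain ⟨b, hb, hTb⟩ := preim1 h ha (hrange a (polar_self' Q a) (by rw [polar_comm]; exact haa1))
  obtain ⟨v, hv, hTv⟩ := preim0 h ha1 (hrange a1 haa1 (polar_self' Q a1))
  by_cases hne : polar Q b a1 = 0
  swap
  · right
    exact chain_hyp h ha ha1 hQa hker hTa hTa1 hb hv hTb hTv hne
  left
  obtain ⟨l, hl⟩ := isSquare_of_charTwo' (Q b * (Q a1)⁻¹)
  obtain ⟨k, hk⟩ := isSquare_of_charTwo' ((Q a1)⁻¹)
  have hbV : b + l • a1 ∈ V1 := V1.add_mem hb (V1.smul_mem _ ha1)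
  have hTb' : T (b + l • a1) = a := by rw [map_add, map_smul, hTb, hTa1, smul_zero, add_zero]
  have hQb' : Q (b + l • a1) = 0 := by
    rw [Q_add, Q_smul, psr, hne, mul_zero, add_zero, ← hl, mul_assoc, inv_mul_cancel₀ hQa1, mul_one]
    exact CharTwo.add_self_eq_zero _
  have hba1 : polar Q (b + l • a1) a1 = 0 := by
    rw [pal, psl, polar_self', hne, mul_zero, add_zero]
  obtain ⟨r, hr, hTr⟩ := preim0 h hbV (hrange (b + l • a1) (h.orth _ ha _ hbV)
    (by rw [polar_comm]; exact hba1))
  have hTw : T (r + k • v) = b + l • a1 + k • a1 := by rw [map_add, map_smul, hTr, hTv]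
  have haw : polar Q a (r + k • v) = 0 := by
    have f1 : polar Q a r = 0 := by
      rw [← hTb', h.adj, hTr, polar_self']
    have f2 : polar Q a v = 0 := by
      rw [← hTb, h.adj, hTv, hne]
    rw [par, psr, f1, f2, mul_zero, add_zero]
  refine chain_com hS h ha ha0 hQa hTa hbV hTb' hQb' (V0.add_mem hr (V0.smul_mem k hv)) ?_ ?_ haw ?_
  · rw [hTw, map_add, map_smul, hTb', hTa1, smul_zero, add_zero]
  · rw [hTw, Q_add, Q_smul, psr, hQb', hba1, mul_zero, add_zero, zero_add, ← hk,
      inv_mul_cancel₀ hQa1]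
  · rw [← h.adj, hTb']
    exact haw

end Pool.Agent.H330.EvenQ
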