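import Pool.Agent.H330.EvenQ.Spec

/-!
# The split nilpotent case with two singular kernel vectors
-/

set_option autoImplicit false

namespace Pool.Agent.H330.EvenQ

open QuadraticMap Module

namespace LSCROSS

variable {F V : Type} [Field F] [AddCommGroup V] [Module F V]

theorem pss [CharP F 2] (Q : QuadraticForm F V) (x : V) : polar Q x x = 0 := by
  rw [polar_self, two_nsmul]
  exact CharTwo.add_self_eq_zero _

/-- the polar form -/
noncomputable def Bf (Q : QuadraticForm F V) : LinearMap.BilinForm F V := Q.polarBilin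

theorem Bf_apply (Q : QuadraticForm F V) (x y : V) : Bf Q x y = polar Q x y := rfl

theorem Bf_nd {Q : QuadraticForm F V} (h : Nondeg Q) : (Bf Q).Nondegenerate :=
  ⟨fun x hx => h x hx, fun y hy => h y (fun x => by rw [polar_comm]; exact hy x)⟩

theorem Bf_refl (Q : QuadraticForm F V) : (Bf Q).IsRefl := fun x y h => by
  rw [Bf_apply, polar_comm]
  exact h

theorem even_V [CharP F 2] [FiniteDimensional F V] (hE : S_EVEN) {Q : QuadraticForm F V}
    (h : Nondeg Q) : Even (finrank F V) := by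
  have h1 := hE F V (Bf Q) (fun x => pss Q x)
  have h2 := LinearMap.finrank_range_add_finrank_ker (Bf Q)
  have h3 : LinearMap.ker (Bf Q) = ⊥ := by
    rw [LinearMap.ker_eq_bot']
    intro x hx
    exact h x (fun y => by rw [← Bf_apply, hx]; rfl)
  rw [h3, finrank_bot, add_zero] at h2
  rwa [h2] at h1

theorem fin_ker_inf [FiniteDimensional F V] (f : V →ₗ[F] F) (K : Submodule F V) :
    finrank F K ≤ finrank F (K ⊓ LinearMap.ker f : Submodule F V) + 1 := by
  have h1 := LinearMap.finrank_range_add_finrank_ker (f.domRestrict K)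
  have h2 : finrank F (LinearMap.range (f.domRestrict K)) ≤ 1 := by
    have := Submodule.finrank_le (LinearMap.range (f.domRestrict K))
    rwa [finrank_self] at this
  have h3 : finrank F (LinearMap.ker (f.domRestrict K)) ≤
      finrank F (K ⊓ LinearMap.ker f : Submodule F V) := by
    rw [← Submodule.finrank_map_subtype_eq K (LinearMap.ker (f.domRestrict K))]
    apply Submodule.finrank_mono
    rintro x ⟨y, hy, rfl⟩
    exact ⟨y.2, hy⟩
  omega

variable {Q : QuadraticForm F V} {V0 V1 : Submodule F V} {T : V →ₗ[F] V}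

theorem dec (h : LSset Q V0 V1 T) (x : V) : ∃ x0 ∈ V0, ∃ x1 ∈ V1, x = x0 + x1 := by
  have : x ∈ V0 ⊔ V1 := by
    rw [h.compl.sup_eq_top]
    trivial
  obtain ⟨x0, h0, x1, h1, e⟩ := Submodule.mem_sup.1 this
  exact ⟨x0, h0, x1, h1, e.symm⟩

theorem orth' (h : LSset Q V0 V1 T) {x y : V} (hx : x ∈ V1) (hy : y ∈ V0) : polar Q x y = 0 := by
  rw [polar_comm]
  exact h.orth y hy x hx

theorem uniq (h : LSset Q V0 V1 T) {x0 y0 x1 y1 : V} (hx0 : x0 ∈ V0) (hy0 : y0 ∈ V0)
    (hx1 : x1 ∈ V1) (hy1 : y1 ∈ V1) (e : x0 + x1 = y0 + y1) : x0 = y0 ∧ x1 = y1 := by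
  have e1 : x0 - y0 = y1 - x1 := by
    rw [sub_eq_sub_iff_add_eq_add, e]
    exact add_comm _ _
  have h0 : x0 - y0 ∈ V0 := V0.sub_mem hx0 hy0
  have h1 : x0 - y0 ∈ V1 := by
    rw [e1]
    exact V1.sub_mem hy1 hx1
  have h2 : x0 - y0 = 0 := by
    have : x0 - y0 ∈ V0 ⊓ V1 := ⟨h0, h1⟩
    rw [h.compl.inf_eq_bot] at this
    exact this
  refine ⟨sub_eq_zero.1 h2, ?_⟩
  rw [h2] at e1
  exact (sub_eq_zero.1 e1.symm).symm

theorem alt [CharP F 2] (h : LSset Q V0 V1 T) (x : V) : polar Q (T x) x = 0 := by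
  obtain ⟨x0, h0, x1, h1, rfl⟩ := dec h x
  rw [map_add, polar_add_left, polar_add_right, polar_add_right, orth' h (h.t0 x0 h0) h0,
    h.orth (T x1) (h.t1 x1 h1) x1 h1, zero_add, add_zero, h.adj x1 x0, polar_comm Q x1 (T x0)]
  exact CharTwo.add_self_eq_zero _

/-- a partner of a vector in `V0` -/
theorem part0 (h : LSset Q V0 V1 T) {a : V} (ha : a ∈ V0) (hne : a ≠ 0) :
    ∃ w ∈ V0, polar Q w a = 1 := by
  have : ∃ y, polar Q a y ≠ 0 := by
    by_contra hc
    push Not at hc
    exact hne (h.nd a hc)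
  obtain ⟨y, hy⟩ := this
  obtain ⟨y0, h0, y1, h1, rfl⟩ := dec h y
  rw [polar_add_right, h.orth a ha y1 h1, add_zero] at hy
  refine ⟨(polar Q a y0)⁻¹ • y0, V0.smul_mem _ h0, ?_⟩
  rw [polar_smul_left, smul_eq_mul, polar_comm Q y0 a, inv_mul_cancel₀ hy]

theorem swapset (h : LSset Q V0 V1 T) : LSset Q V1 V0 T :=
  ⟨h.nd, h.compl.symm, fun _ hx _ hy => orth' h hx hy, h.t1, h.t0, h.adj, h.nil⟩

/-- the first nonzero iterate outside `S` -/
theorem exists_b {S P : Submodule F V} (hTP : ∀ x ∈ P, T x ∈ P)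
    (hn : IsNilpotent T) (hPS : ¬ P ≤ S) : ∃ b ∈ P, b ∉ S ∧ T b ∈ S := by
  obtain ⟨x, hx, hxS⟩ := SetLike.not_le_iff_exists.1 hPS
  obtain ⟨n, hn⟩ := hn
  have key : ∀ k : ℕ, (T ^ k) x ∈ P := by
    intro k
    induction k with
    | zero => simpa using hx
    | succ k ih =>
      rw [pow_succ']
      exact hTP _ ih
  have hex : ∃ k : ℕ, (T ^ k) x ∈ S := ⟨n, by rw [hn]; exact S.zero_mem⟩
  classical
  have hk := Nat.find_spec hex
  have hk0 : Nat.find hex ≠ 0 := by
    intro h0
    rw [h0] at hk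
    exact hxS (by simpa using hk)
  obtain ⟨m, hm⟩ := Nat.exists_eq_succ_of_ne_zero hk0
  have hm' := Nat.find_min hex (m := m) (by omega)
  refine ⟨(T ^ m) x, key m, hm', ?_⟩
  rw [hm, Nat.succ_eq_add_one, pow_succ'] at hk
  exact hk

theorem main_b [CharP F 2] [FiniteDimensional F V] (hE : S_EVEN) (h : LSset Q V0 V1 T)
    {a0 a1 : V} (h0 : a0 ∈ V0) (h1 : a1 ∈ V1) (n0 : a0 ≠ 0) (n1 : a1 ≠ 0)
    (T0 : T a0 = 0) (T1 : T a1 = 0) :
    finrank F V = 4 ∨ ∃ b0 ∈ V0, ∃ b1 ∈ V1, ∃ t : F, polar Q b0 a0 = 0 ∧ polar Q b1 a1 = 0 ∧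
      T b0 = t • a1 ∧ T b1 = t • a0 ∧
      ¬ ((∃ s : F, b0 = s • a0) ∧ ∃ s : F, b1 = s • a1) := by
  obtain ⟨S, hS⟩ : ∃ S, S = Submodule.span F {a0, a1} := ⟨_, rfl⟩
  have memS : ∀ x, x ∈ S ↔ ∃ s t : F, s • a0 + t • a1 = x := by
    intro x
    rw [hS, Submodule.mem_span_pair]
  have hTS : ∀ x ∈ S, T x = 0 := by
    intro x hx
    obtain ⟨s, t, rfl⟩ := (memS x).1 hx
    rw [map_add, map_smul, map_smul, T0, T1, smul_zero, smul_zero, add_zero]
  have ha0 : a0 ∈ S := (memS _).2 ⟨1, 0, by simp⟩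
  have ha1 : a1 ∈ S := (memS _).2 ⟨0, 1, by simp⟩
  -- the dimension of `S`
  have finS : finrank F S = 2 := by
    have li : LinearIndependent F ![a0, a1] := by
      rw [LinearIndependent.pair_iff]
      intro s t hst
      have := uniq h (V0.smul_mem s h0) V0.zero_mem (V1.smul_mem t h1) V1.zero_mem
        (by rw [hst, add_zero])
      exact ⟨(smul_eq_zero.1 this.1).resolve_right n0, (smul_eq_zero.1 this.2).resolve_right n1⟩
    have e := finrank_span_eq_card li
    rw [Fintype.card_fin] at e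
    have e2 : Set.range ![a0, a1] = {a0, a1} := by
      simp [Set.pair_comm]
    rw [e2] at e
    rw [hS]
    exact e
  obtain ⟨P, hP⟩ : ∃ P, P = (Bf Q).orthogonal S := ⟨_, rfl⟩
  have memP : ∀ x, x ∈ P ↔ polar Q x a0 = 0 ∧ polar Q x a1 = 0 := by
    intro x
    rw [hP, LinearMap.BilinForm.mem_orthogonal_iff]
    constructor
    · intro hx
      refine ⟨?_, ?_⟩
      · rw [polar_comm]
        exact hx a0 ha0
      · rw [polar_comm]
        exact hx a1 ha1
    · intro hx y hy
      obtain ⟨s, t, rfl⟩ := (memS y).1 hy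
      change polar Q (s • a0 + t • a1) x = 0
      rw [polar_add_left, polar_smul_left, polar_smul_left, polar_comm Q a0 x,
        polar_comm Q a1 x, hx.1, hx.2, smul_zero, smul_zero, add_zero]
  have hSP : S ≤ P := by
    intro x hx
    obtain ⟨s, t, rfl⟩ := (memS x).1 hx
    rw [memP]
    constructor
    · rw [polar_add_left, polar_smul_left, polar_smul_left, pss, orth' h h1 h0, smul_zero,
        smul_zero, add_zero]
    · rw [polar_add_left, polar_smul_left, polar_smul_left, pss, h.orth a0 h0 a1 h1, smul_zero,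
        smul_zero, add_zero]
  have hTP : ∀ x ∈ P, T x ∈ P := by
    intro x _
    rw [memP, h.adj, h.adj, T0, T1, polar_zero_right]
    exact ⟨rfl, rfl⟩
  have finP : finrank F P = finrank F V - 2 := by
    rw [hP, LinearMap.BilinForm.finrank_orthogonal (Bf_nd h.nd), finS]
  have evV := even_V hE h.nd
  by_cases hPS : P ≤ S
  · left
    have e : P = S := le_antisymm hPS hSP
    rw [e, finS] at finP
    omega
  right
  -- the alternating form on `P`
  let γ : P →ₗ[F] P →ₗ[F] F := LinearMap.mk₂ F (fun x y => polar Q (T (x : V)) (y : V))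
    (fun x x' y => by
      change polar Q (T ((x : V) + (x' : V))) (y : V) = _
      rw [map_add, polar_add_left])
    (fun c x y => by
      change polar Q (T (c • (x : V))) (y : V) = _
      rw [map_smul, polar_smul_left])
    (fun x y y' => by
      change polar Q (T (x : V)) ((y : V) + (y' : V)) = _
      rw [polar_add_right])
    (fun c x y => by
      change polar Q (T (x : V)) (c • (y : V)) = _
      rw [polar_smul_right])
  have hγ : ∀ x y : P, γ x y = polar Q (T (x : V)) (y : V) := fun _ _ => rfl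
  have ev1 := hE F P γ (fun x => alt h (x : V))
  have rn := LinearMap.finrank_range_add_finrank_ker γ
  obtain ⟨K, hK⟩ : ∃ K, K = (LinearMap.ker γ).map P.subtype := ⟨_, rfl⟩
  have finK : finrank F K = finrank F (LinearMap.ker γ) := by
    rw [hK]
    exact Submodule.finrank_map_subtype_eq P (LinearMap.ker γ)
  have orr : (Bf Q).orthogonal P = S := by
    rw [hP]
    exact LinearMap.BilinForm.orthogonal_orthogonal (Bf_nd h.nd) (Bf_refl Q) S
  have memK : ∀ x, x ∈ K ↔ x ∈ P ∧ T x ∈ S := by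
    intro x
    rw [hK]
    constructor
    · rintro ⟨y, hy, rfl⟩
      refine ⟨y.2, ?_⟩
      rw [← orr, LinearMap.BilinForm.mem_orthogonal_iff]
      intro z hz
      have h3 := LinearMap.congr_fun (LinearMap.mem_ker.1 hy) ⟨z, hz⟩
      rw [hγ] at h3
      change polar Q z (T (y : V)) = 0
      rw [polar_comm]
      exact h3
    · rintro ⟨hx, hTx⟩
      refine ⟨⟨x, hx⟩, ?_, rfl⟩
      apply LinearMap.mem_ker.2
      apply LinearMap.ext
      intro z
      rw [hγ]
      rw [← orr, LinearMap.BilinForm.mem_orthogonal_iff] at hTx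
      have h3 := hTx z.1 z.2
      change polar Q (T x) (z : V) = 0
      rw [polar_comm]
      exact h3
  have hSK : S ≤ K := fun x hx => (memK x).2 ⟨hSP hx, by rw [hTS x hx]; exact S.zero_mem⟩
  obtain ⟨b', hb'P, hb'S, hTb'⟩ := exists_b (T := T) hTP h.nil hPS
  have hlt : S < K := lt_of_le_of_ne hSK (fun e => hb'S (by rw [e]; exact (memK b').2 ⟨hb'P, hTb'⟩))
  have finK2 := Submodule.finrank_lt_finrank_of_lt hlt
  rw [finS] at finK2
  have finK4 : 4 ≤ finrank F K := by
    obtain ⟨m, hm⟩ := evV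
    obtain ⟨m', hm'⟩ := ev1
    omega
  -- the functional
  obtain ⟨w0, hw0, hw0a⟩ := part0 h h0 n0
  obtain ⟨w1, hw1, hw1a⟩ := part0 (swapset h) h1 n1
  have hf := fin_ker_inf (((Bf Q) (w0 + w1)).comp T) K
  have hnot : ¬ (K ⊓ LinearMap.ker (((Bf Q) (w0 + w1)).comp T) : Submodule F V) ≤ S := by
    intro hle
    have := Submodule.finrank_mono hle
    omega
  obtain ⟨b, hbK, hbS⟩ := SetLike.not_le_iff_exists.1 hnot
  obtain ⟨hbP, hTb⟩ := (memK b).1 hbK.1
  obtain ⟨t0, t1, ht⟩ := (memS _).1 hTb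
  have hfb : polar Q (w0 + w1) (T b) = 0 := LinearMap.mem_ker.1 hbK.2
  have htt : t0 = t1 := by
    rw [← ht, polar_add_right, polar_smul_right, polar_smul_right, polar_add_left,
      polar_add_left, hw0a, hw1a, orth' h hw1 h0, h.orth w0 hw0 a1 h1, zero_add, add_zero,
      smul_eq_mul, smul_eq_mul, mul_one, mul_one] at hfb
    exact CharTwo.add_eq_zero.1 hfb
  subst htt
  obtain ⟨b0, hb0, b1, hb1, rfl⟩ := dec h b
  have hb := (memP _).1 hbP
  rw [polar_add_left, polar_add_left, orth' h hb1 h0, h.orth b0 hb0 a1 h1, add_zero,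
    zero_add] at hb
  have e : T b1 + T b0 = t0 • a0 + t0 • a1 := by
    rw [ht, map_add, add_comm]
  obtain ⟨e1, e0⟩ := uniq h (h.t1 b1 hb1) (V0.smul_mem t0 h0) (h.t0 b0 hb0)
    (V1.smul_mem t0 h1) e
  refine ⟨b0, hb0, b1, hb1, t0, hb.1, hb.2, e0, e1, ?_⟩
  rintro ⟨⟨s, hs⟩, ⟨s', hs'⟩⟩
  exact hbS ((memS _).2 ⟨s, s', by rw [hs, hs']⟩)

theorem two_le [CharP F 2] [FiniteDimensional F V] (h : LSset Q V0 V1 T) {a : V} (ha : a ∈ V0)
    (hne : a ≠ 0) : 2 ≤ finrank F V0 := by
  obtain ⟨w, hw, hwa⟩ := part0 h ha hne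
  have li : LinearIndependent F ![(⟨a, ha⟩ : V0), ⟨w, hw⟩] := by
    rw [LinearIndependent.pair_iff]
    intro s t hst
    have e : s • a + t • w = 0 := congrArg Subtype.val hst
    have e1 : polar Q (s • a + t • w) a = 0 := by rw [e, polar_zero_left]
    rw [polar_add_left, polar_smul_left, polar_smul_left, pss, hwa, smul_zero, zero_add,
      smul_eq_mul, mul_one] at e1
    subst e1
    rw [zero_smul, add_zero] at e
    exact ⟨(smul_eq_zero.1 e).resolve_right hne, rfl⟩
  have := li.fintype_card_le_finrank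
  rwa [Fintype.card_fin] at this

theorem hyp_of [FiniteDimensional F V] {a : V} {W : Submodule F V} (ha : a ∈ W)
    (hne : a ≠ 0) (hQ : Q a = 0) (hd : finrank F W = 2) : Hyp Q W := by
  refine ⟨Submodule.span F {a}, ?_, ?_, ?_⟩
  · rw [Submodule.span_singleton_le_iff_mem]
    exact ha
  · intro x hx
    obtain ⟨s, rfl⟩ := Submodule.mem_span_singleton.1 hx
    rw [QuadraticMap.map_smul, hQ, smul_zero]
  · rw [finrank_span_singleton hne, hd]

end LSCROSS

open LSCROSS in
theorem h_LSCROSS (hE : S_EVEN) (hS : S_SIEG) : S_LSCROSS := by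
  intro F V _ _ _ _ _ _ Q V0 V1 T h a0 h0 a1 h1 n0 n1 q0 q1 T0 T1
  rcases main_b hE h h0 h1 n0 n1 T0 T1 with hd | ⟨b0, hb0, b1, hb1, t, p0, p1, tb0, tb1, hnot⟩
  · right
    have d0 := two_le h h0 n0
    have d1 := two_le (swapset h) h1 n1
    have d2 := Submodule.finrank_add_eq_of_isCompl h.compl
    exact ⟨hyp_of h0 n0 q0 (by omega), hyp_of h1 n1 q1 (by omega)⟩
  · left
    obtain ⟨g0, _, g0S, g0e, _⟩ := hS F V Q h.nd a0 b0 q0 (by rw [polar_comm]; exact p0)
    obtain ⟨g1, _, g1S, g1e, _⟩ := hS F V Q h.nd a1 b1 q1 (by rw [polar_comm]; exact p1)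
    have f0 : ∀ x ∈ V0, (g0 * g1) x = sieg Q a0 b0 x := by
      intro x hx
      change g0 (g1 x) = _
      rw [g1e]
      have e : sieg Q a1 b1 x = x := by
        unfold sieg
        rw [h.orth x hx a1 h1, h.orth x hx b1 hb1, zero_smul, zero_smul, mul_zero, zero_smul,
          add_zero, add_zero, add_zero]
      rw [e, g0e]
    have f1 : ∀ x ∈ V1, (g0 * g1) x = sieg Q a1 b1 x := by
      intro x hx
      change g0 (g1 x) = _
      rw [g1e]
      have hm : sieg Q a1 b1 x ∈ V1 := by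
        unfold sieg
        exact V1.add_mem (V1.add_mem (V1.add_mem hx (V1.smul_mem _ hb1)) (V1.smul_mem _ h1))
          (V1.smul_mem _ h1)
      rw [g0e]
      generalize sieg Q a1 b1 x = y at hm
      unfold sieg
      rw [orth' h hm h0, orth' h hm hb0, zero_smul, zero_smul, mul_zero, zero_smul,
        add_zero, add_zero, add_zero]
    have m0 : ∀ x ∈ V0, (g0 * g1) x ∈ V0 := by
      intro x hx
      rw [f0 x hx]
      unfold sieg
      exact V0.add_mem (V0.add_mem (V0.add_mem hx (V0.smul_mem _ hb0)) (V0.smul_mem _ h0))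
        (V0.smul_mem _ h0)
    have m1 : ∀ x ∈ V1, (g0 * g1) x ∈ V1 := by
      intro x hx
      rw [f1 x hx]
      unfold sieg
      exact V1.add_mem (V1.add_mem (V1.add_mem hx (V1.smul_mem _ hb1)) (V1.smul_mem _ h1))
        (V1.smul_mem _ h1)
    have c0 : ∀ x ∈ V0, (g0 * g1) (T x) = T ((g0 * g1) x) := by
      intro x hx
      rw [f0 x hx, f1 _ (h.t0 x hx)]
      unfold sieg
      rw [map_add, map_add, map_add, map_smul, map_smul, map_smul, T0, tb0, h.adj x a1, T1,
        polar_zero_right, h.adj x b1, tb1, polar_smul_right, smul_zero, smul_zero, mul_zero,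
        zero_smul, zero_smul, add_zero, add_zero, add_zero, add_zero, smul_eq_mul, smul_smul,
        mul_comm]
    have c1 : ∀ x ∈ V1, (g0 * g1) (T x) = T ((g0 * g1) x) := by
      intro x hx
      rw [f1 x hx, f0 _ (h.t1 x hx)]
      unfold sieg
      rw [map_add, map_add, map_add, map_smul, map_smul, map_smul, T1, tb1, h.adj x a0, T0,
        polar_zero_right, h.adj x b0, tb0, polar_smul_right, smul_zero, smul_zero, mul_zero,
        zero_smul, zero_smul, add_zero, add_zero, add_zero, add_zero, smul_eq_mul, smul_smul,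
        mul_comm]
    refine ⟨g0 * g1, (Sg Q).mul_mem g0S g1S, ?_, ?_, m0, m1⟩
    · intro hone
      apply hnot
      obtain ⟨w0, hw0, hw0a⟩ := part0 h h0 n0
      obtain ⟨w1, hw1, hw1a⟩ := part0 (swapset h) h1 n1
      have e0 := f0 w0 hw0
      have e1 := f1 w1 hw1
      rw [hone] at e0 e1
      change w0 = _ at e0
      change w1 = _ at e1
      unfold sieg at e0 e1
      rw [hw0a, one_smul, mul_one] at e0
      rw [hw1a, one_smul, mul_one] at e1
      constructor
      · refine ⟨-(polar Q w0 b0 + Q b0), ?_⟩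
        have e2 : b0 + polar Q w0 b0 • a0 + Q b0 • a0 = 0 := by
          have := e0
          rw [add_assoc, add_assoc] at this
          have h5 := left_eq_add.1 this
          rw [← add_assoc] at h5
          exact h5
        rw [neg_smul, add_smul]
        rw [add_assoc] at e2
        exact eq_neg_of_add_eq_zero_left e2
      · refine ⟨-(polar Q w1 b1 + Q b1), ?_⟩
        have e2 : b1 + polar Q w1 b1 • a1 + Q b1 • a1 = 0 := by
          have := e1
          rw [add_assoc, add_assoc] at this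
          have h5 := left_eq_add.1 this
          rw [← add_assoc] at h5
          exact h5
        rw [neg_smul, add_smul]
        rw [add_assoc] at e2
        exact eq_neg_of_add_eq_zero_left e2
    · intro x
      obtain ⟨x0, hx0, x1, hx1, rfl⟩ := dec h x
      rw [map_add, map_add, map_add, map_add, c0 x0 hx0, c1 x1 hx1]

end Pool.Agent.H330.EvenQ
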