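import Pool.Agent.H330.EvenQ.Spec

namespace Pool.Agent.H330.EvenQ

open QuadraticMap Module Polynomial

namespace LSJ

section Ring

variable {R : Type} [Ring R] [CharP R 2]

theorem pow_step {T n : R} (h : n = T ^ 2 + n ^ 2) (hc : Commute T n) (j : ℕ) :
    n ^ (2 ^ j) = T ^ (2 ^ (j + 1)) + n ^ (2 ^ (j + 1)) := by
  induction j with
  | zero => simpa using h
  | succ j ih =>
    have hc' : Commute (T ^ (2 ^ (j + 1))) (n ^ (2 ^ (j + 1))) := hc.pow_pow _ _
    have e1 : n ^ (2 ^ (j + 1)) = (n ^ (2 ^ j)) ^ 2 := by rw [← pow_mul, pow_succ]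
    rw [e1, ih, hc'.add_sq]
    have e2 : (2 : R) = 0 := CharTwo.two_eq_zero
    rw [e2, zero_mul, zero_mul, add_zero, ← pow_mul, ← pow_mul, ← pow_succ]

theorem commute_of_nil {T n c : R} (h : n = T ^ 2 + n ^ 2) (hc : Commute T n) (hn : IsNilpotent n)
    (hcT : Commute c T) : Commute c n := by
  obtain ⟨k, hk⟩ := hn
  have key : ∀ i : ℕ, i ≤ k → Commute c (n ^ (2 ^ (k - i))) := by
    intro i
    induction i with
    | zero =>
      intro _
      have : n ^ (2 ^ k) = 0 := by
        obtain ⟨d, hd⟩ := Nat.exists_eq_add_of_le (Nat.lt_two_pow_self (n := k)).le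
        rw [hd, pow_add, hk, zero_mul]
      rw [Nat.sub_zero, this]
      exact Commute.zero_right c
    | succ i ih =>
      intro hi
      have h1 := ih (by omega)
      have e : k - i = (k - (i + 1)) + 1 := by omega
      rw [e] at h1
      rw [pow_step h hc (k - (i + 1))]
      exact (hcT.pow_right _).add_right h1
  have := key k le_rfl
  simpa using this

end Ring

end LSJ

theorem h_LSJ (hA : S_ALG) (hL : S_LS) : S_LSJ := by
  intro F V _ _ _ _ _ _ Q nd nt ν J J' hJ hJ' s hs hn hμ
  obtain ⟨μ, hμ⟩ := hμ
  obtain ⟨a1, a2, a3, a4, a5, a6, a7, a8, -, -⟩ := hA F V Q ν J J' hJ hJ'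
  have c2 : ∀ x : F, x + x = 0 := fun x => CharTwo.add_self_eq_zero x
  have v2 : ∀ x : V, x + x = 0 := fun x => by
    rw [← two_smul F x, CharTwo.two_eq_zero, zero_smul]
  have mem : ∀ (ρ : F) (x : V), x ∈ eig J ρ ↔ J x = ρ • x := by
    intro ρ x
    unfold eig
    rw [LinearMap.mem_ker, LinearMap.sub_apply, LinearMap.smul_apply, LinearMap.id_apply, sub_eq_zero]
  have hν : ν = μ * μ + μ := by
    rw [hμ, add_comm μ ν, add_assoc, c2, add_zero]
  set T := TT J J' with hT
  set Z := ZZ J J' with hZ
  set n : V →ₗ[F] V := Z + s • LinearMap.id with hndef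
  have hss : s * s = s := by rcases hs with rfl | rfl <;> simp
  have nap : ∀ x, n x = Z x + s • x := fun x => rfl
  -- T² = n + n²
  have hTn : ∀ x, T (T x) = n x + n (n x) := by
    intro x
    rw [a5, nap, nap, map_add, map_smul, smul_add, smul_smul, hss]
    have := v2 (s • Z x)
    have h3 := v2 (s • x)
    calc Z x + Z (Z x) = Z x + Z (Z x) + (s • Z x + s • Z x) + (s • x + s • x) := by
          rw [this, h3, add_zero, add_zero]
      _ = _ := by abel
  have hZn : ∀ x, Z x = n x + s • x := by
    intro x
    rw [nap, add_assoc, v2, add_zero]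
  have hTZ : ∀ x, T (n x) = n (T x) := by
    intro x
    rw [nap, nap, map_add, map_smul, a4]
  have : CharP (Module.End F V) 2 := by
    have : Function.Injective (algebraMap F (Module.End F V)) :=
      FaithfulSMul.algebraMap_injective F (Module.End F V)
    exact charP_of_injective_algebraMap this 2
  have hnT : (n : Module.End F V) = (T : Module.End F V) ^ 2 + (n : Module.End F V) ^ 2 := by
    ext x
    rw [pow_two, pow_two]
    change n x = T (T x) + n (n x)
    rw [hTn, add_assoc, v2, add_zero]
  have hcTn : Commute (T : Module.End F V) (n : Module.End F V) := by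
    ext x
    exact hTZ x
  have hset : LSset Q (eig J μ) (eig J (μ + 1)) T := by
    refine ⟨nd, ⟨?_, ?_⟩, ?_, ?_, ?_, a7, ?_⟩
    · rw [Submodule.disjoint_def]
      intro x hx hy
      rw [mem] at hx hy
      rw [hx, add_smul, one_smul] at hy
      exact (left_eq_add.1 hy)
    · rw [codisjoint_iff, eq_top_iff]
      intro x _
      have e : x = (J x + (μ + 1) • x) + (J x + μ • x) := by
        have h1 := v2 (J x)
        have h2 := v2 (μ • x)
        rw [add_smul, one_smul]
        calc x = x + (J x + J x) + (μ • x + μ • x) := by rw [h1, h2, add_zero, add_zero]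
          _ = _ := by abel
      rw [e]
      refine Submodule.add_mem_sup ?_ ?_
      · rw [mem, map_add, map_smul, hJ.sq, hν]
        simp only [add_smul, smul_add, one_smul, smul_smul]
        have h1 := v2 (J x)
        calc J x + ((μ * μ) • x + μ • x) + (μ • J x + J x)
            = (J x + J x) + (μ • J x + ((μ * μ) • x + μ • x)) := by abel
          _ = _ := by rw [h1, zero_add]
      · rw [mem, map_add, map_smul, hJ.sq, hν]
        have e3 : (μ + 1) * μ = μ * μ + μ := by ring
        simp only [add_smul, smul_add, one_smul, smul_smul, e3]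
        abel
    · intro x hx y hy
      rw [mem] at hx hy
      have h := hJ.adj x y
      rw [hx, hy, polar_smul_left, polar_smul_right, smul_eq_mul, smul_eq_mul, add_mul, one_mul] at h
      exact (left_eq_add.1 h)
    · intro x hx
      rw [mem] at hx ⊢
      have h := a1 x
      rw [hx, map_smul] at h
      rw [add_smul, one_smul, h, add_assoc, v2, add_zero]
    · intro x hx
      rw [mem] at hx ⊢
      have h := a1 x
      rw [hx, map_smul, add_smul, one_smul] at h
      exact (add_right_cancel h).symm
    · have h1 : IsNilpotent ((T : Module.End F V) ^ 2) := by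
        have e : (T : Module.End F V) ^ 2 = n * (1 + n) := by
          ext x
          rw [pow_two, mul_add, mul_one]
          change T (T x) = n x + n (n x)
          exact hTn x
        rw [e]
        have hc1 : Commute (n : Module.End F V) (1 + n) :=
          (Commute.one_right _).add_right (Commute.refl _)
        obtain ⟨k, hk⟩ := hn
        refine ⟨k, ?_⟩
        have hk' : (n : Module.End F V) ^ k = 0 := hk
        rw [hc1.mul_pow, hk', zero_mul]
      obtain ⟨k, hk⟩ := h1
      exact ⟨2 * k, by rw [pow_mul]; exact hk⟩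
  have fsup : finrank F (eig J μ) + finrank F (eig J (μ + 1)) = finrank F V :=
    Submodule.finrank_add_eq_of_isCompl hset.compl
  rcases hL F V Q (eig J μ) (eig J (μ + 1)) T hset nt with h | ⟨h0, h1⟩ | ⟨h01, x, hx, hxm, hTx⟩
  · -- LSA
    left
    obtain ⟨c, hc, hc1, hcT, hc0, hc1'⟩ := h
    have cJ : ∀ x, c (J x) = J (c x) := by
      intro x
      have hx : x ∈ eig J μ ⊔ eig J (μ + 1) := by
        rw [hset.compl.sup_eq_top]; trivial
      obtain ⟨y, hy, z, hz, rfl⟩ := Submodule.mem_sup.1 hx
      have hy' := (mem _ _).1 (hc0 y hy)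
      have hz' := (mem _ _).1 (hc1' z hz)
      rw [map_add, map_add, map_add, map_add, (mem _ _).1 hy, (mem _ _).1 hz, hy', hz', map_smul,
        map_smul]
    have cn : ∀ x, c (n x) = n (c x) := by
      have hcT' : Commute (c.toLinearMap : Module.End F V) (T : Module.End F V) := by
        ext x
        exact hcT x
      have := LSJ.commute_of_nil hnT hcTn hn hcT'
      intro x
      exact LinearMap.congr_fun this.eq x
    refine ⟨c, hc, hc1, cJ, fun x => ?_⟩
    rw [a6, a6, map_add, map_add, cJ, hcT, hZn, hZn, map_add, map_smul, cn]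
  · -- both hyperbolic
    right; left
    obtain ⟨S0, hS0, hQ0, hd0⟩ := h0
    obtain ⟨S1, hS1, hQ1, hd1⟩ := h1
    refine ⟨S0 ⊔ S1, ?_, ?_, ?_⟩
    · intro x hx
      obtain ⟨y, hy, z, hz, rfl⟩ := Submodule.mem_sup.1 hx
      rw [map_add, (mem _ _).1 (hS0 hy), (mem _ _).1 (hS1 hz)]
      exact Submodule.add_mem_sup (S0.smul_mem _ hy) (S1.smul_mem _ hz)
    · intro x hx
      obtain ⟨y, hy, z, hz, rfl⟩ := Submodule.mem_sup.1 hx
      have h := QuadraticMap.map_add (⇑Q) y z
      rw [h, hQ0 y hy, hQ1 z hz, hset.orth y (hS0 hy) z (hS1 hz), add_zero, add_zero]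
    · have hdis : S0 ⊓ S1 = ⊥ := by
        rw [eq_bot_iff, ← hset.compl.inf_eq_bot]
        exact inf_le_inf hS0 hS1
      have h := Submodule.finrank_sup_add_finrank_inf_eq S0 S1
      rw [hdis, finrank_bot] at h
      omega
  · -- third case
    right; right
    have nx : n x = 0 := by
      have h1 : n x + n (n x) = 0 := by rw [← hTn, hTx, map_zero]
      have h2 : n (n x) = n x := by
        have := v2 (n x)
        exact (add_left_cancel (this.trans h1.symm)).symm
      obtain ⟨k, hk⟩ := hn
      have h3 : ∀ j : ℕ, ((n : Module.End F V) ^ (j + 1)) x = n x := by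
        intro j
        induction j with
        | zero => simp
        | succ j ih =>
          rw [pow_succ', Module.End.mul_apply, ih, h2]
      have h4 := h3 k
      rw [pow_succ, Module.End.mul_apply] at h4
      have hk' : ((n : Module.End F V) ^ k) (n x) = 0 := by
        have : ((n : Module.End F V) ^ k) = 0 := hk
        rw [this]; rfl
      rw [hk'] at h4
      exact h4.symm
    have Jx' : J' x = J x ∨ J' x = J x + x := by
      rw [a6, hTx, hZn, nx, zero_add, add_zero]
      rcases hs with rfl | rfl
      · left; rw [zero_smul, add_zero]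
      · right; rw [one_smul]
    rcases h01 with h0 | h1
    · refine ⟨μ, hμ, h0, x, hx, ?_, Jx'⟩
      rcases hxm with h | h
      · exact Or.inl ((mem _ _).1 h)
      · exact Or.inr ((mem _ _).1 h)
    · refine ⟨μ + 1, ?_, h1, x, hx, ?_, Jx'⟩
      · rw [add_mul, mul_add, mul_one, one_mul, hμ]
        have := c2 μ
        calc μ + ν + μ + (μ + 1) = (μ + μ) + (μ + 1 + ν) := by ring
          _ = _ := by rw [this, zero_add]
      · rcases hxm with h | h
        · right
          rw [(mem _ _).1 h, add_assoc, c2, add_zero]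
        · exact Or.inl ((mem _ _).1 h)

end Pool.Agent.H330.EvenQ
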