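import Pool.Agent.H330.EvenQ.Spec

namespace Pool.Agent.H330.EvenQ

open QuadraticMap Module Polynomial

namespace PRIM

theorem conAo_conAs {F V : Type} [Field F] [AddCommGroup V] [Module F V]
    {Q : QuadraticForm F V} {J J' : V →ₗ[F] V} (h : ConAo Q J J') : ConAs Q J J' := by
  obtain ⟨c, hc, h1, h2, h3⟩ := h
  exact ⟨c, (le_sup_left : Om Q ≤ Sg Q) hc, h1, h2, h3⟩

/-- powers of a `K`-linear and an `F`-linear map with the same values -/
theorem pow_eq {F K V : Type} [Field F] [Field K] [AddCommGroup V] [Module F V] [Module K V]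
    (A : V →ₗ[K] V) (B : V →ₗ[F] V) (h : ∀ x, A x = B x) (n : ℕ) (x : V) :
    (A ^ n) x = (B ^ n) x := by
  induction n generalizing x with
  | zero => simp
  | succ n ih =>
    rw [pow_succ, pow_succ, Module.End.mul_apply, Module.End.mul_apply, h, ih]

/-- the case of a field extension acting on `V` -/
theorem extCase (hF : S_LF) (hQ : S_QK) (hT : S_TRANS) (F K V : Type) [Field F] [Finite F]
    [CharP F 2] [Field K] [Finite K] [Algebra F K] [AddCommGroup V] [Module F V] [Module K V]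
    [IsScalarTower F K V] [FiniteDimensional F V] (Q : QuadraticForm F V) (hnd : Nondeg Q)
    (hV : Nontrivial V) (ν : F) (J J' : V →ₗ[F] V) (hJ : IsJ Q ν J) (hJ' : IsJ Q ν J')
    (h1 : ∀ (l : K) (x y : V), polar Q (l • x) y = polar Q x (l • y))
    (h2 : ∀ (l : K) (x : V), polar Q (l • x) x = 0)
    (h3 : ∀ (l : K) (x : V), J (l • x) = l • J x)
    (h4 : ∀ (l : K) (x : V), J' (l • x) = l • J' x)
    (ζ : K) (hz0 : ζ ≠ 0) (hz1 : ζ ≠ 1) (D : V →ₗ[F] V)
    (hD : ∀ x, D x = ZZ J J' x + ζ • x) (hn : IsNilpotent D) :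
    ConAo Q J J' ∨ ConB Q J := by
  have : CharP K 2 := charP_of_injective_algebraMap (algebraMap F K).injective 2
  have : FiniteDimensional K V := Module.Finite.of_restrictScalars_finite F K V
  obtain ⟨QK, q1, q2⟩ := hQ F K V Q h1 h2
  obtain ⟨t1, t2, t3, t4⟩ := hT F K V Q QK q1 q2 hnd
  let JK : V →ₗ[K] V :=
    { toFun := J, map_add' := J.map_add, map_smul' := fun l x => h3 l x }
  let JK' : V →ₗ[K] V :=
    { toFun := J', map_add' := J'.map_add, map_smul' := fun l x => h4 l x }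
  have e1 : ∀ x, JK x = J x := fun x => rfl
  have e2 : ∀ x, JK' x = J' x := fun x => rfl
  have e3 : ∀ x, (ZZ JK JK' + ζ • LinearMap.id : V →ₗ[K] V) x = D x := by
    intro x
    rw [hD]
    rfl
  have hn' : IsNilpotent (ZZ JK JK' + ζ • LinearMap.id : V →ₗ[K] V) := by
    obtain ⟨n, hn⟩ := hn
    refine ⟨n, LinearMap.ext fun x => ?_⟩
    rw [pow_eq _ D e3 n x, hn]
    rfl
  rcases hF K V QK t1 hV (algebraMap F K ν) JK JK' (t2 ν J JK e1 hJ) (t2 ν J' JK' e2 hJ') ζ hn'
    (Or.inr ⟨hz0, hz1⟩) with h | h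
  · exact Or.inl (t3 J J' JK JK' e1 e2 h)
  · exact Or.inr (t4 J JK e1 h)

theorem expand_card_pow (F : Type) [Field F] [Fintype F] (k : ℕ) (f : F[X]) :
    expand F (Fintype.card F ^ k) f = f ^ (Fintype.card F ^ k) := by
  induction k with
  | zero => simp
  | succ k ih =>
    rw [pow_succ, expand_mul, FiniteField.expand_card, map_pow, ih, ← pow_mul]

/-- the case of degree at least two -/
theorem bigCase (hA : S_ALG) (hF : S_LF) (hQ : S_QK) (hT : S_TRANS) (F V : Type) [Field F]
    [Finite F] [CharP F 2] [AddCommGroup V] [Module F V] [FiniteDimensional F V]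
    (Q : QuadraticForm F V) (hnd : Nondeg Q) (hV : Nontrivial V) (ν : F) (J J' : V →ₗ[F] V)
    (hJ : IsJ Q ν J) (hJ' : IsJ Q ν J') (p : F[X]) (N : ℕ) (hp : Irreducible p)
    (hN : (aeval (ZZ J J') p) ^ N = 0) (hd : p.natDegree ≠ 1) :
    ConAo Q J J' ∨ ConB Q J := by
  have : Fact (Irreducible p) := ⟨hp⟩
  have : Fintype F := Fintype.ofFinite F
  have : Module.Finite F (AdjoinRoot p) := (AdjoinRoot.powerBasis hp.ne_zero).finite
  have : Finite (AdjoinRoot p) := Module.finite_of_finite F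
  have : Fintype (AdjoinRoot p) := Fintype.ofFinite _
  obtain ⟨-, a2, a3, -, -, -, -, -, a9, a10⟩ := hA F V Q ν J J' hJ hJ'
  set Z := ZZ J J' with hZ
  have hcard : Fintype.card (AdjoinRoot p) = Fintype.card F ^ p.natDegree := by
    rw [Module.card_eq_pow_finrank (K := F), (AdjoinRoot.powerBasis hp.ne_zero).finrank]
    rfl
  set m := Fintype.card F ^ (p.natDegree * N) with hm
  have hmN : N ≤ m := by
    have h1 : 1 ≤ p.natDegree := hp.natDegree_pos
    have h2 : 1 < Fintype.card F := Fintype.one_lt_card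
    calc N ≤ p.natDegree * N := Nat.le_mul_of_pos_left _ h1
      _ ≤ m := (Nat.lt_pow_self h2).le
  have hroot : ∀ x : AdjoinRoot p, x ^ m = x := by
    intro x
    rw [hm, pow_mul, ← hcard]
    exact FiniteField.pow_card_pow N x
  have hdvd : p ∣ X ^ m - X := by
    rw [← AdjoinRoot.mk_eq_mk, map_pow, AdjoinRoot.mk_X]
    exact hroot _
  have hσ : aeval (Z ^ m) p = 0 := by
    rw [← expand_aeval, hm, expand_card_pow, ← hm, map_pow]
    exact pow_eq_zero_of_le hmN hN
  have hspan : ∀ a : F[X], a ∈ Ideal.span {p} → aeval (Z ^ m) a = 0 := by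
    intro a ha
    obtain ⟨b, rfl⟩ := Ideal.mem_span_singleton.1 ha
    rw [map_mul, hσ, zero_mul]
  let φ : AdjoinRoot p →ₐ[F] Module.End F V :=
    Ideal.Quotient.liftₐ (Ideal.span {p}) (aeval (Z ^ m)) hspan
  have hφ : ∀ f : F[X], φ (AdjoinRoot.mk p f) = aeval Z (expand F m f) := by
    intro f
    rw [expand_aeval]
    rfl
  let _ : Module (AdjoinRoot p) V := Module.compHom V (φ : AdjoinRoot p →+* Module.End F V)
  have hsm : ∀ (k : AdjoinRoot p) (x : V), k • x = φ k x := fun k x => rfl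
  have : IsScalarTower F (AdjoinRoot p) V := by
    refine ⟨fun a k x => ?_⟩
    rw [hsm, hsm, map_smul]
    rfl
  have comm : ∀ (A : V →ₗ[F] V), (∀ x, Z (A x) = A (Z x)) → ∀ (f : F[X]) (x : V),
      A (aeval Z f x) = aeval Z f (A x) := by
    intro A hZA f x
    induction f using Polynomial.induction_on generalizing x with
    | C a => simp
    | add f g hf hg => simp [hf, hg]
    | monomial n a ih =>
      have e : (C a * X ^ (n + 1) : F[X]) = (C a * X ^ n) * X := by rw [pow_succ, mul_assoc]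
      rw [e, map_mul, aeval_X, Module.End.mul_apply, Module.End.mul_apply, ih, hZA]
  refine extCase hF hQ hT F (AdjoinRoot p) V Q hnd hV ν J J' hJ hJ' ?_ ?_ ?_ ?_
    (AdjoinRoot.root p) ?_ ?_ (aeval Z (X + X ^ m : F[X])) ?_ ?_
  · intro l x y
    induction l using AdjoinRoot.induction_on with
    | ih f =>
      rw [hsm, hsm, hφ]
      exact a9 _ x y
  · intro l x
    induction l using AdjoinRoot.induction_on with
    | ih f =>
      rw [hsm, hφ]
      exact a10 _ x
  · intro l x
    induction l using AdjoinRoot.induction_on with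
    | ih f =>
      rw [hsm, hsm, hφ]
      exact comm J a2 _ x
  · intro l x
    induction l using AdjoinRoot.induction_on with
    | ih f =>
      rw [hsm, hsm, hφ]
      exact comm J' a3 _ x
  · intro h0
    rw [← AdjoinRoot.mk_X, AdjoinRoot.mk_eq_zero] at h0
    have := natDegree_le_of_dvd h0 X_ne_zero
    rw [natDegree_X] at this
    have h1 := hp.natDegree_pos
    omega
  · intro h0
    rw [← AdjoinRoot.mk_X, ← map_one (AdjoinRoot.mk p), AdjoinRoot.mk_eq_mk, ← C_1] at h0
    have := natDegree_le_of_dvd h0 (X_sub_C_ne_zero _)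
    rw [natDegree_X_sub_C] at this
    have h1 := hp.natDegree_pos
    omega
  · intro x
    rw [hsm, ← AdjoinRoot.mk_X, hφ, expand_X, map_add, aeval_X]
    rfl
  · obtain ⟨g, hg⟩ := hdvd
    have : CharP F[X] 2 := inferInstance
    have e : (X + X ^ m : F[X]) = g * p := by
      rw [mul_comm, ← hg, CharTwo.sub_eq_add, add_comm]
    refine ⟨N, ?_⟩
    rw [e, ← map_pow, mul_pow, map_mul, map_pow (aeval Z) p, hN, mul_zero]

end PRIM

theorem h_PRIM (hA : S_ALG) (hF : S_LF) (hL : S_LSJ) (hQ : S_QK) (hT : S_TRANS) : S_PRIM := by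
  intro F V _ _ _ _ _ _ Q hnd hV ν J J' hJ hJ' p N hp hN
  by_cases hd : p.natDegree = 1
  · obtain ⟨a, ha, b, rfl⟩ := natDegree_eq_one.1 hd
    have hz : aeval (ZZ J J') (C a * X + C b) =
        a • (ZZ J J' + (a⁻¹ * b) • LinearMap.id : V →ₗ[F] V) := by
      rw [map_add, map_mul, aeval_C, aeval_C, aeval_X, smul_add, smul_smul, ← mul_assoc,
        mul_inv_cancel₀ ha, one_mul, Algebra.smul_def a]
      rfl
    have hnil : IsNilpotent (ZZ J J' + (a⁻¹ * b) • LinearMap.id : V →ₗ[F] V) := by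
      refine ⟨N, ?_⟩
      rw [hz, _root_.smul_pow] at hN
      exact (smul_eq_zero.1 hN).resolve_left (pow_ne_zero _ ha)
    set s := a⁻¹ * b with hs
    by_cases h1 : (s = 0 ∨ s = 1) ∧ ∃ μ : F, μ * μ = μ + ν
    · exact hL F V Q hnd hV ν J J' hJ hJ' s h1.1 hnil h1.2
    · have h2 : (∀ μ : F, μ * μ ≠ μ + ν) ∨ (s ≠ 0 ∧ s ≠ 1) := by
        by_cases h3 : s = 0 ∨ s = 1
        · left
          intro μ hμ
          exact h1 ⟨h3, μ, hμ⟩
        · right
          push Not at h3
          exact h3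
      rcases hF F V Q hnd hV ν J J' hJ hJ' s hnil h2 with h | h
      · exact Or.inl (PRIM.conAo_conAs h)
      · exact Or.inr (Or.inl h)
  · rcases PRIM.bigCase hA hF hQ hT F V Q hnd hV ν J J' hJ hJ' p N hp hN hd with h | h
    · exact Or.inl (PRIM.conAo_conAs h)
    · exact Or.inr (Or.inl h)

end Pool.Agent.H330.EvenQ
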