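import Pool.Agent.H330.EvenQ.Spec

set_option autoImplicit false

namespace Pool.Agent.H330.EvenQ

open QuadraticMap Module

namespace PROPJ

variable {F V : Type} [Field F] [AddCommGroup V] [Module F V]

lemma exists_b [FiniteDimensional F V] (Q : QuadraticForm F V) (h5 : 5 ≤ finrank F V) (a u : V) :
    ∃ b, polar Q a b = 0 ∧ b ∉ Submodule.span F {a, u} := by
  by_contra hcon
  push Not at hcon
  have hle : LinearMap.ker (Q.polarBilin a) ≤ Submodule.span F {a, u} := by
    intro b hb
    exact hcon b (by simpa using hb)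
  have h1 := Submodule.finrank_mono hle
  have h2 : finrank F (Submodule.span F ({a, u} : Set V)) ≤ 2 := by
    classical
    have := finrank_span_le_card (R := F) ({a, u} : Set V)
    refine this.trans ?_
    rw [Set.toFinset_insert, Set.toFinset_singleton]
    exact Finset.card_le_two
  have h3 := LinearMap.finrank_range_add_finrank_ker (Q.polarBilin a)
  have h4 : finrank F (LinearMap.range (Q.polarBilin a)) ≤ 1 := by
    have := Submodule.finrank_le (LinearMap.range (Q.polarBilin a))
    rwa [finrank_self] at this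
  omega

lemma exists_x (Q : QuadraticForm F V) (hQ : Nondeg Q) (a b : V) (ha : a ≠ 0)
    (hb : ∀ c : F, b ≠ c • a) : ∃ x, polar Q x a = 0 ∧ polar Q x b ≠ 0 := by
  obtain ⟨y, hy⟩ : ∃ y, polar Q y a ≠ 0 := by
    by_contra hcon
    push Not at hcon
    refine ha (hQ a fun y => ?_)
    rw [polar_comm]
    exact hcon y
  have hb' : b - (polar Q y b / polar Q y a) • a ≠ 0 := fun h => hb _ (sub_eq_zero.1 h)
  obtain ⟨z, hz⟩ : ∃ z, polar Q z (b - (polar Q y b / polar Q y a) • a) ≠ 0 := by
    by_contra hcon
    push Not at hcon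
    refine hb' (hQ _ fun y => ?_)
    rw [polar_comm]
    exact hcon y
  refine ⟨z - (polar Q z a / polar Q y a) • y, ?_, ?_⟩
  · rw [polar_sub_left, polar_smul_left, smul_eq_mul, div_mul_cancel₀ _ hy, sub_self]
  · rw [polar_sub_left, polar_smul_left, smul_eq_mul]
    rw [polar_sub_right, polar_smul_right, smul_eq_mul] at hz
    intro h
    apply hz
    rw [← h]
    ring

end PROPJ

theorem h_PROPJ (hS : S_SIEG) : S_PROPJ := by
  intro F V _ _ _ _ _ _ Q hQ h5 J a ha hind
  by_contra hcon
  push Not at hcon
  have ha0 : a ≠ 0 := by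
    rintro rfl
    have := (hind 1 0 (by simp)).1
    exact one_ne_zero this
  obtain ⟨b, hab, hb⟩ := PROPJ.exists_b Q h5 a (J a)
  have hb2 : ∀ α β : F, b ≠ α • a + β • J a := by
    rintro α β rfl
    exact hb (Submodule.add_mem _ (Submodule.smul_mem _ _ (Submodule.subset_span (by simp)))
      (Submodule.smul_mem _ _ (Submodule.subset_span (by simp))))
  obtain ⟨x, hx1, hx2⟩ := PROPJ.exists_x Q hQ a b ha0 fun c h => hb2 c 0 (by rw [h]; simp)
  obtain ⟨g, _, _, hg, hom⟩ := hS F V Q hQ a b ha hab
  have h := hcon g (hom h5) x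
  rw [hg, hg] at h
  simp only [sieg, hx1, mul_zero, zero_smul, add_zero, map_add, map_smul] at h
  -- `h : J x + B(Jx,a) b + B(Jx,b) a + .. a = J x + t J a`
  by_cases h0 : polar Q (J x) a = 0
  · rw [h0] at h
    simp only [zero_smul, add_zero, mul_zero] at h
    have h1 : polar Q (J x) b • a + (-polar Q x b) • J a = 0 := by
      rw [neg_smul, ← sub_eq_add_neg, sub_eq_zero]
      exact add_left_cancel h
    exact hx2 (neg_eq_zero.1 (hind _ _ h1).2)
  · apply hb2 (-((polar Q (J x) a)⁻¹ * (polar Q (J x) b + Q b * polar Q (J x) a)))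
      ((polar Q (J x) a)⁻¹ * polar Q x b)
    have h1 : polar Q (J x) a • b = -((polar Q (J x) b + Q b * polar Q (J x) a) • a) + polar Q x b • J a := by
      have h2 : J x + (polar Q (J x) a • b + (polar Q (J x) b + Q b * polar Q (J x) a) • a) =
          J x + polar Q x b • J a := by
        rw [← h, add_smul]
        abel
      have h3 := add_left_cancel h2
      rw [← h3]
      abel
    have h4 : b = (polar Q (J x) a)⁻¹ • (polar Q (J x) a • b) := by
      rw [smul_smul, inv_mul_cancel₀ h0, one_smul]
    refine h4.trans ?_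
    rw [h1, smul_add, smul_neg, smul_smul, smul_smul, neg_smul]

end Pool.Agent.H330.EvenQ
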