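import Pool.Agent.H330.EvenQ.Spec

/-!
# PROPW: `Ω` does not preserve a small subspace
-/

set_option autoImplicit false

namespace Pool.Agent.H330.EvenQ

open QuadraticMap Module

namespace PROPW

variable {F V : Type} [Field F] [AddCommGroup V] [Module F V] [FiniteDimensional F V]

omit [FiniteDimensional F V] in
theorem nondeg {Q : QuadraticForm F V} (hQ : Nondeg Q) :
    (LinearMap.BilinForm.Nondegenerate (polarBilin Q : LinearMap.BilinForm F V)) := by
  have hr : (polarBilin Q : LinearMap.BilinForm F V).IsRefl := fun x y h => by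
    rw [polarBilin_apply_apply] at h ⊢
    rw [polar_comm]
    exact h
  rw [LinearMap.BilinForm.Nondegenerate]
  refine ⟨fun x hx => hQ x fun y => ?_, fun y hy => hQ y fun x => ?_⟩
  · exact hx y
  · rw [polar_comm]
    exact hy x

omit [FiniteDimensional F V] in
theorem refl {Q : QuadraticForm F V} : (polarBilin Q : LinearMap.BilinForm F V).IsRefl := by
  intro x y h
  rw [polarBilin_apply_apply] at h ⊢
  rw [polar_comm]
  exact h

/-- the common kernel of two functionals is large -/
theorem finrank_ker_two (f g : V →ₗ[F] F) : finrank F V ≤ finrank F (LinearMap.ker (f.prod g)) + 2 := by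
  have h1 := LinearMap.finrank_range_add_finrank_ker (f.prod g)
  have h2 : finrank F (LinearMap.range (f.prod g)) ≤ finrank F (F × F) :=
    Submodule.finrank_le _
  rw [finrank_prod, finrank_self] at h2
  omega

theorem exists_nonsing {Q : QuadraticForm F V} (hQ : Nondeg Q) (h5 : 5 ≤ finrank F V) (x y : V) :
    ∃ u, polar Q x u = 0 ∧ polar Q y u = 0 ∧ Q u ≠ 0 := by
  by_contra hcon
  push Not at hcon
  set U := LinearMap.ker ((polarBilin Q x).prod (polarBilin Q y)) with hU
  have hmem : ∀ u ∈ U, polar Q x u = 0 ∧ polar Q y u = 0 := by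
    intro u hu
    have h0 := LinearMap.mem_ker.1 hu
    exact ⟨congrArg Prod.fst h0, congrArg Prod.snd h0⟩
  have hsing : ∀ u ∈ U, Q u = 0 := fun u hu => hcon u (hmem u hu).1 (hmem u hu).2
  have hle : U ≤ LinearMap.BilinForm.orthogonal (polarBilin Q) U := by
    intro u hu
    rw [LinearMap.BilinForm.mem_orthogonal_iff]
    intro v hv
    change polar Q v u = 0
    rw [polar, hsing _ (U.add_mem hv hu), hsing _ hv, hsing _ hu]
    simp
  have h1 := Submodule.finrank_mono hle
  rw [LinearMap.BilinForm.finrank_orthogonal (nondeg hQ)] at h1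
  have h2 := finrank_ker_two (polarBilin Q x) (polarBilin Q y)
  rw [← hU] at h2
  omega

theorem exists_sing [Finite F] [CharP F 2] {Q : QuadraticForm F V} (hQ : Nondeg Q)
    (h5 : 5 ≤ finrank F V) {x : V} (hx : x ≠ 0) : ∃ a, Q a = 0 ∧ polar Q x a = 1 := by
  obtain ⟨y₀, hy₀⟩ : ∃ y, polar Q x y ≠ 0 := by
    by_contra h
    push Not at h
    exact hx (hQ x h)
  obtain ⟨y, hxy⟩ : ∃ y, polar Q x y = 1 :=
    ⟨(polar Q x y₀)⁻¹ • y₀, by rw [polar_smul_right, smul_eq_mul, inv_mul_cancel₀ hy₀]⟩
  obtain ⟨u, h1, h2, h3⟩ := exists_nonsing hQ h5 x y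
  obtain ⟨c, hc⟩ := FiniteField.isSquare_of_char_two (CharP.ringChar_of_prime_eq_zero
    Nat.prime_two (CharP.cast_eq_zero F 2)) (Q y * (Q u)⁻¹)
  refine ⟨y + c • u, ?_, ?_⟩
  · have h4 : Q (y + c • u) = Q y + Q (c • u) + polar Q y (c • u) := by
      rw [polar]
      ring
    rw [h4, QuadraticMap.map_smul, polar_smul_right, h2, ← hc, smul_eq_mul,
      inv_mul_cancel_right₀ h3, smul_zero, add_zero]
    exact CharTwo.add_self_eq_zero _
  · rw [polar_add_right, polar_smul_right, h1, hxy, smul_zero, add_zero]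

end PROPW

open PROPW in
theorem h_PROPW (hS : S_SIEG) : S_PROPW := by
  intro F V _ _ _ _ _ _ Q hQ h8 W hW hdim
  by_contra hcon
  push Not at hcon
  obtain ⟨x, hxW, hx⟩ := W.exists_mem_ne_zero_of_ne_bot hW
  obtain ⟨a, ha, hxa⟩ := exists_sing hQ (by omega) hx
  have hle : LinearMap.ker (polarBilin Q a) ≤ W ⊔ Submodule.span F {a} := by
    intro b hb
    have hb' : polar Q a b = 0 := hb
    obtain ⟨g, -, -, hg, hgO⟩ := hS F V Q hQ a b ha hb'
    have h1 := hcon g (hgO (by omega)) x hxW
    rw [hg, sieg, hxa, one_smul, mul_one] at h1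
    have e : b = (x + b + polar Q x b • a + Q b • a) + -x + (-(polar Q x b + Q b)) • a := by
      rw [neg_smul, add_smul]
      abel
    rw [e]
    exact Submodule.add_mem_sup (W.add_mem h1 (W.neg_mem hxW))
      (Submodule.smul_mem _ _ (Submodule.mem_span_singleton_self a))
  have h2 := Submodule.finrank_mono hle
  have h3 := Submodule.finrank_add_le_finrank_add_finrank W (Submodule.span F {a})
  have h4 : finrank F (Submodule.span F {a}) ≤ 1 := by
    have := finrank_span_le_card (R := F) ({a} : Set V)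
    simpa using this
  have h5 := LinearMap.finrank_range_add_finrank_ker (polarBilin Q a)
  have h6 : finrank F (LinearMap.range (polarBilin Q a)) ≤ finrank F F := Submodule.finrank_le _
  rw [finrank_self] at h6
  omega

end Pool.Agent.H330.EvenQ
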