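import Pool.Agent.H330.EvenQ.Spec

namespace Pool.Agent.H330.EvenQ

open QuadraticMap Module Polynomial

namespace QK

section

variable {F K V : Type} [Field F] [Finite F] [CharP F 2] [Field K] [Finite K] [Algebra F K]
  [AddCommGroup V] [Module F V] [Module K V] [IsScalarTower F K V] (Q : QuadraticForm F V)

theorem add_sq2 [CharP K 2] (a b : K) : (a + b) ^ 2 = a ^ 2 + b ^ 2 := add_pow_char a b 2

theorem sq_inj [CharP K 2] {a b : K} (h : a ^ 2 = b ^ 2) : a = b := by
  have : (a - b) ^ 2 = 0 := by rw [sub_pow_char, h, sub_self]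
  exact sub_eq_zero.mp (pow_eq_zero_iff (two_ne_zero)|>.mp this)

theorem exists_sqrt (K : Type) [Field K] [Finite K] [CharP K 2] :
    ∃ s : K → K, (∀ a, s a ^ 2 = a) ∧ (∀ a, s (a ^ 2) = a) ∧ (∀ a b, s (a + b) = s a + s b) ∧
      (∀ a b, s (a * b) = s a * s b) := by
  have hinj : Function.Injective (fun a : K => a ^ 2) := fun a b h => sq_inj h
  have hsurj := Finite.surjective_of_injective hinj
  choose s hs using hsurj
  have hs' : ∀ a, s a ^ 2 = a := hs
  refine ⟨s, hs', ?_, ?_, ?_⟩
  · intro a; exact sq_inj (hs' _)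
  · intro a b
    apply sq_inj (K := K)
    rw [hs', add_sq2, hs', hs']
  · intro a b
    apply sq_inj (K := K)
    rw [hs', mul_pow, hs', hs']

theorem exists_phi [CharP K 2] (s : K → K) (h1 : ∀ a, s a ^ 2 = a) (h2 : ∀ a, s (a ^ 2) = a)
    (h3 : ∀ a b, s (a + b) = s a + s b) (h4 : ∀ a b, s (a * b) = s a * s b)
    (hadj : ∀ (l : K) (x y : V), polar Q (l • x) y = polar Q x (l • y))
    (halt : ∀ (l : K) (x : V), polar Q (l • x) x = 0) (x : V) :
    ∃ f : Module.Dual F K, ∀ l, f l = Q (s l • x) := by
  refine ⟨{ toFun := fun l => Q (s l • x), map_add' := ?_, map_smul' := ?_ }, fun l => rfl⟩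
  · intro l m
    have e : polar Q (s l • x) (s m • x) = 0 := by
      rw [← hadj, ← mul_smul]; exact halt _ _
    have e2 : Q (s l • x + s m • x) = Q (s l • x) + Q (s m • x) + polar Q (s l • x) (s m • x) := by
      unfold polar; ring
    show Q (s (l + m) • x) = Q (s l • x) + Q (s m • x)
    rw [h3, add_smul, e2, e, add_zero]
  · intro c l
    show Q (s (c • l) • x) = c • Q (s l • x)
    obtain ⟨t, ht, -, -, -⟩ := exists_sqrt F
    have hc : c = t c ^ 2 := (ht c).symm
    have e : s (c • l) = algebraMap F K (t c) * s l := by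
      rw [Algebra.smul_def, h4]
      congr 1
      conv_lhs => rw [hc, map_pow, h2]
    rw [e, mul_smul, algebraMap_smul, QuadraticMap.map_smul]
    conv_rhs => rw [hc]
    rw [pow_two]

theorem exists_bil (y x : V) (Q : QuadraticForm F V) :
    ∃ f : Module.Dual F K, ∀ l : K, f l = polar Q (l • x) y := by
  refine ⟨{ toFun := fun l => polar Q (l • x) y, map_add' := ?_, map_smul' := ?_ }, fun l => rfl⟩
  · intro l m
    show polar Q ((l + m) • x) y = _
    rw [add_smul, polar_add_left]
  · intro c l
    show polar Q ((c • l) • x) y = c • polar Q (l • x) y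
    rw [smul_assoc, polar_smul_left]

end

end QK

open QK in
theorem h_QK : S_QK := by
  intro F K V _ _ _ _ _ _ _ _ _ _ Q hadj halt
  have : CharP K 2 := charP_of_injective_algebraMap (algebraMap F K).injective 2
  have : FiniteDimensional F K := inferInstance
  have : Algebra.IsSeparable F K := inferInstance
  obtain ⟨s, h1, h2, h3, h4⟩ := exists_sqrt K
  have hnd := traceForm_nondegenerate F K
  have huniq : ∀ a b : K, (∀ l, Algebra.trace F K (l * a) = Algebra.trace F K (l * b)) → a = b := by
    intro a b h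
    have e : ∀ l, Algebra.traceForm F K (a - b) l = 0 := by
      intro l
      rw [Algebra.traceForm_apply, sub_mul, map_sub, mul_comm a, mul_comm b, h l, sub_self]
    exact sub_eq_zero.mp (hnd.1 _ e)
  have hrep : ∀ f : Module.Dual F K, ∃ a : K, ∀ l, Algebra.trace F K (l * a) = f l := by
    intro f
    refine ⟨(LinearMap.BilinForm.toDual (Algebra.traceForm F K) hnd).symm f, fun l => ?_⟩
    have e : (LinearMap.BilinForm.toDual (Algebra.traceForm F K) hnd)
      ((LinearMap.BilinForm.toDual (Algebra.traceForm F K) hnd).symm f) l = f l := by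
      rw [LinearEquiv.apply_symm_apply]
    rw [LinearMap.BilinForm.toDual_def, Algebra.traceForm_apply, mul_comm] at e
    exact e
  have hq : ∀ x : V, ∃ a : K, ∀ l, Algebra.trace F K (l * a) = Q (s l • x) := by
    intro x
    obtain ⟨f, hf⟩ := exists_phi Q s h1 h2 h3 h4 hadj halt x
    obtain ⟨a, ha⟩ := hrep f
    exact ⟨a, fun l => by rw [ha, hf]⟩
  have hb : ∀ x y : V, ∃ a : K, ∀ l, Algebra.trace F K (l * a) = polar Q (l • x) y := by
    intro x y
    obtain ⟨f, hf⟩ := exists_bil (K := K) y x Q
    obtain ⟨a, ha⟩ := hrep f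
    exact ⟨a, fun l => by rw [ha, hf]⟩
  choose q hq using hq
  choose b hb using hb
  let B : LinearMap.BilinMap K V K := LinearMap.mk₂ K b
    (by
      intro x x' y
      apply huniq; intro l
      rw [hb, mul_add, map_add, hb, hb, smul_add, polar_add_left])
    (by
      intro c x y
      apply huniq; intro l
      rw [hb, smul_eq_mul, ← mul_assoc, hb, mul_smul])
    (by
      intro x y y'
      apply huniq; intro l
      rw [hb, mul_add, map_add, hb, hb, polar_add_right])
    (by
      intro c x y
      apply huniq; intro l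
      rw [hb, smul_eq_mul, ← mul_assoc, hb, ← hadj, ← mul_smul, mul_comm])
  have hadd : ∀ x y, q (x + y) = q x + q y + b x y := by
    intro x y
    apply huniq; intro l
    have e2 : Q (s l • x + s l • y) = Q (s l • x) + Q (s l • y) + polar Q (s l • x) (s l • y) := by
      unfold polar; ring
    rw [hq, mul_add, mul_add, map_add, map_add, hq, hq, hb, smul_add, e2, ← hadj, ← mul_smul,
      ← pow_two, h1]
  refine ⟨{ toFun := q, toFun_smul := ?_, exists_companion' := ⟨B, fun x y => hadd x y⟩ }, ?_, ?_⟩
  · intro c x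
    apply huniq; intro l
    have e : s (l * (c * c)) = s l * c := by rw [h4, ← pow_two, h2]
    rw [hq, smul_eq_mul, ← mul_assoc, hq, e, mul_smul]
  · intro l x
    show Q (l • x) = Algebra.trace F K (l ^ 2 * q x)
    rw [hq, h2]
  · intro l x y
    show polar Q (l • x) y = Algebra.trace F K (l * (q (x + y) - q x - q y))
    rw [hadd, ← hb]
    congr 2
    ring

end Pool.Agent.H330.EvenQ
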