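import Pool.Agent.H330.EvenQ.Spec

/-!
# The product of two reflections is a commutator
-/

namespace Pool.Agent.H330.EvenQ

open QuadraticMap Module

namespace REFL

set_option linter.unusedSectionVars false

variable {F V : Type} [Field F] [CharP F 2] [AddCommGroup V] [Module F V] (Q : QuadraticForm F V)

lemma two0 : (2 : F) = 0 := CharP.ofNat_eq_zero F 2

lemma pself (x : V) : polar Q x x = 0 := by
  rw [QuadraticMap.polar_self, two_nsmul]
  exact CharTwo.add_self_eq_zero _

lemma vadd_self (F : Type) {V : Type} [Field F] [CharP F 2] [AddCommGroup V] [Module F V] (x : V) :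
    x + x = 0 := by
  have : x + x = (2 : F) • x := by rw [two_smul]
  rw [this, two0, zero_smul]

lemma p_refl (u x : V) : polar Q (refl Q u x) u = polar Q x u := by
  unfold refl
  rw [polar_add_left, polar_smul_left, pself, smul_zero, add_zero]

/-- the reflection as a linear map -/
def rl (u : V) : V →ₗ[F] V where
  toFun := refl Q u
  map_add' x y := by
    unfold refl
    rw [polar_add_left, mul_add, add_smul]
    abel
  map_smul' c x := by
    unfold refl
    rw [polar_smul_left, RingHom.id_apply, smul_add, smul_smul, smul_eq_mul]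
    congr 2
    ring

lemma rl_inv (u : V) : Function.Involutive (rl Q u) := by
  intro x
  change refl Q u (refl Q u x) = x
  have h : refl Q u (refl Q u x) = refl Q u x + ((Q u)⁻¹ * polar Q (refl Q u x) u) • u := rfl
  rw [h, p_refl]
  unfold refl
  rw [add_assoc, vadd_self F, add_zero]

/-- the reflection as a linear equivalence -/
noncomputable def re (u : V) : V ≃ₗ[F] V := LinearEquiv.ofInvolutive (rl Q u) (rl_inv Q u)

lemma re_apply (u x : V) : re Q u x = refl Q u x := rfl

lemma re_mem {u : V} (hu : Q u ≠ 0) : re Q u ∈ Orth Q := by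
  intro x
  rw [re_apply]
  unfold refl
  rw [QuadraticMap.map_add Q, QuadraticMap.map_smul, polar_smul_right, smul_eq_mul, smul_eq_mul]
  have h : (Q u)⁻¹ * polar Q x u * ((Q u)⁻¹ * polar Q x u) * Q u =
      (Q u)⁻¹ * polar Q x u * polar Q x u := by
    field_simp
  rw [h, add_assoc, CharTwo.add_self_eq_zero, add_zero]

lemma re_re (u x : V) : re Q u (re Q u x) = x := rl_inv Q u x

lemma re_invv (u : V) : (re Q u)⁻¹ = re Q u := by
  apply inv_eq_of_mul_eq_one_right
  apply LinearEquiv.ext
  intro x
  exact re_re Q u x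

lemma orth_polar {g : V ≃ₗ[F] V} (hg : g ∈ Orth Q) (x y : V) :
    polar Q (g x) (g y) = polar Q x y := by
  unfold polar
  rw [← map_add, hg, hg, hg]

lemma refl_smul {c : F} (hc : c ≠ 0) (u x : V) : refl Q (c • u) x = refl Q u x := by
  unfold refl
  rw [QuadraticMap.map_smul, polar_smul_right, smul_smul, smul_eq_mul, smul_eq_mul]
  congr 2
  rw [mul_inv, mul_inv]
  field_simp

/-- the Siegel transformation as a linear map -/
def sl (a b : V) : V →ₗ[F] V where
  toFun := sieg Q a b
  map_add' x y := by
    unfold sieg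
    rw [polar_add_left, polar_add_left, mul_add, add_smul, add_smul, add_smul]
    abel
  map_smul' c x := by
    unfold sieg
    rw [polar_smul_left, polar_smul_left, RingHom.id_apply, smul_add, smul_add, smul_add,
      smul_smul, smul_smul, smul_smul, smul_eq_mul, smul_eq_mul]
    congr 2
    ring

lemma sl_inv {a b : V} (hab : polar Q a b = 0) : Function.Involutive (sl Q a b) := by
  intro x
  change sieg Q a b (sieg Q a b x) = x
  have hba : polar Q b a = 0 := by rw [polar_comm]; exact hab
  have h1 : polar Q (sieg Q a b x) a = polar Q x a := by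
    unfold sieg
    simp only [polar_add_left, polar_smul_left, pself, hba, smul_zero, add_zero]
  have h2 : polar Q (sieg Q a b x) b = polar Q x b := by
    unfold sieg
    simp only [polar_add_left, polar_smul_left, pself, hab, smul_zero, add_zero]
  have h3 : sieg Q a b (sieg Q a b x) = sieg Q a b x + polar Q x a • b + polar Q x b • a +
      (Q b * polar Q x a) • a := by
    have h0 : sieg Q a b (sieg Q a b x) = sieg Q a b x + polar Q (sieg Q a b x) a • b +
      polar Q (sieg Q a b x) b • a + (Q b * polar Q (sieg Q a b x) a) • a := rfl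
    rw [h0, h1, h2]
  rw [h3]
  unfold sieg
  have h4 : ∀ p q r : V, x + p + q + r + p + q + r = x := by
    intro p q r
    have : x + p + q + r + p + q + r = x + (p + p) + (q + q) + (r + r) := by abel
    rw [this, vadd_self F, vadd_self F, vadd_self F]
    simp
  exact h4 _ _ _

/-- the Siegel transformation as a linear equivalence -/
noncomputable def se {a b : V} (hab : polar Q a b = 0) : V ≃ₗ[F] V :=
  LinearEquiv.ofInvolutive (sl Q a b) (sl_inv Q hab)

lemma se_mem {a b : V} (ha : Q a = 0) (hab : polar Q a b = 0) : se Q hab ∈ Orth Q := by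
  intro x
  change Q (sieg Q a b x) = Q x
  have hba : polar Q b a = 0 := by rw [polar_comm]; exact hab
  have h1 : sieg Q a b x = x + (polar Q x a • b + (polar Q x b + Q b * polar Q x a) • a) := by
    unfold sieg
    rw [add_smul]
    abel
  rw [h1, QuadraticMap.map_add Q, QuadraticMap.map_add Q, QuadraticMap.map_smul,
    QuadraticMap.map_smul, ha]
  simp only [polar_add_right, polar_smul_left, polar_smul_right, hba, smul_eq_mul, mul_zero,
    add_zero]
  linear_combination (polar Q x a * polar Q x b + Q b * polar Q x a * polar Q x a) *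
    (two0 (F := F))

lemma exists_w (hQ : Nondeg Q) {a x : V} (ha0 : a ≠ 0) (ha : Q a = 0) (hx : Q x ≠ 0) :
    ∃ w, polar Q a w = 0 ∧ polar Q x w = 1 := by
  by_contra hcon
  push Not at hcon
  have h1 : ∀ w, polar Q a w = 0 → polar Q x w = 0 := by
    intro w hw
    by_contra h
    apply hcon ((polar Q x w)⁻¹ • w)
    · rw [polar_smul_right, hw, smul_zero]
    · rw [polar_smul_right, smul_eq_mul, inv_mul_cancel₀ h]
  obtain ⟨w0, hw0⟩ : ∃ w0, polar Q a w0 ≠ 0 := by
    by_contra h
    push Not at h
    exact ha0 (hQ a h)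
  have h2 : x - (polar Q x w0 / polar Q a w0) • a = 0 := by
    apply hQ
    intro v
    have h3 := h1 (v - (polar Q a v / polar Q a w0) • w0) (by
      rw [polar_sub_right, polar_smul_right, smul_eq_mul]
      field_simp
      ring)
    rw [polar_sub_right, polar_smul_right, smul_eq_mul] at h3
    rw [polar_sub_left, polar_smul_left, smul_eq_mul]
    rw [← h3]
    field_simp
  have h4 : x = (polar Q x w0 / polar Q a w0) • a := sub_eq_zero.mp h2
  apply hx
  rw [h4, QuadraticMap.map_smul, ha, smul_zero]

lemma exists_iso (hQ : Nondeg Q) {x y : V} (hx : Q x ≠ 0) (hxy : Q x = Q y) :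
    ∃ g ∈ Orth Q, g x = y := by
  by_cases h0 : x = y
  · exact ⟨1, one_mem _, by rw [h0]; rfl⟩
  by_cases hB : polar Q x y = 0
  · have ha0 : x + y ≠ 0 := by
      intro h
      apply h0
      have : x = x + (y + y) := by rw [vadd_self F, add_zero]
      rw [this, ← add_assoc, h, zero_add]
    have ha : Q (x + y) = 0 := by
      rw [QuadraticMap.map_add Q, hB, add_zero, hxy, CharTwo.add_self_eq_zero]
    obtain ⟨w, hw1, hw2⟩ := exists_w Q hQ ha0 ha hx
    refine ⟨se Q hw1, se_mem Q ha hw1, ?_⟩
    change sieg Q (x + y) w x = y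
    have h1 : polar Q x (x + y) = 0 := by rw [polar_add_right, pself, hB, add_zero]
    unfold sieg
    rw [h1, hw2, zero_smul, add_zero, one_smul, mul_zero, zero_smul, add_zero, ← add_assoc,
      vadd_self F, zero_add]
  · have hQ1 : Q (x + y) = polar Q x y := by
      rw [QuadraticMap.map_add Q, hxy, CharTwo.add_self_eq_zero, zero_add]
    refine ⟨re Q (x + y), re_mem Q (by rw [hQ1]; exact hB), ?_⟩
    rw [re_apply]
    unfold refl
    rw [hQ1, polar_add_right, pself, zero_add, inv_mul_cancel₀ hB, one_smul, ← add_assoc,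
      vadd_self F, zero_add]

end REFL

open REFL in
theorem h_REFL : S_REFL := by
  intro F V _ _ _ _ _ _ Q hQ x y hx hy
  obtain ⟨c, hc⟩ : IsSquare (Q x / Q y) :=
    FiniteField.isSquare_of_char_two (ringChar.eq F 2) _
  have hc0 : c ≠ 0 := by
    intro h
    rw [h, mul_zero] at hc
    exact (div_ne_zero hx hy) hc
  have hxy : Q x = Q (c • y) := by
    rw [QuadraticMap.map_smul, smul_eq_mul, ← hc]
    field_simp
  obtain ⟨g, hg, hgx⟩ := exists_iso Q hQ hx hxy
  refine ⟨re Q x * g * (re Q x)⁻¹ * g⁻¹,
    Subgroup.commutator_mem_commutator (re_mem Q hx) hg, ?_⟩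
  intro v
  rw [re_invv]
  change re Q x (g (re Q x (g⁻¹ v))) = _
  rw [re_apply Q x (g _)]
  congr 1
  rw [← refl_smul Q hc0 y v, ← hgx, re_apply]
  have e : g (g⁻¹ v) = v := by
    change (g * g⁻¹) v = v
    rw [mul_inv_cancel]; rfl
  unfold refl
  rw [map_add, map_smul, e, hg]
  congr 3
  rw [← orth_polar Q hg, e]

end Pool.Agent.H330.EvenQ
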