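import Pool.Agent.H330.EvenQ.Spec

/-!
# Siegel transformations are isometries and lie in `Ω`
-/

namespace Pool.Agent.H330.EvenQ

open QuadraticMap Module

namespace SIEG

section

variable {F V : Type} [Field F] [AddCommGroup V] [Module F V]

theorem pl_add (Q : QuadraticForm F V) (x y z : V) :
    polar Q (x + y) z = polar Q x z + polar Q y z := polar_add_left Q x y z

theorem pl_smul (Q : QuadraticForm F V) (c : F) (x z : V) :
    polar Q (c • x) z = c * polar Q x z := by
  rw [polar_smul_left, smul_eq_mul]

theorem pr_add (Q : QuadraticForm F V) (x y z : V) :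
    polar Q x (y + z) = polar Q x y + polar Q x z := polar_add_right Q x y z

theorem pr_smul (Q : QuadraticForm F V) (c : F) (x z : V) :
    polar Q x (c • z) = c * polar Q x z := by
  rw [polar_smul_right, smul_eq_mul]

theorem q_add (Q : QuadraticForm F V) (x y : V) : Q (x + y) = Q x + Q y + polar Q x y :=
  QuadraticMap.map_add Q x y

theorem q_smul (Q : QuadraticForm F V) (c : F) (x : V) : Q (c • x) = c * c * Q x := by
  rw [QuadraticMap.map_smul, smul_eq_mul]

variable [CharP F 2]

theorem p_self (Q : QuadraticForm F V) (x : V) : polar Q x x = 0 := by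
  have h : polar Q x x = 2 * Q x := by
    rw [QuadraticMap.polar_self]; simp
  rw [h, CharTwo.two_eq_zero, zero_mul]

theorem v2 (F : Type) {V : Type} [Field F] [AddCommGroup V] [Module F V] [CharP F 2] (x : V) :
    x + x = 0 := by
  have h : x + x = (2 : F) • x := by rw [two_smul]
  rw [h, CharTwo.two_eq_zero, zero_smul]

/-- Siegel transformation as linear map -/
def E (Q : QuadraticForm F V) (a b : V) : V →ₗ[F] V where
  toFun := sieg Q a b
  map_add' x y := by
    unfold sieg
    rw [pl_add, pl_add]
    module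
  map_smul' c x := by
    unfold sieg
    rw [pl_smul, pl_smul, RingHom.id_apply]
    module

theorem E_mul (Q : QuadraticForm F V) (a u v : V) (ha : Q a = 0) (hu : polar Q a u = 0)
    (hv : polar Q a v = 0) (x : V) : sieg Q a u (sieg Q a v x) = sieg Q a (u + v) x := by
  have hua : polar Q u a = 0 := by rw [polar_comm]; exact hu
  have hva : polar Q v a = 0 := by rw [polar_comm]; exact hv
  have haa : polar Q a a = 0 := p_self Q a
  have h1 : polar Q (sieg Q a v x) a = polar Q x a := by
    unfold sieg
    rw [pl_add, pl_add, pl_add, pl_smul, pl_smul, pl_smul, hva, haa]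
    ring
  have h2 : polar Q (sieg Q a v x) u = polar Q x u + polar Q x a * polar Q u v := by
    unfold sieg
    rw [pl_add, pl_add, pl_add, pl_smul, pl_smul, pl_smul, hu, polar_comm Q v u]
    ring
  have h3 : sieg Q a u (sieg Q a v x) = sieg Q a v x + polar Q x a • u +
      (polar Q x u + polar Q x a * polar Q u v) • a + (Q u * polar Q x a) • a := by
    conv_lhs => unfold sieg
    rw [show polar Q (x + polar Q x a • v + polar Q x v • a + (Q v * polar Q x a) • a) a
      = polar Q x a from h1, show polar Q (x + polar Q x a • v + polar Q x v • a +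
        (Q v * polar Q x a) • a) u = polar Q x u + polar Q x a * polar Q u v from h2]
    rfl
  rw [h3]
  unfold sieg
  rw [pr_add, q_add]
  module

theorem E_zero (Q : QuadraticForm F V) (a x : V) : sieg Q a 0 x = x := by
  unfold sieg
  simp

theorem E_sq (Q : QuadraticForm F V) (a b : V) (ha : Q a = 0) (hb : polar Q a b = 0) (x : V) :
    sieg Q a b (sieg Q a b x) = x := by
  rw [E_mul Q a b b ha hb hb, v2 F, E_zero]

/-- Siegel transformation as linear equivalence -/
def Ee (Q : QuadraticForm F V) (a b : V) (ha : Q a = 0) (hb : polar Q a b = 0) : V ≃ₗ[F] V :=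
  LinearEquiv.ofInvolutive (E Q a b) (fun x => E_sq Q a b ha hb x)

theorem Ee_apply (Q : QuadraticForm F V) (a b : V) (ha : Q a = 0) (hb : polar Q a b = 0) (x : V) :
    Ee Q a b ha hb x = sieg Q a b x := rfl

theorem E_isom (Q : QuadraticForm F V) (a b : V) (ha : Q a = 0) (hb : polar Q a b = 0) (x : V) :
    Q (sieg Q a b x) = Q x := by
  have hba : polar Q b a = 0 := by rw [polar_comm]; exact hb
  have haa : polar Q a a = 0 := p_self Q a
  unfold sieg
  rw [q_add, q_add, q_add, pl_add, pl_add, pl_add, q_smul, q_smul, q_smul, ha]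
  simp only [pl_smul, pr_smul, hba, haa]
  have h2 : (2 : F) = 0 := CharTwo.two_eq_zero
  linear_combination (polar Q x a * polar Q x a * Q b + polar Q x a * polar Q x b) * h2

theorem refl_refl (Q : QuadraticForm F V) (a b : V) (ha : Q a = 0) (hb : polar Q a b = 0)
    (hq : Q b ≠ 0) (x : V) : refl Q b (refl Q (b + Q b • a) x) = sieg Q a b x := by
  have hba : polar Q b a = 0 := by rw [polar_comm]; exact hb
  have hc : Q (b + Q b • a) = Q b := by
    rw [q_add, q_smul, ha, pr_smul, hba]
    ring
  have h1 : refl Q (b + Q b • a) x = x + ((Q b)⁻¹ * (polar Q x b + Q b * polar Q x a)) •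
      (b + Q b • a) := by
    unfold refl
    rw [hc, pr_add, pr_smul]
  have h2 : polar Q (refl Q (b + Q b • a) x) b = polar Q x b := by
    rw [h1, pl_add, pl_smul, pl_add, pl_smul, hb, p_self]
    ring
  have h3 : refl Q b (refl Q (b + Q b • a) x) = refl Q (b + Q b • a) x +
      ((Q b)⁻¹ * polar Q x b) • b := by
    conv_lhs => unfold refl
    rw [show polar Q (x + ((Q (b + Q b • a))⁻¹ * polar Q x (b + Q b • a)) • (b + Q b • a)) b =
      polar Q x b from h2]
    rfl
  rw [h3, h1]
  unfold sieg
  have e1 : (Q b)⁻¹ * (polar Q x b + Q b * polar Q x a) =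
      (Q b)⁻¹ * polar Q x b + polar Q x a := by
    field_simp
  have e2 : ((Q b)⁻¹ * polar Q x b + polar Q x a) * Q b = polar Q x b + Q b * polar Q x a := by
    field_simp
  rw [e1, smul_add, smul_smul, e2]
  have h4 := v2 F (((Q b)⁻¹ * polar Q x b) • b)
  calc x + (((Q b)⁻¹ * polar Q x b + polar Q x a) • b + (polar Q x b + Q b * polar Q x a) • a) +
        ((Q b)⁻¹ * polar Q x b) • b
      = x + polar Q x a • b + polar Q x b • a + (Q b * polar Q x a) • a +
        (((Q b)⁻¹ * polar Q x b) • b + ((Q b)⁻¹ * polar Q x b) • b) := by module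
    _ = _ := by rw [h4, add_zero]

/-- `Q` takes a nonzero value on `⟨a, b⟩^⊥` if `dim V ≥ 5` -/
theorem exists_w [FiniteDimensional F V] (Q : QuadraticForm F V) (hN : Nondeg Q) (a b : V)
    (h5 : 5 ≤ finrank F V) : ∃ w, polar Q w a = 0 ∧ polar Q w b = 0 ∧ Q w ≠ 0 := by
  by_contra hcon
  push Not at hcon
  let P : V →ₗ[F] V →ₗ[F] F := QuadraticMap.polarBilin Q
  have hP : ∀ x y, P x y = polar Q x y := fun x y => rfl
  let L : V →ₗ[F] F × F := (P.flip a).prod (P.flip b)
  have hL : ∀ x, x ∈ LinearMap.ker L ↔ polar Q x a = 0 ∧ polar Q x b = 0 := by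
    intro x
    rw [LinearMap.mem_ker]
    constructor
    · intro h
      exact ⟨congrArg Prod.fst h, congrArg Prod.snd h⟩
    · intro h
      exact Prod.ext h.1 h.2
  set U := LinearMap.ker L with hU
  have hdim : finrank F V ≤ finrank F U + 2 := by
    have h1 := LinearMap.finrank_range_add_finrank_ker L
    have h2 : finrank F (LinearMap.range L) ≤ finrank F (F × F) := Submodule.finrank_le _
    have h3 : finrank F (F × F) = 2 := by
      rw [finrank_prod, finrank_self]
    have h4 : finrank F (LinearMap.ker L) = finrank F U := rfl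
    omega
  have hz : ∀ u ∈ U, ∀ v ∈ U, polar Q u v = 0 := by
    intro u hu v hv
    have h1 := hcon u ((hL u).1 hu).1 ((hL u).1 hu).2
    have h2 := hcon v ((hL v).1 hv).1 ((hL v).1 hv).2
    have huv := U.add_mem hu hv
    have h3 := hcon (u + v) ((hL _).1 huv).1 ((hL _).1 huv).2
    rw [q_add, h1, h2] at h3
    simpa using h3
  have hPi : Function.Injective P := by
    rw [injective_iff_map_eq_zero]
    intro x hx
    exact hN x (fun y => by rw [← hP, hx]; rfl)
  have hmap : U.map P ≤ U.dualAnnihilator := by
    rintro _ ⟨u, hu, rfl⟩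
    rw [Submodule.mem_dualAnnihilator]
    intro v hv
    exact hz u hu v hv
  have h6 : finrank F (U.map P) = finrank F U :=
    (Submodule.equivMapOfInjective P hPi U).finrank_eq.symm
  have h7 : finrank F (U.map P) ≤ finrank F U.dualAnnihilator := Submodule.finrank_mono hmap
  have h8 : finrank F U + finrank F U.dualAnnihilator = finrank F V :=
    Subspace.finrank_add_finrank_dualAnnihilator_eq U
  omega

end

end SIEG

theorem h_SIEG (hR : S_REFL) : S_SIEG := by
  intro F V _ _ _ _ _ _ Q hN a b ha hb
  refine ⟨SIEG.Ee Q a b ha hb, fun x => SIEG.E_isom Q a b ha hb x, ?_, fun v => rfl, ?_⟩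
  · refine Subgroup.mem_sup_right (Subgroup.subset_closure ?_)
    exact ⟨a, b, ha, hb, fun x => rfl⟩
  · intro h5
    -- the nonsingular case
    have key : ∀ c (hc : polar Q a c = 0), Q c ≠ 0 → SIEG.Ee Q a c ha hc ∈ Om Q := by
      intro c hc hq
      have hca : polar Q c a = 0 := by rw [polar_comm]; exact hc
      have h1 : Q (c + Q c • a) ≠ 0 := by
        have : Q (c + Q c • a) = Q c := by
          rw [SIEG.q_add, SIEG.q_smul, ha, SIEG.pr_smul, hca]
          ring
        rw [this]; exact hq
      obtain ⟨g, hg, hgv⟩ := hR F V Q hN c (c + Q c • a) hq h1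
      have h2 : SIEG.Ee Q a c ha hc = g := by
        ext v
        rw [hgv, SIEG.refl_refl Q a c ha hc hq]
        rfl
      rw [h2]; exact hg
    by_cases hq : Q b = 0
    · obtain ⟨w, hwa, hwb, hw⟩ := SIEG.exists_w Q hN a b h5
      have haw : polar Q a w = 0 := by rw [polar_comm]; exact hwa
      have hbw : polar Q b w = 0 := by rw [polar_comm]; exact hwb
      have habw : polar Q a (b + w) = 0 := by rw [SIEG.pr_add, hb, haw, add_zero]
      have h1 : Q (b + w) ≠ 0 := by
        rw [SIEG.q_add, hq, hbw, zero_add, add_zero]; exact hw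
      have h2 : SIEG.Ee Q a b ha hb = SIEG.Ee Q a w ha haw * SIEG.Ee Q a (b + w) ha habw := by
        ext v
        change sieg Q a b v = sieg Q a w (sieg Q a (b + w) v)
        rw [SIEG.E_mul Q a w (b + w) ha haw habw]
        congr 1
        rw [add_comm b w, ← add_assoc, SIEG.v2 F, zero_add]
      rw [h2]
      exact (Om Q).mul_mem (key w haw hw) (key (b + w) habw h1)
    · exact key b hb hq

end Pool.Agent.H330.EvenQ
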