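import Pool.Agent.H330.EvenQ.Spec

namespace Pool.Agent.H330.EvenQ

open QuadraticMap Module

namespace SING

variable {F V : Type} [Field F] [AddCommGroup V] [Module F V]

theorem polar_self' [CharP F 2] (Q : QuadraticForm F V) (x : V) : polar Q x x = 0 := by
  rw [QuadraticMap.polar_self, two_nsmul, CharTwo.add_self_eq_zero]

/-- two independent orthogonal vectors have a nonzero singular combination -/
theorem star [Finite F] [CharP F 2] (Q : QuadraticForm F V) {x y : V} (hx : x ≠ 0)
    (hy : y ∉ Submodule.span F {x}) (h : polar Q x y = 0) :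
    ∃ a b : F, a • x + b • y ≠ 0 ∧ Q (a • x + b • y) = 0 := by
  have hchar : ringChar F = 2 := ringChar.eq F 2
  obtain ⟨l, hl⟩ := FiniteField.isSquare_of_char_two hchar (Q y)
  obtain ⟨m, hm⟩ := FiniteField.isSquare_of_char_two hchar (Q x)
  by_cases hl0 : l = 0
  · refine ⟨0, 1, ?_, ?_⟩
    · rw [zero_smul, one_smul, zero_add]
      rintro rfl
      exact hy (Submodule.zero_mem _)
    · rw [zero_smul, one_smul, zero_add, hl, hl0, mul_zero]
  · refine ⟨l, m, ?_, ?_⟩
    · intro h0
      by_cases hm0 : m = 0
      · rw [hm0, zero_smul, add_zero, smul_eq_zero] at h0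
        rcases h0 with h0 | h0
        · exact hl0 h0
        · exact hx h0
      · apply hy
        rw [Submodule.mem_span_singleton]
        refine ⟨-(m⁻¹ * l), ?_⟩
        have h1 : m • y = -(l • x) := by
          rw [eq_neg_iff_add_eq_zero, add_comm]
          exact h0
        calc (-(m⁻¹ * l)) • x = m⁻¹ • (-(l • x)) := by
              rw [smul_neg, smul_smul, neg_smul]
          _ = y := by rw [← h1, smul_smul, inv_mul_cancel₀ hm0, one_smul]
    · rw [QuadraticMap.map_add Q (l • x) (m • y), QuadraticMap.map_smul, QuadraticMap.map_smul,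
        QuadraticMap.polar_smul_left, QuadraticMap.polar_smul_right, h, hl, hm]
      simp only [smul_eq_mul, mul_zero, add_zero]
      have h2 : l * l * (m * m) + m * m * (l * l) = l * l * (m * m) + l * l * (m * m) := by ring
      rw [h2, CharTwo.add_self_eq_zero]

theorem ex2 [FiniteDimensional F V] (R : Submodule F V) (hR : 2 ≤ finrank F R) (x : V) :
    ∃ y ∈ R, y ∉ Submodule.span F {x} := by
  by_contra hcon
  push Not at hcon
  have h1 : R ≤ Submodule.span F {x} := hcon
  have h2 := Submodule.finrank_mono h1
  have h3 : finrank F (Submodule.span F {x}) ≤ 1 := by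
    by_cases hx : x = 0
    · subst hx
      rw [Submodule.span_zero_singleton, finrank_bot]
      exact Nat.zero_le _
    · exact (finrank_span_singleton hx).le
  omega

theorem finrank_even [FiniteDimensional F V] (hE : S_EVEN) (β : V →ₗ[F] V →ₗ[F] F)
    (h : ∀ x, β x x = 0) : ∃ r, Even r ∧ r + finrank F (LinearMap.ker β) = finrank F V :=
  ⟨_, hE F V β h, β.finrank_range_add_finrank_ker⟩

end SING

open SING in
theorem h_SING (hE : S_EVEN) : S_SING := by
  intro F V _ _ _ _ _ _ Q hQ hdim D hadj halt hnil
  by_cases hD : D = 0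
  · have hnt : Nontrivial V := by
      apply nontrivial_of_finrank_pos (R := F)
      omega
    obtain ⟨x, hx⟩ := exists_ne (0 : V)
    have h1 := (Q.polarBilin x).finrank_range_add_finrank_ker
    have h2 : finrank F (LinearMap.range (Q.polarBilin x)) ≤ 1 := by
      have := Submodule.finrank_le (LinearMap.range (Q.polarBilin x))
      rwa [finrank_self] at this
    obtain ⟨y, hy1, hy2⟩ := ex2 (LinearMap.ker (Q.polarBilin x)) (by omega) x
    rw [LinearMap.mem_ker] at hy1
    obtain ⟨a, b, hab, hQab⟩ := star Q hx hy2 hy1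
    exact ⟨_, hab, by rw [hD, LinearMap.zero_apply], hQab⟩
  · -- the dimension of the kernel is even
    obtain ⟨r1, hr1, hr1'⟩ := finrank_even hE Q.polarBilin fun x => polar_self' Q x
    have hker1 : LinearMap.ker Q.polarBilin = ⊥ := by
      rw [LinearMap.ker_eq_bot']
      intro x hx
      apply hQ
      intro y
      exact LinearMap.congr_fun hx y
    rw [hker1, finrank_bot] at hr1'
    obtain ⟨r2, hr2, hr2'⟩ := finrank_even hE (Q.polarBilin.comp D) fun x => halt x
    have hker2 : LinearMap.ker (Q.polarBilin.comp D) = LinearMap.ker D := by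
      rw [LinearMap.ker_comp, hker1]
      rfl
    rw [hker2] at hr2'
    set K : Submodule F V := LinearMap.ker D with hK
    let β : K →ₗ[F] K →ₗ[F] F := Q.polarBilin.compl₁₂ K.subtype K.subtype
    have hβ : ∀ x y : K, β x y = polar Q (x : V) (y : V) := fun x y => rfl
    obtain ⟨r3, hr3, hr3'⟩ := finrank_even hE β fun x => by
      rw [hβ]
      exact polar_self' Q _
    -- the radical is not zero
    have hex : ∃ n, D ^ n = 0 := hnil
    classical
    set k := Nat.find hex with hk
    have hkspec : D ^ k = 0 := Nat.find_spec hex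
    have hk2 : 2 ≤ k := by
      by_contra hlt
      have h01 : k = 0 ∨ k = 1 := by omega
      apply hD
      rcases h01 with h | h
      · rw [h, pow_zero] at hkspec
        have : D = 1 * D := (one_mul D).symm
        rw [this, hkspec, zero_mul]
      · rwa [h, pow_one] at hkspec
    obtain ⟨n, hn⟩ : ∃ n, k = n + 2 := ⟨k - 2, by omega⟩
    have hne : D ^ (n + 1) ≠ 0 := Nat.find_min hex (by omega)
    obtain ⟨x, hx⟩ : ∃ x, (D ^ (n + 1)) x ≠ 0 := by
      by_contra hcon
      push Not at hcon
      exact hne (LinearMap.ext hcon)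
    set v : V := (D ^ (n + 1)) x with hv
    have hDv : D v = 0 := by
      have h1 : D v = (D ^ (n + 2)) x := by
        rw [hv, pow_succ' D (n + 1)]
        rfl
      rw [h1, ← hn, hkspec, LinearMap.zero_apply]
    have hvD : v = D ((D ^ n) x) := by
      rw [hv, pow_succ' D n]
      rfl
    have hvK : v ∈ K := hDv
    have hvrad : (⟨v, hvK⟩ : K) ∈ LinearMap.ker β := by
      rw [LinearMap.mem_ker]
      refine LinearMap.ext fun y => ?_
      rw [hβ, LinearMap.zero_apply]
      show polar Q v (y : V) = 0
      have hy : D (y : V) = 0 := y.2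
      rw [hvD, hadj, hy, QuadraticMap.polar_zero_right]
    have hv0 : (⟨v, hvK⟩ : K) ≠ 0 := by
      intro h
      exact hx (congrArg Subtype.val h)
    have hpos : 0 < finrank F (LinearMap.ker β) := by
      have hnt : Nontrivial (LinearMap.ker β) :=
        ⟨⟨⟨v, hvK⟩, hvrad⟩, 0, fun h => hv0 (congrArg Subtype.val h)⟩
      exact finrank_pos
    have h2 : 2 ≤ finrank F (LinearMap.ker β) := by
      rw [Nat.even_iff] at hr1 hr2 hr3
      omega
    obtain ⟨y, hy1, hy2⟩ := ex2 (LinearMap.ker β) h2 (⟨v, hvK⟩ : K)
    have hy2' : (y : V) ∉ Submodule.span F {v} := by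
      intro h
      apply hy2
      rw [Submodule.mem_span_singleton] at h ⊢
      obtain ⟨c, hc⟩ := h
      exact ⟨c, Subtype.ext hc⟩
    have hpol : polar Q v (y : V) = 0 := by
      rw [LinearMap.mem_ker] at hvrad
      have h := LinearMap.congr_fun hvrad y
      rwa [hβ, LinearMap.zero_apply] at h
    obtain ⟨a, b, hab, hQab⟩ := star Q hx hy2' hpol
    refine ⟨a • v + b • (y : V), hab, ?_, hQab⟩
    have hy : D (y : V) = 0 := y.2
    rw [map_add, map_smul, map_smul, hDv, hy, smul_zero, smul_zero, add_zero]

end Pool.Agent.H330.EvenQ
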