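import Pool.Agent.H330.EvenQ.Defs

/-!
# Specification of the lemmas (`B = polar Q`, `E(a,b) = sieg Q a b`, `r_u = refl Q u`)

Everything is in characteristic `2`; `F` is a finite field, so every element is a square.
`T = TT J J'`, `Z = ZZ J J'`, `N = J + J'`.
-/

namespace Pool.Agent.H330.EvenQ

open QuadraticMap Module Polynomial

/-- ALG.  Put `T = JJ' + J'J`, `Z = (J+J')²`, where `J² = J+ν`, `J'² = J'+ν`, both self-adjoint and alternating.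
Then `T J = J T + T` (i.e. `TJ = (J+1)T`), `Z` commutes with `J`, `J'`, `T`, `T² = Z + Z²`, `T + Z = J + J'` (so
`J' x = J x + T x + Z x`), `T` and every polynomial in `Z` are self-adjoint and alternating.
Proof: expand; `N² = N + T` where `N = J+J'`.  `B(f(Z)x,y) = B(x,f(Z)y)` by induction; for alternation by linearity
(the polar of the additive map `f ↦ B(f(Z)x,x)`, which is additive) it is enough to treat `f = X^k`: `k = 2j`:
`B(Z^{2j}x,x) = B(Z^j x,Z^j x) = 0`; `k = 2j+1`: `B(Z^{2j+1}x,x) = B(N Z^j x, N Z^j x) = 0` (`N` self-adjoint, commutes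
with `Z`, `Z = N²`); note `B(v,v) = 0` as `char F = 2`. -/
def S_ALG : Prop := ∀ (F V : Type) [Field F] [CharP F 2] [AddCommGroup V] [Module F V]
  (Q : QuadraticForm F V) (ν : F) (J J' : V →ₗ[F] V), IsJ Q ν J → IsJ Q ν J' →
  (∀ x, TT J J' (J x) = J (TT J J' x) + TT J J' x) ∧
  (∀ x, ZZ J J' (J x) = J (ZZ J J' x)) ∧ (∀ x, ZZ J J' (J' x) = J' (ZZ J J' x)) ∧
  (∀ x, ZZ J J' (TT J J' x) = TT J J' (ZZ J J' x)) ∧
  (∀ x, TT J J' (TT J J' x) = ZZ J J' x + ZZ J J' (ZZ J J' x)) ∧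
  (∀ x, J' x = J x + TT J J' x + ZZ J J' x) ∧
  (∀ x y, polar Q (TT J J' x) y = polar Q x (TT J J' y)) ∧ (∀ x, polar Q (TT J J' x) x = 0) ∧
  (∀ (f : F[X]) x y, polar Q (aeval (ZZ J J') f x) y = polar Q x (aeval (ZZ J J') f y)) ∧
  (∀ (f : F[X]) x, polar Q (aeval (ZZ J J') f x) x = 0)

/-- EVEN.  The rank of an alternating bilinear form is even.  Proof: induction on `dim X`: if `β ≠ 0` pick `x, y`
with `β x y ≠ 0`; `X = ⟨x,y⟩ ⊕ {v : β x v = 0 = β y v}` and the rank is `2 +` the rank of the restriction. -/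
def S_EVEN : Prop := ∀ (F X : Type) [Field F] [AddCommGroup X] [Module F X] [FiniteDimensional F X]
  (β : X →ₗ[F] X →ₗ[F] F), (∀ x, β x x = 0) → Even (finrank F (LinearMap.range β))

/-- SING.  A self-adjoint alternating nilpotent operator `D` on a nondegenerate quadratic space of dimension `≥ 3`
kills a nonzero singular vector.  Proof.  (*) If `x, y` are linearly independent and `B(x,y) = 0` then some nonzero
combination is singular: `Q(λx+μy) = (λ√Q(x) + μ√Q(y))²`; take `λ = √Q(y), μ = √Q(x)`, or `x` if both vanish.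
If `D = 0`: take `x ≠ 0`; `x^⊥` has dimension `≥ 2` and contains `x`; use (*).  If `D ≠ 0`: let `K = ker D`;
`im D = K^⊥` (`D` self-adjoint).  `dim V` is even and `rank D = rank of B(Dx,y)` is even (S_EVEN), so `dim K` is even;
the radical of `B|K` is `R = K ∩ K^⊥ = K ∩ im D`, so `dim K - dim R` is even and `dim R` is even; `R ≠ 0` because `D`
is nilpotent and nonzero (`D^k ≠ 0 = D^{k+1}`, `k ≥ 1`, `im D^k ⊆ R`).  So `dim R ≥ 2`; use (*). -/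
def S_SING : Prop := ∀ (F V : Type) [Field F] [Finite F] [CharP F 2] [AddCommGroup V] [Module F V]
  [FiniteDimensional F V] (Q : QuadraticForm F V), Nondeg Q → 3 ≤ finrank F V →
  ∀ D : V →ₗ[F] V, (∀ x y, polar Q (D x) y = polar Q x (D y)) → (∀ x, polar Q (D x) x = 0) →
  IsNilpotent D → ∃ a, a ≠ 0 ∧ D a = 0 ∧ Q a = 0

/-- REFL.  `r_x r_y ∈ Ω` for all nonsingular `x, y`.  Proof: each `r_u` is an isometry and an involution and depends only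
on the line `Fu`; scaling (squares) we may assume `Q(x) = Q(y)`.  There is an isometry `g` with `g x = y` (then
`r_x r_y = r_x g r_x g⁻¹` is a commutator): if `x = y` trivial; if `B(x,y) ≠ 0`, `Q(x+y) = B(x,y)` and `g = r_{x+y}`
works; if `B(x,y) = 0`, `x ≠ y`, then `a = x+y` is singular, `a, x` are linearly independent, `B(a,x) = 0`; choose `w`
with `B(a,w) = 0`, `B(x,w) = 1` and `g = E(a,w)`: `E(a,w)x = x + a = y`. -/
def S_REFL : Prop := ∀ (F V : Type) [Field F] [Finite F] [CharP F 2] [AddCommGroup V] [Module F V]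
  [FiniteDimensional F V] (Q : QuadraticForm F V), Nondeg Q → ∀ x y, Q x ≠ 0 → Q y ≠ 0 →
  ∃ g ∈ Om Q, ∀ v, g v = refl Q x (refl Q y v)

/-- SIEG.  Siegel transformations are isometries, and lie in `Ω` if `dim V ≥ 5`.
Proof: `E(a,u)E(a,v) = E(a,u+v)` (so `E(a,b)² = E(a,2b) = 1`), and `Q(E(a,b)x) = Q(x)` by expansion.
For `b ∈ Fa`, `E(a,b) = 1`.  If `Q(b) ≠ 0`, `E(a,b) = r_b r_{b + Q(b)a}` (both nonsingular with value `Q(b)`), in `Ω` by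
REFL.  If `Q(b) = 0`, `b ∉ Fa`, `a ≠ 0`: `⟨a,b⟩^⊥` has dimension `≥ 3` and is not totally singular (a totally isotropic
subspace `⊆ ⟨a,b⟩^{⊥⊥} = ⟨a,b⟩`), pick `w` in it with `Q(w) ≠ 0`; `Q(b+w) = Q(w) ≠ 0` and `E(a,b) = E(a,w)E(a,b+w)`. -/
def S_SIEG : Prop := ∀ (F V : Type) [Field F] [Finite F] [CharP F 2] [AddCommGroup V] [Module F V]
  [FiniteDimensional F V] (Q : QuadraticForm F V), Nondeg Q → ∀ a b, Q a = 0 → polar Q a b = 0 →
  ∃ g : V ≃ₗ[F] V, g ∈ Orth Q ∧ g ∈ Sg Q ∧ (∀ v, g v = sieg Q a b v) ∧ (5 ≤ finrank F V → g ∈ Om Q)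

/-- CASE3.  `c = r_{Ja} r_{Ja+a}`, i.e. `c(x) = x + ρ⁻¹[(B(x,a)+B(x,Ja))a + B(x,a)Ja]`, `ρ = Q(Ja)` (note
`B(a,Ja) = 0`, `Q(Ja+a) = ρ`).  `c ∈ Ω` by REFL.  `Ja ∉ Fa` (else `Q(Ja) = μ²Q(a) = 0`) so `c ≠ 1` (take `B(x,a) ≠ 0`).
Write `R(x) = (B(x,a)+B(x,Ja))a + B(x,a)Ja`.  `R(Jx) = νB(x,a)a + B(x,Ja)Ja = J R(x)` (use `B(Jx,Ja) = B(x,J²a)`);
`TJa = JTa+Ta = z(Ja+a)`, so `R(Tx) = z[B(x,Ja)a + B(x,a)Ja] = T R(x)`; `ZJa = sJa` so `R(Zx) = sR(x) = ZR(x)`; and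
`J' = J + T + Z`. -/
def S_CASE3 : Prop := ∀ (F V : Type) [Field F] [Finite F] [CharP F 2] [AddCommGroup V] [Module F V]
  [FiniteDimensional F V] (Q : QuadraticForm F V), Nondeg Q → ∀ (ν : F) (J J' : V →ₗ[F] V),
  IsJ Q ν J → IsJ Q ν J' → ∀ (a : V) (z s : F), Q a = 0 → Q (J a) ≠ 0 → TT J J' a = z • a →
  ZZ J J' a = s • a → ConAo Q J J'

/-- CASE4a.  `S = ⟨a, Ja⟩` is totally singular of dimension 2 (`B(a,Ja) = 0`), invariant under `J` and `D = T + z`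
(`Da = 0`, `D(Ja) = JTa+Ta+zJa = za`).  `D` is self-adjoint and alternating, `D² = T²+z² = n+n²` with `n = Z+s`
nilpotent, so `D` is nilpotent.  `dim V` is even (S_EVEN for `B`) and `≥ 4` (`S ⊆ S^⊥`, `dim S^⊥ = dim V - 2`).
Suppose `dim V ≠ 4`, so `dim V ≥ 6` and `S^⊥ ≠ S`.  `S^⊥` is `D`-invariant.  The alternating form `γ(x,y) = B(Dx,y)` on
`S^⊥` has kernel `𝔅 = {b ∈ S^⊥ : Db ∈ S}` (`S^{⊥⊥} = S`), so `dim 𝔅 ≡ dim S^⊥ ≡ 0 mod 2`, and `𝔅 ≠ S` as `D` is nilpotent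
on `S^⊥/S ≠ 0`; so `dim 𝔅 ≥ 4`.  For `b ∈ 𝔅` write `Db = η₀(b)a + η₁(b)Ja`.  For `b, b' ∈ 𝔅`: `z B(b,b') = 0`, because
`B(TJb,b') = B(Jb,Tb') = zB(Jb,b')` (`Tb' = zb' + S`-part, `Jb ∈ S^⊥`) and `B(TJb,b') = B(JTb,b')+B(Tb,b') =
zB(b,Jb')+zB(b,b')`.  So `Φ(b) = η₁(b) + zQ(b)` is additive on `𝔅`, and `|ker Φ| ≥ |F|^{4-1} > |F|² = |S|` gives
`b ∉ S` with `Φ(b) = 0`, i.e. `η₁ = zQ(b)`.  Finally `Z b = s b + (z η₁) a`: `D²b = η₁ z a`, i.e. `(n+n²)b = zη₁a`, and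
`na = 0` (`D²a = 0 = (1+n)na`, `1+n` invertible), so `nb = (1+n)⁻¹zη₁a = zη₁a`. -/
def S_CASE4a : Prop := ∀ (F V : Type) [Field F] [Finite F] [CharP F 2] [AddCommGroup V] [Module F V]
  [FiniteDimensional F V] (Q : QuadraticForm F V), Nondeg Q → ∀ (ν : F) (J J' : V →ₗ[F] V),
  IsJ Q ν J → IsJ Q ν J' → ∀ (a : V) (z s : F), z * z = s + s * s →
  IsNilpotent (ZZ J J' + s • LinearMap.id) → Q a = 0 → Q (J a) = 0 → TT J J' a = z • a →
  (∀ α β : F, α • a + β • J a = 0 → α = 0 ∧ β = 0) →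
  finrank F V = 4 ∨ (5 ≤ finrank F V ∧ ∃ (b : V) (η0 η1 : F), b ∉ Submodule.span F {a, J a} ∧
    polar Q b a = 0 ∧ polar Q b (J a) = 0 ∧ TT J J' b = z • b + η0 • a + η1 • J a ∧ η1 = z * Q b ∧
    ZZ J J' b = s • b + (z * η1) • a)

/-- CASE4c.  With `α = Q(Jb) + (1+ν)Q(b)` put `c = E(a, α Ja) ∘ E(a, b + Jb) ∘ E(Ja, b)` (each in `Ω` by SIEG;
`B(a,Ja) = B(a,b) = B(Ja,b) = B(a,Jb) = 0`, `B(Ja,Jb) = B(a,J²b) = 0`, `Q(Ja) = 0`, `B(b,Jb) = 0`).  Writing `λ = B(x,a)`,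
`κ = B(x,a)+B(x,Ja)`, `λ' = B(x,b)`, `κ' = B(x,b)+B(x,Jb)`, `β = Q(b)`:
`c(x) = x + κb + λJb + κ'a + λ'Ja + (ακ+νβλ)a + (αλ+βκ+βλ)Ja`
(this is `x + ⟨x,a⟩b + ⟨x,b⟩a + q(b)⟨x,a⟩a` over `E = F[J]`, `⟨x,y⟩ = B(x,y)+B(x,Jy) + J·B(x,y)`, `q(b) = α + JQ(b)`).
It commutes with `J` (`J`-linear), with `T` (`T(λy) = λ̄Ty` for `λ ∈ E`; `⟨Tx,y⟩ = conj⟨x,Ty⟩`; `Ta = za`,
`Tb = zb + ηa`, `η = η₀+η₁J`; the difference of both sides is `conj⟨x,a⟩·(η₁ + zQ(b))a = 0`) and with `Z`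
(`Za = sa` and `Zb = sb + zη₁a`); `J' = J+T+Z`.  `c ≠ 1`: choose `x` with `B(x,a) = 0`, `B(x,Ja) = 1`; `c x = x` would give
`b ∈ ⟨a,Ja⟩`. -/
def S_CASE4c : Prop := ∀ (F V : Type) [Field F] [Finite F] [CharP F 2] [AddCommGroup V] [Module F V]
  [FiniteDimensional F V] (Q : QuadraticForm F V), Nondeg Q → ∀ (ν : F) (J J' : V →ₗ[F] V),
  IsJ Q ν J → IsJ Q ν J' → ∀ (a b : V) (z s η0 η1 : F), Q a = 0 → Q (J a) = 0 →
  (∀ α β : F, α • a + β • J a = 0 → α = 0 ∧ β = 0) → b ∉ Submodule.span F {a, J a} →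
  polar Q b a = 0 → polar Q b (J a) = 0 → TT J J' a = z • a → ZZ J J' a = s • a →
  TT J J' b = z • b + η0 • a + η1 • J a → η1 = z * Q b → ZZ J J' b = s • b + (z * η1) • a →
  5 ≤ finrank F V → ConAo Q J J'

/-- LF.  Let `n = Z + s` be nilpotent, `z² = s + s²` (square root in `F`), `D = T + z`: self-adjoint, alternating,
`D² = n+n²` nilpotent.  NS: either `X²+X+ν` has no root in `F` or `s ≠ 0,1`.
`dim V ≥ 3`: `dim V` is even (S_EVEN) and if it were 2 then `J x ∈ x^⊥ = Fx` for all `x ≠ 0`, so `J` is a scalar `μ`,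
`μ² = μ+ν`, `T = 2μJ' = 0`, `Z + Z² = 0` and, with `x ≠ 0`, `Zx = sx`, `s + s² = 0`: contradiction to NS.
SING gives `a ≠ 0`, `Da = 0`, `Q(a) = 0`; `na = 0` since `0 = D²a = (1+n)na`.  If `Q(Ja) ≠ 0` use CASE3.  Otherwise
`a, Ja` are independent: `Ja = μa` would give `μ² = μ+ν` and `μza = TJa = JTa + Ta = (μ+1)za`, `z = 0`, `s ∈ {0,1}`:
contradiction to NS.  CASE4a: if `dim V = 4`, ConB holds with `S = ⟨a,Ja⟩`; else CASE4c. -/
def S_LF : Prop := ∀ (F V : Type) [Field F] [Finite F] [CharP F 2] [AddCommGroup V] [Module F V]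
  [FiniteDimensional F V] (Q : QuadraticForm F V), Nondeg Q → Nontrivial V →
  ∀ (ν : F) (J J' : V →ₗ[F] V), IsJ Q ν J → IsJ Q ν J' → ∀ s : F,
  IsNilpotent (ZZ J J' + s • LinearMap.id) → ((∀ μ : F, μ * μ ≠ μ + ν) ∨ (s ≠ 0 ∧ s ≠ 1)) →
  ConAo Q J J' ∨ ConB Q J

/-- conclusion (A) of the split nilpotent case -/
def LSA {F V : Type} [Field F] [AddCommGroup V] [Module F V] (Q : QuadraticForm F V)
    (V0 V1 : Submodule F V) (T : V →ₗ[F] V) : Prop :=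
  ∃ c ∈ Sg Q, c ≠ 1 ∧ (∀ x, c (T x) = T (c x)) ∧ (∀ x ∈ V0, c x ∈ V0) ∧ (∀ x ∈ V1, c x ∈ V1)

/-- the situation of the split nilpotent case: `V = V0 ⊥ V1`, `T` self-adjoint nilpotent swapping `V0` and `V1` -/
structure LSset {F V : Type} [Field F] [AddCommGroup V] [Module F V] (Q : QuadraticForm F V)
    (V0 V1 : Submodule F V) (T : V →ₗ[F] V) : Prop where
  nd : Nondeg Q
  compl : IsCompl V0 V1
  orth : ∀ x ∈ V0, ∀ y ∈ V1, polar Q x y = 0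
  t0 : ∀ x ∈ V0, T x ∈ V1
  t1 : ∀ x ∈ V1, T x ∈ V0
  adj : ∀ x y, polar Q (T x) y = polar Q x (T y)
  nil : IsNilpotent T

/-- LSCROSS.  Singular nonzero `a₀ ∈ V0 ∩ ker T`, `a₁ ∈ V1 ∩ ker T`.  `S = ⟨a₀,a₁⟩` is totally singular, `S ⊆ ker T`.
`B(Tx,x) = 0` for all `x` (`x = x₀+x₁`: `B(Tx₀,x₁)+B(Tx₁,x₀) = 2B(Tx₀,x₁) = 0`).  `dim V` even (S_EVEN).  If `dim V = 4`:
`V0, V1` are nondegenerate, `dim` even (or: each `Vᵢ ∋ aᵢ` nondegenerate alternating so `dim ≥ 2`), so both have dimension 2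
and `Hyp` holds with `F aᵢ`.  Otherwise `dim V ≥ 6`; `𝔅 = {b ∈ S^⊥ : Tb ∈ S}` is the kernel of the alternating form
`B(Tx,y)` on `S^⊥`, so `dim 𝔅` is even, `𝔅 ⊋ S` (nilpotent on `S^⊥/S ≠ 0`), hence `dim 𝔅/S ≥ 2`; the linear functional
`b ↦ t₀+t₁` (`Tb = t₀a₀+t₁a₁`) vanishes on `S ⊆ ker T`, so there is `b ∈ 𝔅 \ S` with `t₀ = t₁ = t`.  Write `b = b₀+b₁`;
`Tb₀ = ta₁`, `Tb₁ = ta₀`, `B(b₀,a₀) = 0 = B(b₁,a₁)`.  `c = E(a₀,b₀) E(a₁,b₁)` preserves `V0`, `V1`;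
`c` commutes with `T`: for `x ∈ V0`, `T c x = Tx + tB(x,a₀)a₁ = c(Tx)` (`B(Tx,a₁) = 0`, `B(Tx,b₁) = B(x,Tb₁) = tB(x,a₀)`),
similarly on `V1`.  `c ≠ 1` since some `bᵢ ∉ F aᵢ`. -/
def S_LSCROSS : Prop := ∀ (F V : Type) [Field F] [Finite F] [CharP F 2] [AddCommGroup V] [Module F V]
  [FiniteDimensional F V] (Q : QuadraticForm F V) (V0 V1 : Submodule F V) (T : V →ₗ[F] V),
  LSset Q V0 V1 T → ∀ a0 ∈ V0, ∀ a1 ∈ V1, a0 ≠ 0 → a1 ≠ 0 → Q a0 = 0 → Q a1 = 0 → T a0 = 0 → T a1 = 0 →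
  LSA Q V0 V1 T ∨ (Hyp Q V0 ∧ Hyp Q V1)

/-- LSCHAIN.  `a ∈ V0` singular, `a₁ ∈ V1` nonsingular, `ker T = ⟨a,a₁⟩`.  `im T = (ker T)^⊥`, which contains `a` and
`a₁` (`B(a,a₁) = 0`).  So `a = Tb` with `b ∈ V1` (take the `V1`-component), `a₁ = Tv`, `v ∈ V0`.
If `B(b,a₁) ≠ 0`: `B(v,a) = B(v,Tb) = B(a₁,b) ≠ 0`, so `P = ⟨v,a⟩ ⊥ ⟨a₁,b⟩` is nondegenerate and `T`-invariant; `P^⊥` is
`T`-invariant, so if `P^⊥ ≠ 0` then `ker T ∩ P^⊥ ≠ 0`, but `ker T ⊆ P`: so `V = P`, `V0 = ⟨v,a⟩`, `Hyp Q V0` by `Fa`.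
If `B(b,a₁) = 0`: let `l² = Q(b)/Q(a₁)`, `b' = b + l a₁`: `Q(b') = 0`, `Tb' = a`, `b' ∈ (ker T)^⊥ = im T`, `b' = Tr`, `r ∈ V0`.
Let `k² = 1/Q(a₁)`, `w = r + k v` (`Tw = b' + k a₁`, `T²w = a`, `Q(Tw) = k²Q(a₁) = 1` since `B(b',a₁) = 0`,
`B(w,a) = B(r,Tb') + kB(v,Tb) = B(b',b') + kB(a₁,b) = 0`, `B(b',Tw) = B(Tb',w) = B(a,w) = 0`).
`c = E(a,w) E(b',Tw)` preserves `V0` (acts there as `E(a,w)`) and `V1` (as `E(b',Tw)`).  It commutes with `T`: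
`Tcx - Tx = B(x,a)Tw + B(x,b')T²w + B(x,Tw)Tb' + Q(Tw)B(x,b')Tb' = B(x,a)Tw + B(x,Tw)a` (char 2), and
`c(Tx) - Tx = B(Tx,w)a + B(Tx,b')Tw + B(Tx,Tw)b' + B(Tx,b')b' = B(x,Tw)a + B(x,a)Tw + B(x,a)b' + B(x,a)b'`.
`c ≠ 1` as `w ∉ Fa` (`Tw ≠ 0`). -/
def S_LSCHAIN : Prop := ∀ (F V : Type) [Field F] [Finite F] [CharP F 2] [AddCommGroup V] [Module F V]
  [FiniteDimensional F V] (Q : QuadraticForm F V) (V0 V1 : Submodule F V) (T : V →ₗ[F] V),
  LSset Q V0 V1 T → ∀ a ∈ V0, ∀ a1 ∈ V1, a ≠ 0 → Q a = 0 → Q a1 ≠ 0 →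
  LinearMap.ker T = Submodule.span F {a, a1} → LSA Q V0 V1 T ∨ Hyp Q V0

/-- LS.  Let `K = ker T = K₀ ⊕ K₁`, `Kᵢ = K ∩ Vᵢ` (`T` swaps).  `K ≠ 0` (nilpotent), `dim K` even (S_EVEN for `B(Tx,y)` and
for `B`; `B(Tx,x) = 0`).
(1) Two non-proportional nonsingular `x, y ∈ K₀ ∪ K₁`: `c = r_x r_y` (REFL; commutes with `T`: `T r_x v = Tv = r_x(Tv)` as
`Tx = 0`, `B(Tv,x) = B(v,Tx) = 0`; preserves `V0`, `V1`): LSA.
(2) `a, b ∈ Kᵢ` independent, `Q(a) = 0`, `B(a,b) = 0`: `c = E(a,b)`: LSA.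
(3) singular nonzero `a₀ ∈ K₀`, `a₁ ∈ K₁`: LSCROSS.
(4) Otherwise, by symmetry, `K₁` has no nonzero singular vector; by (1) `dim K₁ ≤ 1`.
 `K₁ = 0`: `K = K₀` has even dimension `≥ 2`.  Let `R = K ∩ K^⊥` (radical of `B|K`), `dim R` even.  If `R ≠ 0`, `dim R ≥ 2`,
 two independent orthogonal vectors, hence (see (*) in SING) a singular nonzero `a ∈ R` and `b ∈ R \ Fa`: (2).  If `R = 0`:
 `K^⊥ = im T`, `K ∩ im T = 0`, `T` nilpotent, so `T = 0`, `V = K = V0`, `V1 = 0`.  If `dim V ≥ 4`, a singular `a ≠ 0` exists (SING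
 with `D = 0`) and `b ∈ a^⊥ \ Fa`: (2).  If `dim V = 2`: a singular `a ≠ 0` gives `Hyp Q V0` (by `Fa`) and `Hyp Q V1` (by `0`);
 if there is none, two independent vectors are nonsingular: (1).
 `K₁ = F a₁`, `Q(a₁) ≠ 0`: by (1) `K₀` has no nonsingular vector (it would not be proportional to `a₁`), so `K₀` is totally
 singular, `dim K₀` odd; if `dim K₀ ≥ 2`: (2).  So `K₀ = Fa`, `ker T = ⟨a,a₁⟩`: LSCHAIN gives LSA or `Hyp Q V0`, and
 in the latter case `x = a₁`. -/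
def S_LS : Prop := ∀ (F V : Type) [Field F] [Finite F] [CharP F 2] [AddCommGroup V] [Module F V]
  [FiniteDimensional F V] (Q : QuadraticForm F V) (V0 V1 : Submodule F V) (T : V →ₗ[F] V),
  LSset Q V0 V1 T → Nontrivial V → LSA Q V0 V1 T ∨ (Hyp Q V0 ∧ Hyp Q V1) ∨
    ((Hyp Q V0 ∨ Hyp Q V1) ∧ ∃ x, Q x ≠ 0 ∧ (x ∈ V0 ∨ x ∈ V1) ∧ T x = 0)

/-- LSJ.  `μ² = μ+ν`, `s ∈ {0,1}`, `Z + s` nilpotent.  `V0 = eig J μ`, `V1 = eig J (μ+1)`: `(J+μ)(J+μ+1) = 0` gives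
`V = V0 ⊕ V1`, orthogonal since `J` is self-adjoint; `TJ = (J+1)T` shows that `T` swaps them; `T² = Z+Z² = n+n²`,
`n = Z+s` nilpotent, so `T` is nilpotent.  Apply LS.  `n = T² + n²`, so `n = T² + T⁴ + ... + T^{2^k}` for large `k`;
an element commuting with `T` therefore commutes with `Z = n+s`; an element preserving `V0` and `V1` commutes with `J`;
so LSA gives ConAs (`J' = J+T+Z`).  `Hyp Q V0 ∧ Hyp Q V1` gives ConB (`S = S₀ ⊕ S₁`).  In the last case `Tx = 0`, and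
`(1+n)nx = T²x = 0` gives `nx = 0`, `Zx = sx`, `J'x = Jx + sx`: ConC (with `μ` or `μ+1` in the role of `μ`). -/
def S_LSJ : Prop := ∀ (F V : Type) [Field F] [Finite F] [CharP F 2] [AddCommGroup V] [Module F V]
  [FiniteDimensional F V] (Q : QuadraticForm F V), Nondeg Q → Nontrivial V →
  ∀ (ν : F) (J J' : V →ₗ[F] V), IsJ Q ν J → IsJ Q ν J' → ∀ s : F, (s = 0 ∨ s = 1) →
  IsNilpotent (ZZ J J' + s • LinearMap.id) → (∃ μ : F, μ * μ = μ + ν) →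
  ConAs Q J J' ∨ ConB Q J ∨ ConC Q ν J J'

/-- QK.  `K ⊇ F` finite fields of characteristic 2, `V` a `K`-space, `Q` over `F` such that `K` acts self-adjointly and
alternatingly.  For fixed `x` the map `φ_x : K → F`, `φ_x(l) = Q(√l • x)` is `F`-linear
(`Q(√(l+m)x) = Q(√l x + √m x) = Q(√l x)+Q(√m x)+B(√l x,√m x)` and `B(√l x, √m x) = B(√(lm) x, x) = 0`;
`Q(√(cl)x) = cQ(√l x)` for `c ∈ F`), so by nondegeneracy of the trace form there is a unique `QK(x) ∈ K` with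
`Tr(l·QK(x)) = Q(√l x)`, i.e. `Tr(l²·QK(x)) = Q(l x)`.  `QK(m x) = m²QK(x)`, and the polar form is the `K`-bilinear `B_K`
with `Tr(l·B_K(x,y)) = B(l x, y)` (`= B(√l x,√l y)`). -/
def S_QK : Prop := ∀ (F K V : Type) [Field F] [Finite F] [CharP F 2] [Field K] [Finite K] [Algebra F K]
  [AddCommGroup V] [Module F V] [Module K V] [IsScalarTower F K V] (Q : QuadraticForm F V),
  (∀ (l : K) (x y : V), polar Q (l • x) y = polar Q x (l • y)) →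
  (∀ (l : K) (x : V), polar Q (l • x) x = 0) →
  ∃ QK : QuadraticForm K V, (∀ (l : K) (x : V), Q (l • x) = Algebra.trace F K (l ^ 2 * QK x)) ∧
    ∀ (l : K) (x y : V), polar Q (l • x) y = Algebra.trace F K (l * polar QK x y)

/-- TRANS.  Transfer between `QK` and `Q = Tr ∘ QK` (take `l = 1`): nondegeneracy (`B(x,y) = Tr B_K(x,y)`); `IsJ`
(`Tr(l B_K(Jx,y)) = B(l Jx,y) = B(x, J(l y))...` for all `l`, trace form nondegenerate; alternation: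
`Tr(l² B_K(Jx,x)) = B(l²Jx,x) = B(J(lx),lx) = 0`); `O(QK) ⊆ O(Q)` by restriction of scalars (a group homomorphism
`(V ≃ₗ[K] V) → (V ≃ₗ[F] V)`), hence `Ω(QK) → Ω(Q)`; a totally singular `K`-subspace of half the dimension is a totally
singular `F`-subspace of half the dimension. -/
def S_TRANS : Prop := ∀ (F K V : Type) [Field F] [Finite F] [CharP F 2] [Field K] [Finite K]
  [Algebra F K] [AddCommGroup V] [Module F V] [Module K V] [IsScalarTower F K V] [FiniteDimensional F V]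
  (Q : QuadraticForm F V) (QK : QuadraticForm K V),
  (∀ (l : K) (x : V), Q (l • x) = Algebra.trace F K (l ^ 2 * QK x)) →
  (∀ (l : K) (x y : V), polar Q (l • x) y = Algebra.trace F K (l * polar QK x y)) → Nondeg Q →
  Nondeg QK ∧
  (∀ (ν : F) (J : V →ₗ[F] V) (JK : V →ₗ[K] V), (∀ x, JK x = J x) → IsJ Q ν J →
    IsJ QK (algebraMap F K ν) JK) ∧
  (∀ (J J' : V →ₗ[F] V) (JK JK' : V →ₗ[K] V), (∀ x, JK x = J x) → (∀ x, JK' x = J' x) →
    ConAo QK JK JK' → ConAo Q J J') ∧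
  (∀ (J : V →ₗ[F] V) (JK : V →ₗ[K] V), (∀ x, JK x = J x) → ConB QK JK → ConB Q J)

/-- PRIM.  `p` irreducible over `F` with `p(Z)^N = 0`.
If `deg p = 1`, say `p ~ X + s`: `Z+s` is nilpotent; if `s ∈ {0,1}` and `X²+X+ν` has a root use LSJ, otherwise LF over `F`.
If `deg p ≥ 2`: let `2^e = |F|^{deg p}`, `M = eN`; `X^{2^M} ≡ X mod p` and (coefficients of `p` are fixed by
`x ↦ x^{2^M}`) `p(X^{2^M}) = p(X)^{2^M}`.  So `σ := Z^{2^M}` satisfies `p(σ) = p(Z)^{2^M} = 0` (`2^M ≥ N`) and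
`Z + σ = (multiple of p)(Z)` is nilpotent.  `K = AdjoinRoot p` (a finite field) acts on `V` through `σ` (a polynomial in
`Z`, so self-adjoint, alternating, commuting with `J`, `J'` by ALG).  QK and TRANS give `QK`, `JK`, `JK'` over `K`;
`ZZ JK JK' + (root)` is nilpotent and `root ∉ F` so it is `≠ 0, 1`: LF over `K`, and transfer back. -/
def S_PRIM : Prop := ∀ (F V : Type) [Field F] [Finite F] [CharP F 2] [AddCommGroup V] [Module F V]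
  [FiniteDimensional F V] (Q : QuadraticForm F V), Nondeg Q → Nontrivial V →
  ∀ (ν : F) (J J' : V →ₗ[F] V), IsJ Q ν J → IsJ Q ν J' → ∀ (p : F[X]) (N : ℕ), Irreducible p →
  (aeval (ZZ J J') p) ^ N = 0 → ConAs Q J J' ∨ ConB Q J ∨ ConC Q ν J J'

/-- EXT.  `V = W ⊥ W'`, extension by the identity on `W'` maps `Ω(Q|W)` into `Ω(Q)` and `Sg(Q|W)` into `Sg(Q)` (it is a
group homomorphism mapping isometries to isometries and Siegel transformations to Siegel transformations). -/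
def S_EXT : Prop := ∀ (F V : Type) [Field F] [Finite F] [CharP F 2] [AddCommGroup V] [Module F V]
  [FiniteDimensional F V] (Q : QuadraticForm F V) (W W' : Submodule F V), IsCompl W W' →
  (∀ x ∈ W, ∀ y ∈ W', polar Q x y = 0) → ∀ c ∈ Sg (Q.comp W.subtype),
  ∃ c' ∈ Sg Q, (∀ x : W, c' (x : V) = (c x : V)) ∧ (∀ y ∈ W', c' y = y)

/-- COMB.  `V = W ⊥ W'` with both parts invariant under `J`, `J'`; then the trichotomy on `W` and on `W'` gives the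
trichotomy on `V`.  ConAs on one part: EXT.  ConB + ConB: add the subspaces.  ConB + ConC (ConC on `W` with `μ`): the
`J`-invariant totally singular `S ≤ W'`, `2 dim S = dim W'`, splits as `(S ∩ eig μ) ⊕ (S ∩ eig (μ+1))`, each totally singular in the
nondegenerate space `W' ∩ eig`, so of dimension `≤` half, hence exactly half; so `eig J μ` on `V` is hyperbolic: ConC.
ConC + ConC: `x ∈ W`, `y ∈ W'` nonsingular: `c = r_x r_y ∈ Ω(Q)` (REFL), `c ≠ 1`, commutes with `J` and `J'` since `x`, `y` are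
eigenvectors of the self-adjoint `J` and `J'`: ConAs. -/
def S_COMB : Prop := ∀ (F V : Type) [Field F] [Finite F] [CharP F 2] [AddCommGroup V] [Module F V]
  [FiniteDimensional F V] (Q : QuadraticForm F V), Nondeg Q → ∀ (ν : F) (J J' : V →ₗ[F] V),
  IsJ Q ν J → IsJ Q ν J' → ∀ (W W' : Submodule F V), IsCompl W W' →
  (∀ x ∈ W, ∀ y ∈ W', polar Q x y = 0) →
  ∀ (hJ : ∀ x ∈ W, J x ∈ W) (hJ' : ∀ x ∈ W, J' x ∈ W) (kJ : ∀ x ∈ W', J x ∈ W')
    (kJ' : ∀ x ∈ W', J' x ∈ W'),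
  (ConAs (Q.comp W.subtype) (J.restrict hJ) (J'.restrict hJ') ∨
    ConB (Q.comp W.subtype) (J.restrict hJ) ∨
    ConC (Q.comp W.subtype) ν (J.restrict hJ) (J'.restrict hJ')) →
  (ConAs (Q.comp W'.subtype) (J.restrict kJ) (J'.restrict kJ') ∨
    ConB (Q.comp W'.subtype) (J.restrict kJ) ∨
    ConC (Q.comp W'.subtype) ν (J.restrict kJ) (J'.restrict kJ')) →
  ConAs Q J J' ∨ ConB Q J ∨ ConC Q ν J J'

/-- GLOB.  Strong induction on `dim V`.  `dim V = 0`: ConB with `S = 0`.  Otherwise let `p` be an irreducible factor of the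
minimal polynomial of `Z`, `N = dim V`, `f = p^N`, `W = ker f(Z)`, `W' = im f(Z)` (Fitting: `V = W ⊕ W'`; orthogonal because
`f(Z)` is self-adjoint; both `J`, `J'`-invariant; `W ≠ 0`).  `Q|W`, `Q|W'` are nondegenerate and the restrictions satisfy
IsJ.  PRIM on `W` (`ZZ` of the restrictions is the restriction of `Z`), induction on `W'`, COMB. -/
def S_GLOB : Prop := ∀ (F V : Type) [Field F] [Finite F] [CharP F 2] [AddCommGroup V] [Module F V]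
  [FiniteDimensional F V] (Q : QuadraticForm F V), Nondeg Q → ∀ (ν : F) (J J' : V →ₗ[F] V),
  IsJ Q ν J → IsJ Q ν J' → ConAs Q J J' ∨ ConB Q J ∨ ConC Q ν J J'

/-- NH.  A subspace `W`, nondegenerate, `dim ≥ 2`, on which the isometry `s` acts irreducibly, is not hyperbolic.
Proof.  WLOG `V = W`, `dim = 2k` (if hyperbolic).  `A = F[s] ⊆ End(W)`: commutative, closed under adjoint (`s* = s⁻¹`,
finite order), a field by Schur (the kernel of a nonzero `a ∈ A` is `s`-invariant), `W = A w` for `w ≠ 0`, `a ↦ a w` injective, so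
`|A| = q^{2k}`.  `*` is not the identity on `A` (else `s² = 1`, `(s+1)² = 0`, `s = 1`, `dim W = 1`), it is an involution, with
fixed field `A₀`, `|A₀| = q^k`.  `C = {a/a* : a ∈ A^×}` is a group of order `(q^{2k}-1)/(q^k-1) = q^k+1`.  For `c ∈ C`:
`cc* = 1`, so `B(cx,cy) = B(x,y)`; `x ↦ Q(cx)+Q(x)` is additive and `= f(x)²` with `f` linear, `f(sx) = f(x)`, so `ker f` is
`s`-invariant and nonzero (`dim W ≥ 2`), hence `f = 0` and `c` is an isometry of `Q`.  `C` acts freely on the nonzero singular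
vectors.  If `L` is totally singular of dimension `k` then `L = L^⊥` and the number of nonzero singular vectors is
`q^k + (q^k-1)q^{k-1} - 1 = (q^k-1)(q^{k-1}+1)` (in a coset `w+L ≠ L`, `Q(w+l) = Q(w)+B(w,l)` vanishes for `|L|/q` elements).
So `q^k+1 ∣ (q^k-1)(q^{k-1}+1)`; `gcd(q^k+1,q^k-1) = 1` (`q` even): `q^k+1 ≤ q^{k-1}+1`, a contradiction. -/
def S_NH : Prop := ∀ (F V : Type) [Field F] [Finite F] [CharP F 2] [AddCommGroup V] [Module F V]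
  [FiniteDimensional F V] (Q : QuadraticForm F V) (s : V ≃ₗ[F] V), s ∈ Orth Q →
  ∀ W : Submodule F V, (∀ x ∈ W, s x ∈ W) →
  (∀ U : Submodule F V, U ≤ W → (∀ x ∈ U, s x ∈ U) → U = ⊥ ∨ U = W) →
  (∀ x ∈ W, (∀ y ∈ W, polar Q x y = 0) → x = 0) → 2 ≤ finrank F W → ¬ Hyp Q W

/-- IRR.  `s` an isometry irreducible on `V`, `dim V = 2m`, `m` even: there are `ν` and `J` commuting with `s`, `IsJ Q ν J`,
and `X²+X+ν` has no root in `F`.  Proof.  As in NH `A = F[s]` is a field with `q^{2m}` elements, `*` (adjoint) a nontrivial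
involution with fixed field `A₀`, `|A₀| = q^m`.  `m` even, so `E = {x : x^{q²} = x} ⊆ A₀` has `q²` elements.  The trace
`E → F`, `x ↦ x + x^q`, is onto: choose `J ∈ E` with `J + J^q = 1`; `ν = J J^q = J(J+1) ∈ F`, so `J² = J+ν`; `J ∉ F` so
the roots `J, J+1` of `X²+X+ν` are not in `F`.  `J ∈ A₀` is self-adjoint, and `J = k + k*` for some `k ∈ A` (the trace
`A → A₀` is onto), so `B(Jx,x) = B(kx,x)+B(x,kx) = 0`. -/
def S_IRR : Prop := ∀ (F V : Type) [Field F] [Finite F] [CharP F 2] [AddCommGroup V] [Module F V]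
  [FiniteDimensional F V] (Q : QuadraticForm F V), Nondeg Q → ∀ m : ℕ, 0 < m → Even m →
  finrank F V = 2 * m → ∀ s : V ≃ₗ[F] V, s ∈ Orth Q →
  (∀ U : Submodule F V, (∀ x ∈ U, s x ∈ U) → U = ⊥ ∨ U = ⊤) →
  ∃ (ν : F) (J : V →ₗ[F] V), IsJ Q ν J ∧ (∀ x, s (J x) = J (s x)) ∧ (∀ μ : F, μ * μ ≠ μ + ν)

/-- FIX.  `dim X ≥ 3`: a nontrivial `c ∈ Ω` acts trivially on `X^⊥`.  Proof: if `X` has two non-proportional nonsingular
vectors `x, y`, `c = r_x r_y` (REFL; `≠ 1` since `r_x = r_y` forces `x, y` proportional).  Otherwise `X` is totally singular: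
if `u ∈ X` is nonsingular, every `v ∈ X \ Fu` is singular, and so is `u+v`, so `B(u,v) = Q(u)` for all `v ∈ X \ Fu`;
choose `v, w` with `v, w, v+w ∉ Fu` (`dim X ≥ 3`): `B(u,v+w) = 0 ≠ Q(u)`, contradiction.  Then `c = E(a,b)`, `a, b ∈ X`
independent (SIEG; `B(a,b) = 0` since `X` is totally singular); `≠ 1`. -/
def S_FIX : Prop := ∀ (F V : Type) [Field F] [Finite F] [CharP F 2] [AddCommGroup V] [Module F V]
  [FiniteDimensional F V] (Q : QuadraticForm F V), Nondeg Q → 5 ≤ finrank F V →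
  ∀ X : Submodule F V, 3 ≤ finrank F X →
  ∃ c ∈ Om Q, c ≠ 1 ∧ ∀ v, (∀ x ∈ X, polar Q v x = 0) → c v = v

/-- TS.  `W, W'` totally singular of the same dimension `≥ 2`: a nontrivial `c ∈ Ω` preserves both.  Proof: if
`0 ≠ a ∈ W ∩ W'`, take `b ∈ W \ Fa`, `c = E(a,b)`: for `x ∈ W`, `cx = x`; for `x ∈ W'`, `B(x,a) = 0` and
`cx = x + B(x,b)a ∈ W'`.  If `W ∩ W' = 0`: `0 ≠ a ∈ W`, `0 ≠ b ∈ W'` with `B(a,b) = 0` (`dim W' ≥ 2`), `c = E(a,b)`: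
`x ∈ W`: `cx = x + B(x,b)a`; `x ∈ W'`: `cx = x + B(x,a)b` (`Q(b) = 0`).  `a, b` independent, so `c ≠ 1`. -/
def S_TS : Prop := ∀ (F V : Type) [Field F] [Finite F] [CharP F 2] [AddCommGroup V] [Module F V]
  [FiniteDimensional F V] (Q : QuadraticForm F V), Nondeg Q → 5 ≤ finrank F V →
  ∀ W W' : Submodule F V, (∀ x ∈ W, Q x = 0) → (∀ x ∈ W', Q x = 0) → 2 ≤ finrank F W →
  finrank F W' = finrank F W → ∃ c ∈ Om Q, c ≠ 1 ∧ (∀ x ∈ W, c x ∈ W) ∧ (∀ x ∈ W', c x ∈ W')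

/-- PROPW.  `Ω` does not preserve a subspace `W ≠ 0` with `2 dim W ≤ dim V`, `dim V ≥ 8`.  Proof: suppose it does.  Let
`0 ≠ x ∈ W`; there is a singular `a` with `B(x,a) = 1`: choose `y` with `B(x,y) = 1`; if `Q(y) ≠ 0` take `u ∈ ⟨x,y⟩^⊥` (dimension
`≥ 6`, nondegenerate or at least not totally singular) with `Q(u) = Q(y)` (scale) and `a = y+u`; if `Q(y) = 0`, `a = y`.  For every
`b ∈ a^⊥`, `E(a,b)x - x = b + (...)a ∈ W`, so `a^⊥ ⊆ W + Fa`, `dim V - 1 ≤ dim V/2 + 1`, a contradiction. -/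
def S_PROPW : Prop := ∀ (F V : Type) [Field F] [Finite F] [CharP F 2] [AddCommGroup V] [Module F V]
  [FiniteDimensional F V] (Q : QuadraticForm F V), Nondeg Q → 8 ≤ finrank F V →
  ∀ W : Submodule F V, W ≠ ⊥ → 2 * finrank F W ≤ finrank F V → ∃ c ∈ Om Q, ∃ x ∈ W, c x ∉ W

/-- PROPJ.  If `a` is singular and `a, Ja` are independent then some `c ∈ Ω` does not commute with `J`.  Proof:
`b ∈ a^⊥ \ ⟨a,Ja⟩` (`dim a^⊥ ≥ 4`), `c = E(a,b)`.  Choose `x` with `B(x,a) = 0`, `B(x,b) = 1`: `cx = x+a`.  If `cJ = Jc` then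
`Jx + Ja = Jcx = cJx = Jx + B(Jx,a)b + (...)a`, so `Ja = B(Jx,a)b + (...)a`: either `Ja ∈ Fa` or `b ∈ ⟨a,Ja⟩`, a contradiction. -/
def S_PROPJ : Prop := ∀ (F V : Type) [Field F] [Finite F] [CharP F 2] [AddCommGroup V] [Module F V]
  [FiniteDimensional F V] (Q : QuadraticForm F V), Nondeg Q → 5 ≤ finrank F V →
  ∀ (J : V →ₗ[F] V) (a : V), Q a = 0 → (∀ α β : F, α • a + β • J a = 0 → α = 0 ∧ β = 0) →
  ∃ c ∈ Om Q, ∃ x, c (J x) ≠ J (c x)

/-- TOP.  `dim V = 2m`, `m ≥ 4` even, `Q` nondegenerate; every isometry `s` lies in a subgroup `H` of `GL(V)` not containing `Ω`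
such that for every isometry `g` some `1 ≠ c ∈ Ω` lies in `H ∩ gHg⁻¹`.
Proof.  (I) `s` irreducible on `V`: IRR gives `ν, J`; `H = cent J`.  Proper: a singular `a ≠ 0` exists (SING with `D = 0`), `Ja ∉ Fa`
as `X²+X+ν` has no root: PROPJ.  For `g`, `J' = gJg⁻¹` satisfies IsJ; GLOB: ConAs gives `c ∈ Sg Q = Om Q` (`dim ≥ 5`, SIEG),
`c ∈ H`, `g⁻¹cg ∈ H`; ConC is impossible (no root); ConB is impossible by NH with `W = ⊤`.
(II) otherwise let `W ≠ 0` be an `s`-invariant subspace of minimal dimension `k` (`W ≠ V`), so `s` is irreducible on `W`; `sW = W`.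
`W^⊥` is invariant, so `W ∩ W^⊥ ∈ {0, W}`.
 (a) `B = 0` on `W`: `U = {x ∈ W : Q(x) = 0}` is an invariant subspace, so `W` or `0`.
  `U = W`, `k ≥ 2`: `H = stab W`; TS with `W`, `gW`; `2k ≤ dim V`; proper by PROPW.
  `k = 1` (this includes `U = 0`: two independent vectors of `W` are orthogonal, so give a nonzero singular vector; see (*) in SING):
  `H = stab W`, FIX with `X = (W + gW)^⊥`, `dim X ≥ 2m-2 ≥ 3`, and `X^⊥ = W + gW`.
 (b) `W ∩ W^⊥ = 0`: `k` is even (S_EVEN), `W^⊥` has dimension `2m-k ≥ k` by minimality.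
  `k < m`: `k ≤ m-2`; `X = (W+gW)^⊥` has dimension `≥ 2m-2k ≥ 4`: FIX; `H = stab W`; PROPW.
  `k = m`: `W^⊥` also has dimension `m`, so by minimality `s` is irreducible on `W^⊥`.  `J` = projection to `W` along `W^⊥`, `ν = 0`:
  IsJ.  `s` commutes with `J`; `H = cent J`.  Proper: `w ∈ W`, `w' ∈ W^⊥` nonsingular (`W`, `W^⊥` are nondegenerate so not totally
  singular), scaled so that `Q(w) = Q(w')`; `a = w+w'` is singular and `a, Ja = w` are independent: PROPJ.  For `g`, `J' = gJg⁻¹`; GLOB: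
  ConAs: fine.  ConB/ConC: `eig J μ` with `μ² = μ`, i.e. `eig J 0 = W^⊥` or `eig J 1 = W` would be hyperbolic (for ConB: `S` splits
  as `(S ∩ W) ⊕ (S ∩ W^⊥)`, each of dimension at most half of `m`, hence exactly), contradicting NH. -/
def S_TOP : Prop := ∀ (F V : Type) [Field F] [Finite F] [CharP F 2] [AddCommGroup V] [Module F V]
  [FiniteDimensional F V] (Q : QuadraticForm F V), Nondeg Q → ∀ m : ℕ, 4 ≤ m → Even m →
  finrank F V = 2 * m → ∀ s ∈ Orth Q, ∃ H : Subgroup (V ≃ₗ[F] V), s ∈ H ∧ ¬ (Om Q ≤ H) ∧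
    ∀ g ∈ Orth Q, ∃ c ∈ Om Q, c ≠ 1 ∧ c ∈ H ∧ g⁻¹ * c * g ∈ H

/-- DOM.  If every element `s` of a group `G` lies in a proper subgroup `H` with `H ∩ gHg⁻¹ ≠ 1` for all `g`, then no total
dominating set contained in a conjugacy class has fewer than three elements.  Proof: let `S` be one, `|S| ≤ 2`.  If `S = ∅` then `G` is
trivial, but `H` (for `s = 1`) is a proper subgroup.  If `S = {s}`, take `1 ≠ c ∈ H`: `⟨c,s⟩ ≤ H`.  If `S = {s, gsg⁻¹}`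
take `1 ≠ c ∈ H ∩ gHg⁻¹`: `⟨c,s⟩ ≤ H`, `⟨c,gsg⁻¹⟩ ≤ gHg⁻¹`, both proper. -/
def S_DOM : Prop := ∀ (G : Type) [Group G],
  (∀ s : G, ∃ H : Subgroup G, s ∈ H ∧ H ≠ ⊤ ∧ ∀ g : G, ∃ c : G, c ≠ 1 ∧ c ∈ H ∧ g⁻¹ * c * g ∈ H) →
  3 ≤ gammaU G

end Pool.Agent.H330.EvenQ
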