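import Pool.Agent.H330.EvenQ.Spec

set_option autoImplicit false
set_option linter.unusedSectionVars false

namespace Pool.Agent.H330.EvenQ.TOP

open QuadraticMap Module Polynomial Pool.Agent.H330.EvenQ

section Basic

variable {F V : Type} [Field F] [AddCommGroup V] [Module F V]

/-- the orthogonal complement -/
def perp (Q : QuadraticForm F V) (W : Submodule F V) : Submodule F V where
  carrier := {x | ∀ y ∈ W, polar Q x y = 0}
  add_mem' := by
    intro a b ha hb y hy
    rw [polar_add_left, ha y hy, hb y hy, add_zero]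
  zero_mem' := by
    intro y _
    rw [polar_zero_left]
  smul_mem' := by
    intro c x hx y hy
    rw [polar_smul_left, hx y hy, smul_zero]

lemma mem_perp {Q : QuadraticForm F V} {W : Submodule F V} {x : V} :
    x ∈ perp Q W ↔ ∀ y ∈ W, polar Q x y = 0 := Iff.rfl

lemma perp_eq (Q : QuadraticForm F V) (W : Submodule F V) :
    perp Q W = LinearMap.BilinForm.orthogonal Q.polarBilin W := by
  ext x
  rw [mem_perp, LinearMap.BilinForm.mem_orthogonal_iff]
  constructor
  · intro h y hy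
    rw [polarBilin_apply_apply, polar_comm]
    exact h y hy
  · intro h y hy
    rw [polar_comm]
    exact h y hy

lemma nondeg_bilin {Q : QuadraticForm F V} (h : Nondeg Q) :
    LinearMap.BilinForm.Nondegenerate Q.polarBilin := by
  constructor
  · intro x hx
    exact h x hx
  · intro x hx
    apply h x
    intro y
    rw [polar_comm]
    exact hx y

lemma refl_bilin (Q : QuadraticForm F V) : LinearMap.BilinForm.IsRefl Q.polarBilin := by
  intro x y h
  rw [polarBilin_apply_apply] at h ⊢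
  rw [polar_comm]
  exact h

variable [FiniteDimensional F V]

lemma finrank_perp {Q : QuadraticForm F V} (h : Nondeg Q) (W : Submodule F V) :
    finrank F (perp Q W) + finrank F W = finrank F V := by
  have h1 := LinearMap.BilinForm.finrank_orthogonal (nondeg_bilin h) W
  rw [← perp_eq] at h1
  have h2 := Submodule.finrank_le W
  omega

lemma perp_perp {Q : QuadraticForm F V} (h : Nondeg Q) (W : Submodule F V) :
    perp Q (perp Q W) = W := by
  rw [perp_eq, perp_eq]
  exact LinearMap.BilinForm.orthogonal_orthogonal (nondeg_bilin h) (refl_bilin Q) W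

lemma mem_stab {s : V ≃ₗ[F] V} {W : Submodule F V} (h : ∀ x ∈ W, s x ∈ W) : s ∈ stab W := by
  have h1 : W.map (s : V →ₗ[F] V) = W := by
    apply Submodule.eq_of_le_of_finrank_le
    · rintro _ ⟨x, hx, rfl⟩
      exact h x hx
    · exact (LinearEquiv.finrank_map_eq s W).ge
  intro x
  constructor
  · intro hx
    rw [← h1] at hx
    obtain ⟨y, hy, hyx⟩ := hx
    have : y = x := s.injective hyx
    rwa [← this]
  · exact h x

lemma perp_inv {Q : QuadraticForm F V} {s : V ≃ₗ[F] V} (hs : s ∈ Orth Q) {W : Submodule F V}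
    (h : ∀ x ∈ W, s x ∈ W) : ∀ x ∈ perp Q W, s x ∈ perp Q W := by
  have h1 : s ∈ stab W := mem_stab h
  have hpol : ∀ a b, polar Q (s a) (s b) = polar Q a b := by
    intro a b
    have hs' : ∀ x, Q (s x) = Q x := hs
    simp only [polar, ← map_add, hs']
  intro x hx y hy
  have h2 : s (s.symm y) = y := s.apply_symm_apply y
  have h3 : s.symm y ∈ W := by
    rw [← h1, h2]
    exact hy
  rw [← h2, hpol]
  exact hx _ h3

end Basic

section Conj

variable {F V : Type} [Field F] [AddCommGroup V] [Module F V]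

/-- conjugate of `J` -/
def cj (g : V ≃ₗ[F] V) (J : V →ₗ[F] V) : V →ₗ[F] V :=
  (g : V →ₗ[F] V) ∘ₗ J ∘ₗ (g.symm : V →ₗ[F] V)

lemma cj_apply (g : V ≃ₗ[F] V) (J : V →ₗ[F] V) (x : V) : cj g J x = g (J (g.symm x)) := rfl

lemma orth_polar {Q : QuadraticForm F V} {s : V ≃ₗ[F] V} (hs : s ∈ Orth Q) (a b : V) :
    polar Q (s a) (s b) = polar Q a b := by
  have hs' : ∀ x, Q (s x) = Q x := hs
  simp only [polar, ← map_add, hs']

lemma cj_isJ {Q : QuadraticForm F V} {ν : F} {J : V →ₗ[F] V} (hJ : IsJ Q ν J) {g : V ≃ₗ[F] V}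
    (hg : g ∈ Orth Q) : IsJ Q ν (cj g J) := by
  have key : ∀ x y, polar Q (g x) y = polar Q x (g.symm y) := by
    intro x y
    conv_lhs => rw [← g.apply_symm_apply y]
    exact orth_polar hg _ _
  refine ⟨?_, ?_, ?_⟩
  · intro x
    rw [cj_apply, cj_apply, g.symm_apply_apply, hJ.sq, map_add, map_smul, g.apply_symm_apply]
  · intro x y
    rw [cj_apply, cj_apply, key, hJ.adj, polar_comm, ← key, polar_comm]
  · intro x
    rw [cj_apply, key, hJ.alt]

lemma Sg_le [Finite F] [CharP F 2] [FiniteDimensional F V] (hS : S_SIEG) {Q : QuadraticForm F V}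
    (hQ : Nondeg Q) (h5 : 5 ≤ finrank F V) : Sg Q ≤ Om Q := by
  unfold Sg
  rw [sup_le_iff]
  refine ⟨le_refl _, ?_⟩
  rw [Subgroup.closure_le]
  rintro g ⟨a, b, ha, hab, hg⟩
  obtain ⟨g', -, -, h1, h2⟩ := hS F V Q hQ a b ha hab
  have : g = g' := by
    ext x
    rw [hg, h1]
  rw [this]
  exact h2 h5

/-- the common part of the cases with `H = cent J` -/
lemma cent_case [Finite F] [CharP F 2] [FiniteDimensional F V] (hS : S_SIEG) (hGl : S_GLOB)
    {Q : QuadraticForm F V} (hQ : Nondeg Q) (h5 : 5 ≤ finrank F V) {ν : F} {J : V →ₗ[F] V}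
    (hJ : IsJ Q ν J) (hB : ¬ ConB Q J) (hC : ∀ J', ¬ ConC Q ν J J') (g : V ≃ₗ[F] V)
    (hg : g ∈ Orth Q) : ∃ c ∈ Om Q, c ≠ 1 ∧ c ∈ cent J ∧ g⁻¹ * c * g ∈ cent J := by
  rcases hGl F V Q hQ ν J (cj g J) hJ (cj_isJ hJ hg) with h | h | h
  · obtain ⟨c, hc, hc1, h1, h2⟩ := h
    refine ⟨c, Sg_le hS hQ h5 hc, hc1, h1, ?_⟩
    intro x
    change g.symm (c (g (J x))) = J (g.symm (c (g x)))
    have h3 := h2 (g x)
    rw [cj_apply, cj_apply, g.symm_apply_apply] at h3
    rw [h3, g.symm_apply_apply]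
  · exact absurd h hB
  · exact absurd h (hC _)

end Conj

section Cases

variable {F V : Type} [Field F] [Finite F] [CharP F 2] [AddCommGroup V] [Module F V]
  [FiniteDimensional F V]

/-- the case `H = stab W`, `W` small -/
lemma fix_case (hF : S_FIX) (hW : S_PROPW) {Q : QuadraticForm F V} (hQ : Nondeg Q)
    (h8 : 8 ≤ finrank F V) (W : Submodule F V) (hW0 : W ≠ ⊥)
    (hk : 2 * finrank F W + 3 ≤ finrank F V) :
    ¬ (Om Q ≤ stab W) ∧ ∀ g ∈ Orth Q, ∃ c ∈ Om Q, c ≠ 1 ∧ c ∈ stab W ∧ g⁻¹ * c * g ∈ stab W := by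
  constructor
  · intro hcon
    obtain ⟨c, hc, x, hx, hcx⟩ := hW F V Q hQ h8 W hW0 (by omega)
    exact hcx ((hcon hc x).2 hx)
  · intro g hg
    set W' := W.map (g : V →ₗ[F] V) with hW'
    have hf' : finrank F W' = finrank F W := LinearEquiv.finrank_map_eq g W
    set X := perp Q (W ⊔ W') with hX
    have h1 : finrank F X + finrank F ↥(W ⊔ W') = finrank F V := finrank_perp hQ (W ⊔ W')
    have h2 : finrank F ↥(W ⊔ W') ≤ finrank F W + finrank F W' :=
      Submodule.finrank_add_le_finrank_add_finrank W W'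
    obtain ⟨c, hc, hc1, hc2⟩ := hF F V Q hQ (by omega) X (by omega)
    have hfix : ∀ v ∈ W ⊔ W', c v = v := by
      intro v hv
      apply hc2
      intro x hx
      rw [polar_comm]
      exact hx v hv
    refine ⟨c, hc, hc1, mem_stab ?_, mem_stab ?_⟩
    · intro x hx
      rw [hfix x (Submodule.mem_sup_left hx)]
      exact hx
    · intro x hx
      change g.symm (c (g x)) ∈ W
      have h3 : g x ∈ W' := ⟨x, hx, rfl⟩
      rw [hfix _ (Submodule.mem_sup_right h3), g.symm_apply_apply]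
      exact hx

/-- the case of a totally singular `W` -/
lemma ts_case (hT : S_TS) (hW : S_PROPW) {Q : QuadraticForm F V} (hQ : Nondeg Q)
    (h8 : 8 ≤ finrank F V) (W : Submodule F V) (hW0 : W ≠ ⊥) (h2 : 2 ≤ finrank F W)
    (hk : 2 * finrank F W ≤ finrank F V) (hsing : ∀ x ∈ W, Q x = 0) :
    ¬ (Om Q ≤ stab W) ∧ ∀ g ∈ Orth Q, ∃ c ∈ Om Q, c ≠ 1 ∧ c ∈ stab W ∧ g⁻¹ * c * g ∈ stab W := by
  constructor
  · intro hcon
    obtain ⟨c, hc, x, hx, hcx⟩ := hW F V Q hQ h8 W hW0 hk
    exact hcx ((hcon hc x).2 hx)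
  · intro g hg
    have hg' : ∀ x, Q (g x) = Q x := hg
    set W' := W.map (g : V →ₗ[F] V) with hW'
    have hf' : finrank F W' = finrank F W := LinearEquiv.finrank_map_eq g W
    have hsing' : ∀ x ∈ W', Q x = 0 := by
      rintro _ ⟨x, hx, rfl⟩
      change Q (g x) = 0
      rw [hg', hsing x hx]
    obtain ⟨c, hc, hc1, hc2, hc3⟩ := hT F V Q hQ (by omega) W W' hsing hsing' h2 hf'
    refine ⟨c, hc, hc1, mem_stab hc2, mem_stab ?_⟩
    intro x hx
    change g.symm (c (g x)) ∈ W
    have h3 : g x ∈ W' := ⟨x, hx, rfl⟩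
    obtain ⟨y, hy, hyx⟩ := hc3 _ h3
    have h4 : g y = c (g x) := hyx
    rw [← h4, g.symm_apply_apply]
    exact hy

lemma two_eq_zero' : (2 : F) = 0 := by
  have := CharP.cast_eq_zero F 2
  exact_mod_cast this

lemma exists_sq (a : F) : ∃ b : F, b * b = a := by
  have h := FiniteField.isSquare_of_char_two (F := F) (ringChar.eq F 2) a
  obtain ⟨b, hb⟩ := h
  exact ⟨b, hb.symm⟩

lemma polar_self' (Q : QuadraticForm F V) (x : V) : polar Q x x = 0 := by
  rw [polar_self, two_smul, ← two_mul, two_eq_zero', zero_mul]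

lemma Q_add (Q : QuadraticForm F V) (x y : V) : Q (x + y) = Q x + Q y + polar Q x y := by
  rw [polar]; ring

/-- two independent orthogonal vectors give a nonzero singular vector -/
lemma anis_case {Q : QuadraticForm F V} (W : Submodule F V) (h2 : 2 ≤ finrank F W)
    (hB : ∀ x ∈ W, ∀ y ∈ W, polar Q x y = 0) : ∃ z ∈ W, z ≠ 0 ∧ Q z = 0 := by
  obtain ⟨x, hx, hx0⟩ : ∃ x ∈ W, x ≠ 0 := by
    apply W.exists_mem_ne_zero_of_ne_bot
    intro h
    rw [h, finrank_bot] at h2
    omega
  obtain ⟨y, hy, hyx⟩ : ∃ y ∈ W, y ∉ Submodule.span F {x} := by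
    by_contra hcon
    push Not at hcon
    have h3 : W ≤ Submodule.span F {x} := hcon
    have h4 := Submodule.finrank_mono h3
    rw [finrank_span_singleton hx0] at h4
    omega
  obtain ⟨lam, hlam⟩ := exists_sq (Q y)
  obtain ⟨mu, hmu⟩ := exists_sq (Q x)
  by_cases hQx : Q x = 0
  · exact ⟨x, hx, hx0, hQx⟩
  refine ⟨lam • x + mu • y, W.add_mem (W.smul_mem _ hx) (W.smul_mem _ hy), ?_, ?_⟩
  · intro h0
    have hmu0 : mu ≠ 0 := by
      intro h
      rw [h, zero_mul] at hmu
      exact hQx hmu.symm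
    apply hyx
    rw [Submodule.mem_span_singleton]
    refine ⟨- (mu⁻¹ * lam), ?_⟩
    have h3 : mu⁻¹ • (lam • x + mu • y) = 0 := by rw [h0, smul_zero]
    rw [smul_add, smul_smul, smul_smul, inv_mul_cancel₀ hmu0, one_smul] at h3
    rw [neg_smul]
    exact (eq_neg_of_add_eq_zero_right h3).symm
  · rw [Q_add, polar_smul_left, polar_smul_right, hB x hx y hy, smul_zero, smul_zero, add_zero,
      QuadraticMap.map_smul, QuadraticMap.map_smul, smul_eq_mul, smul_eq_mul, hlam, hmu, mul_comm (Q x),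
      ← two_mul, two_eq_zero', zero_mul]

/-- a totally isotropic subspace of an orthogonal summand has at most half its dimension -/
lemma iso_le {Q : QuadraticForm F V} (hQ : Nondeg Q) {W W' : Submodule F V} (hc : IsCompl W W')
    (horth : ∀ x ∈ W, ∀ y ∈ W', polar Q x y = 0) (U : Submodule F V) (hU : U ≤ W)
    (hB : ∀ x ∈ U, ∀ y ∈ U, polar Q x y = 0) : 2 * finrank F U ≤ finrank F W := by
  have h1 : U ⊔ W' ≤ perp Q U := by
    rw [sup_le_iff]
    constructor
    · intro x hx y hy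
      exact hB x hx y hy
    · intro x hx y hy
      rw [polar_comm]
      exact horth y (hU hy) x hx
  have h2 := Submodule.finrank_mono h1
  have h3 := Submodule.finrank_sup_add_finrank_inf_eq U W'
  have h4 : U ⊓ W' = ⊥ := by
    rw [eq_bot_iff]
    refine le_trans (inf_le_inf_right W' hU) ?_
    rw [hc.inf_eq_bot]
  rw [h4, finrank_bot] at h3
  have h5 := finrank_perp hQ U
  have h6 := Submodule.finrank_add_eq_of_isCompl hc
  omega

/-- a nondegenerate summand contains a nonsingular vector -/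
lemma exists_nonsing {Q : QuadraticForm F V} {W : Submodule F V} (hW : W ≠ ⊥)
    (hnd : ∀ x ∈ W, (∀ y ∈ W, polar Q x y = 0) → x = 0) : ∃ x ∈ W, Q x ≠ 0 := by
  by_contra hcon
  push Not at hcon
  obtain ⟨x, hx, hx0⟩ := W.exists_mem_ne_zero_of_ne_bot hW
  apply hx0
  apply hnd x hx
  intro y hy
  rw [polar, hcon _ (W.add_mem hx hy), hcon x hx, hcon y hy]
  ring

/-- the case of a decomposition into two irreducible summands of dimension `m` -/
lemma compl_case (hS : S_SIEG) (hGl : S_GLOB) (hN : S_NH) (hJ : S_PROPJ) {Q : QuadraticForm F V}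
    (hQ : Nondeg Q) (m : ℕ) (hm : 4 ≤ m) (hV : finrank F V = 2 * m) {s : V ≃ₗ[F] V}
    (hs : s ∈ Orth Q) (W W' : Submodule F V) (hc : IsCompl W W')
    (horth : ∀ x ∈ W, ∀ y ∈ W', polar Q x y = 0) (hsW : ∀ x ∈ W, s x ∈ W)
    (hsW' : ∀ x ∈ W', s x ∈ W')
    (hi : ∀ U : Submodule F V, U ≤ W → (∀ x ∈ U, s x ∈ U) → U = ⊥ ∨ U = W)
    (hi' : ∀ U : Submodule F V, U ≤ W' → (∀ x ∈ U, s x ∈ U) → U = ⊥ ∨ U = W')
    (hnd : ∀ x ∈ W, (∀ y ∈ W, polar Q x y = 0) → x = 0)
    (hnd' : ∀ x ∈ W', (∀ y ∈ W', polar Q x y = 0) → x = 0)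
    (hd : finrank F W = m) (hd' : finrank F W' = m) :
    ∃ H : Subgroup (V ≃ₗ[F] V), s ∈ H ∧ ¬ (Om Q ≤ H) ∧
      ∀ g ∈ Orth Q, ∃ c ∈ Om Q, c ≠ 1 ∧ c ∈ H ∧ g⁻¹ * c * g ∈ H := by
  obtain ⟨J, hJ1, hJ0, hJm, hJs⟩ : ∃ J : V →ₗ[F] V, (∀ x ∈ W, J x = x) ∧ (∀ x ∈ W', J x = 0) ∧
      (∀ x, J x ∈ W) ∧ ∀ x, x - J x ∈ W' :=
    ⟨W.projection W' hc, fun x hx => Submodule.projection_apply_of_mem_left hc hx,
      fun x hx => (Submodule.projection_apply_eq_zero_iff hc).2 hx,
      fun x => Submodule.projection_apply_mem hc x, fun x => Submodule.sub_projection_mem hc x⟩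
  have horth' : ∀ x ∈ W', ∀ y ∈ W, polar Q x y = 0 := fun x hx y hy => by
    rw [polar_comm]; exact horth y hy x hx
  have hnh : ¬ Hyp Q W := hN F V Q s hs W hsW hi hnd (by omega)
  have hnh' : ¬ Hyp Q W' := hN F V Q s hs W' hsW' hi' hnd' (by omega)
  have hIJ : IsJ Q 0 J := by
    have key : ∀ x y, polar Q (J x) y = polar Q (J x) (J y) := by
      intro x y
      have h1 : y = J y + (y - J y) := by abel
      conv_lhs => rw [h1]
      rw [polar_add_right, horth _ (hJm x) _ (hJs y), add_zero]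
    have key2 : ∀ x y, polar Q x (J y) = polar Q (J x) (J y) := by
      intro x y
      rw [polar_comm, key, polar_comm]
    refine ⟨?_, ?_, ?_⟩
    · intro x
      rw [hJ1 _ (hJm x), zero_smul, add_zero]
    · intro x y
      rw [key x y, key2 x y]
    · intro x
      rw [key, polar_self']
  have hsJ : ∀ x, s (J x) = J (s x) := by
    intro x
    have h1 : s x = s (J x) + s (x - J x) := by rw [← map_add]; congr 1; abel
    rw [h1, map_add, hJ1 _ (hsW _ (hJm x)), hJ0 _ (hsW' _ (hJs x)), add_zero]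
  have hW0 : W ≠ ⊥ := by
    intro h; rw [h, finrank_bot] at hd; omega
  have hW0' : W' ≠ ⊥ := by
    intro h; rw [h, finrank_bot] at hd'; omega
  refine ⟨cent J, hsJ, ?_, ?_⟩
  · -- proper
    intro hcon
    obtain ⟨w, hw, hQw⟩ := exists_nonsing hW0 hnd
    obtain ⟨w', hw', hQw'⟩ := exists_nonsing hW0' hnd'
    obtain ⟨lam, hlam⟩ := exists_sq (Q w / Q w')
    have hlam0 : lam ≠ 0 := by
      intro h
      rw [h, zero_mul] at hlam
      exact div_ne_zero hQw hQw' hlam.symm
    have hw0' : w' ≠ 0 := by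
      intro h; apply hQw'; rw [h, QuadraticMap.map_zero]
    have hw0 : w ≠ 0 := by
      intro h; apply hQw; rw [h, QuadraticMap.map_zero]
    have hJa : J (w + lam • w') = w := by
      rw [map_add, map_smul, hJ1 w hw, hJ0 w' hw', smul_zero, add_zero]
    obtain ⟨c, hc1, x, hx⟩ := hJ F V Q hQ (by omega) J (w + lam • w')
      (by
        rw [Q_add, QuadraticMap.map_smul, polar_smul_right, horth w hw w' hw', smul_zero, add_zero,
          smul_eq_mul, hlam, div_mul_cancel₀ _ hQw', ← two_mul, two_eq_zero', zero_mul])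
      (by
        intro α β h
        rw [hJa] at h
        have h1 := congrArg J h
        rw [map_add, map_smul, hJa, map_smul, hJ1 w hw, map_zero, ← add_smul] at h1
        have h2 : α + β = 0 := by
          rcases smul_eq_zero.1 h1 with h | h
          · exact h
          · exact absurd h hw0
        have h3 : α • (lam • w') = 0 := by
          have h4 : α • (w + lam • w') + β • w = (α + β) • w + α • (lam • w') := by
            rw [smul_add, add_smul]; abel
          rw [h4, h2, zero_smul, zero_add] at h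
          exact h
        have h5 : α = 0 := by
          rcases smul_eq_zero.1 h3 with h | h
          · exact h
          · rcases smul_eq_zero.1 h with h | h
            · exact absurd h hlam0
            · exact absurd h hw0'
        rw [h5, zero_add] at h2
        exact ⟨h5, h2⟩)
    exact hx (hcon hc1 x)
  · -- intersection
    intro g hg
    refine cent_case hS hGl hQ (by omega) hIJ ?_ ?_ g hg
    · rintro ⟨S, hSJ, hSQ, hSd⟩
      have hSB : ∀ x ∈ S, ∀ y ∈ S, polar Q x y = 0 := by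
        intro x hx y hy
        rw [polar, hSQ _ (S.add_mem hx hy), hSQ x hx, hSQ y hy]
        ring
      have h1 : S ≤ (S ⊓ W) ⊔ (S ⊓ W') := by
        intro x hx
        rw [Submodule.mem_sup]
        exact ⟨J x, ⟨hSJ x hx, hJm x⟩, x - J x, ⟨S.sub_mem hx (hSJ x hx), hJs x⟩, by abel⟩
      have h2 := Submodule.finrank_mono h1
      have h3 := Submodule.finrank_add_le_finrank_add_finrank (S ⊓ W) (S ⊓ W')
      have h4 := iso_le hQ hc horth (S ⊓ W) inf_le_right
        (fun x hx y hy => hSB x hx.1 y hy.1)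
      have h5 := iso_le hQ hc.symm horth' (S ⊓ W') inf_le_right
        (fun x hx y hy => hSB x hx.1 y hy.1)
      apply hnh
      exact ⟨S ⊓ W, inf_le_right, fun x hx => hSQ x hx.1, by omega⟩
    · rintro J' ⟨μ, hμ, hH, -⟩
      have h0 : μ = 0 ∨ μ = 1 := by
        have h1 : μ * (μ - 1) = 0 := by linear_combination hμ
        rcases mul_eq_zero.1 h1 with h | h
        · exact Or.inl h
        · exact Or.inr (sub_eq_zero.1 h)
      rcases h0 with rfl | rfl
      · have h1 : eig J 0 = W' := by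
          ext x
          rw [eig, LinearMap.mem_ker, LinearMap.sub_apply, LinearMap.smul_apply, zero_smul, sub_zero]
          constructor
          · intro h
            have h2 := hJs x
            rwa [h, sub_zero] at h2
          · exact hJ0 x
        rw [h1] at hH
        exact hnh' hH
      · have h1 : eig J 1 = W := by
          ext x
          rw [eig, LinearMap.mem_ker, LinearMap.sub_apply, LinearMap.smul_apply, one_smul,
            LinearMap.id_apply, sub_eq_zero]
          constructor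
          · intro h
            rw [← h]
            exact hJm x
          · exact hJ1 x
        rw [h1] at hH
        exact hnh hH

/-- the irreducible case -/
lemma irr_case (hG : S_SING) (hS : S_SIEG) (hI : S_IRR) (hGl : S_GLOB) (hN : S_NH) (hJ : S_PROPJ)
    {Q : QuadraticForm F V}
    (hQ : Nondeg Q) (m : ℕ) (hm : 4 ≤ m) (hme : Even m) (hV : finrank F V = 2 * m) {s : V ≃ₗ[F] V}
    (hs : s ∈ Orth Q) (hirr : ∀ U : Submodule F V, (∀ x ∈ U, s x ∈ U) → U = ⊥ ∨ U = ⊤) :
    ∃ H : Subgroup (V ≃ₗ[F] V), s ∈ H ∧ ¬ (Om Q ≤ H) ∧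
      ∀ g ∈ Orth Q, ∃ c ∈ Om Q, c ≠ 1 ∧ c ∈ H ∧ g⁻¹ * c * g ∈ H := by
  obtain ⟨ν, J, hIJ, hsJ, hroot⟩ := hI F V Q hQ m (by omega) hme hV s hs hirr
  refine ⟨cent J, hsJ, ?_, ?_⟩
  · intro hcon
    obtain ⟨a, ha0, -, ha⟩ := hG F V Q hQ (by omega) 0
      (by intro x y; rw [LinearMap.zero_apply, LinearMap.zero_apply, polar_zero_left, polar_zero_right])
      (by intro x; rw [LinearMap.zero_apply, polar_zero_left]) ⟨1, by rw [pow_one]⟩
    obtain ⟨c, hc1, x, hx⟩ := hJ F V Q hQ (by omega) J a ha (by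
      intro α β h
      have hβ : β = 0 := by
        by_contra hβ
        have h1 : J a = (- (β⁻¹ * α)) • a := by
          have h2 : β⁻¹ • (α • a + β • J a) = 0 := by rw [h, smul_zero]
          rw [smul_add, smul_smul, smul_smul, inv_mul_cancel₀ hβ, one_smul] at h2
          rw [neg_smul]
          exact eq_neg_of_add_eq_zero_right h2
        obtain ⟨μ, hμ⟩ : ∃ μ : F, J a = μ • a := ⟨_, h1⟩
        have h3 := hIJ.sq a
        rw [hμ, map_smul, hμ, smul_smul, ← add_smul, ← sub_eq_zero, ← sub_smul] at h3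
        rcases smul_eq_zero.1 h3 with h4 | h4
        · exact hroot μ (sub_eq_zero.1 h4)
        · exact ha0 h4
      rw [hβ, zero_smul, add_zero] at h
      rcases smul_eq_zero.1 h with h4 | h4
      · exact ⟨h4, hβ⟩
      · exact absurd h4 ha0)
    exact hx (hcon hc1 x)
  · intro g hg
    refine cent_case hS hGl hQ (by omega) hIJ ?_ ?_ g hg
    · rintro ⟨S, -, hSQ, hSd⟩
      refine hN F V Q s hs ⊤ (fun x _ => Submodule.mem_top) (fun U _ hU => hirr U hU) ?_ ?_ ?_
      · intro x _ hx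
        exact hQ x (fun y => hx y Submodule.mem_top)
      · rw [finrank_top]; omega
      · exact ⟨S, le_top, hSQ, by rw [finrank_top]; exact hSd⟩
    · rintro J' ⟨μ, hμ, -⟩
      exact hroot μ hμ

lemma main_case (hE : S_EVEN) (hG : S_SING) (hS : S_SIEG) (hI : S_IRR) (hGl : S_GLOB) (hN : S_NH)
    (hF : S_FIX) (hT : S_TS) (hW : S_PROPW) (hJ : S_PROPJ) {Q : QuadraticForm F V}
    (hQ : Nondeg Q) (m : ℕ) (hm : 4 ≤ m) (hme : Even m) (hV : finrank F V = 2 * m) {s : V ≃ₗ[F] V}
    (hs : s ∈ Orth Q) :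
    ∃ H : Subgroup (V ≃ₗ[F] V), s ∈ H ∧ ¬ (Om Q ≤ H) ∧
      ∀ g ∈ Orth Q, ∃ c ∈ Om Q, c ≠ 1 ∧ c ∈ H ∧ g⁻¹ * c * g ∈ H := by
  classical
  by_cases hirr : ∀ U : Submodule F V, (∀ x ∈ U, s x ∈ U) → U = ⊥ ∨ U = ⊤
  · exact irr_case hG hS hI hGl hN hJ hQ m hm hme hV hs hirr
  push Not at hirr
  obtain ⟨U, hU, hU0, hU1⟩ := hirr
  have hP : ∃ k, ∃ W : Submodule F V, (∀ x ∈ W, s x ∈ W) ∧ W ≠ ⊥ ∧ finrank F W = k :=
    ⟨_, U, hU, hU0, rfl⟩
  obtain ⟨W, hWi, hW0, hWk⟩ := Nat.find_spec hP
  have hmin : ∀ W' : Submodule F V, (∀ x ∈ W', s x ∈ W') → W' ≠ ⊥ → finrank F W ≤ finrank F W' := by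
    intro W' h1 h2
    rw [hWk]
    exact Nat.find_min' hP ⟨W', h1, h2, rfl⟩
  have hUlt : finrank F U < finrank F V := Submodule.finrank_lt hU1
  have hWlt : finrank F W < finrank F V := (hmin U hU hU0).trans_lt hUlt
  have hWpos : 0 < finrank F W := by
    rw [Nat.pos_iff_ne_zero]
    intro h
    exact hW0 (Submodule.finrank_eq_zero.1 h)
  have hirrW : ∀ U : Submodule F V, U ≤ W → (∀ x ∈ U, s x ∈ U) → U = ⊥ ∨ U = W := by
    intro U hUW hUi
    by_cases h : U = ⊥
    · exact Or.inl h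
    · exact Or.inr (Submodule.eq_of_le_of_finrank_le hUW (hmin U hUi h))
  have hpd := finrank_perp hQ W
  have hpi := perp_inv hs hWi
  by_cases hk : 2 * finrank F W + 3 ≤ finrank F V
  · obtain ⟨h1, h2⟩ := fix_case hF hW hQ (by omega) W hW0 hk
    exact ⟨stab W, mem_stab hWi, h1, h2⟩
  by_cases hd : W ⊓ perp Q W = ⊥
  · -- nondegenerate
    have hdis : Disjoint W (perp Q W) := disjoint_iff.2 hd
    have hc : IsCompl W (perp Q W) := by
      rw [perp_eq]
      rw [perp_eq] at hdis
      exact (LinearMap.BilinForm.isCompl_orthogonal_iff_disjoint (refl_bilin Q)).2 hdis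
    have hnd : ∀ x ∈ W, (∀ y ∈ W, polar Q x y = 0) → x = 0 := by
      intro x hx h
      have h1 : x ∈ W ⊓ perp Q W := ⟨hx, h⟩
      rw [hd] at h1
      exact (Submodule.mem_bot F).1 h1
    have hnd' : ∀ x ∈ perp Q W, (∀ y ∈ perp Q W, polar Q x y = 0) → x = 0 := by
      intro x hx h
      have h1 : x ∈ W := by
        rw [← perp_perp hQ W]
        exact h
      have h2 : x ∈ W ⊓ perp Q W := ⟨h1, hx⟩
      rw [hd] at h2
      exact (Submodule.mem_bot F).1 h2
    have heven : Even (finrank F W) := by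
      have h1 := hE F W (Q.polarBilin.domRestrict₁₂ W W) (fun x => polar_self' Q x)
      rw [LinearMap.finrank_range_of_inj] at h1
      · exact h1
      · rw [injective_iff_map_eq_zero]
        intro x hx
        apply Subtype.ext
        apply hnd x.1 x.2
        intro y hy
        exact LinearMap.congr_fun hx ⟨y, hy⟩
    have hp0 : perp Q W ≠ ⊥ := by
      intro h
      rw [h, finrank_bot] at hpd
      omega
    have hle := hmin _ hpi hp0
    have hkm : finrank F W = m := by
      obtain ⟨a, ha⟩ := heven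
      obtain ⟨b, hb⟩ := hme
      omega
    have hkm' : finrank F (perp Q W) = m := by omega
    refine compl_case hS hGl hN hJ hQ m hm hV hs W (perp Q W) hc ?_ hWi hpi hirrW ?_ hnd hnd' hkm hkm'
    · intro x hx y hy
      rw [polar_comm]
      exact hy x hx
    · intro U hUW hUi
      by_cases h : U = ⊥
      · exact Or.inl h
      · refine Or.inr (Submodule.eq_of_le_of_finrank_le hUW ?_)
        have := hmin U hUi h
        omega
  · -- totally isotropic
    have h1 : W ⊓ perp Q W = W := by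
      rcases hirrW (W ⊓ perp Q W) inf_le_left (fun x hx => ⟨hWi x hx.1, hpi x hx.2⟩) with h | h
      · exact absurd h hd
      · exact h
    have hle : W ≤ perp Q W := by
      intro x hx
      have h2 : x ∈ W ⊓ perp Q W := by rw [h1]; exact hx
      exact h2.2
    have hB : ∀ x ∈ W, ∀ y ∈ W, polar Q x y = 0 := fun x hx y hy => hle hx y hy
    have h2 := Submodule.finrank_mono hle
    obtain ⟨z, hz, hz0, hQz⟩ := anis_case W (by omega) hB
    let U' : Submodule F V :=
      { carrier := {x | x ∈ W ∧ Q x = 0}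
        add_mem' := by
          rintro a b ⟨ha, ha'⟩ ⟨hb, hb'⟩
          refine ⟨W.add_mem ha hb, ?_⟩
          rw [Q_add, ha', hb', hB a ha b hb]
          ring
        zero_mem' := ⟨W.zero_mem, QuadraticMap.map_zero Q⟩
        smul_mem' := by
          rintro c x ⟨hx, hx'⟩
          refine ⟨W.smul_mem c hx, ?_⟩
          rw [QuadraticMap.map_smul, hx', smul_zero] }
    have h3 : U' = W := by
      rcases hirrW U' (fun x hx => hx.1) (fun x hx => ⟨hWi x hx.1, by
        have hs' : ∀ x, Q (s x) = Q x := hs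
        rw [hs']; exact hx.2⟩) with h | h
      · exfalso
        have h4 : z ∈ U' := ⟨hz, hQz⟩
        rw [h] at h4
        exact hz0 ((Submodule.mem_bot F).1 h4)
      · exact h
    have hsing : ∀ x ∈ W, Q x = 0 := by
      intro x hx
      rw [← h3] at hx
      exact hx.2
    obtain ⟨h4, h5⟩ := ts_case hT hW hQ (by omega) W hW0 (by omega) (by omega) hsing
    exact ⟨stab W, mem_stab hWi, h4, h5⟩

end Cases

end Pool.Agent.H330.EvenQ.TOP

namespace Pool.Agent.H330.EvenQ

theorem h_TOP (hE : S_EVEN) (hG : S_SING) (hS : S_SIEG) (hI : S_IRR) (hGl : S_GLOB) (hN : S_NH)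
    (hF : S_FIX) (hT : S_TS) (hW : S_PROPW) (hJ : S_PROPJ) : S_TOP := by
  intro F V _ _ _ _ _ _ Q hQ m hm hme hV s hs
  exact TOP.main_case hE hG hS hI hGl hN hF hT hW hJ hQ m hm hme hV hs

end Pool.Agent.H330.EvenQ
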