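import Pool.Agent.H330.EvenQ.Spec

/-!
# TRANS: restriction of scalars for `QK` (helper261)
-/

set_option autoImplicit false

namespace Pool.Agent.H330.EvenQ

open QuadraticMap Module

namespace TRANS

section

variable {F K V : Type} [Field F] [Finite F] [CharP F 2] [Field K] [Finite K]
  [Algebra F K] [AddCommGroup V] [Module F V] [Module K V] [IsScalarTower F K V]

omit [CharP F 2] in
/-- The trace form is nondegenerate. -/
theorem tr_nondeg (x : K) (h : ∀ l : K, Algebra.trace F K (l * x) = 0) : x = 0 := by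
  have hn := traceForm_nondegenerate F K
  refine hn.1 x fun l => ?_
  rw [Algebra.traceForm_apply, mul_comm]
  exact h l

/-- Restriction of scalars as a homomorphism. -/
noncomputable def rho : (V ≃ₗ[K] V) →* (V ≃ₗ[F] V) where
  toFun g := g.restrictScalars F
  map_one' := rfl
  map_mul' _ _ := rfl

omit [Finite F] [CharP F 2] [Finite K] in
theorem rho_apply (g : V ≃ₗ[K] V) (x : V) : (rho g : V ≃ₗ[F] V) x = g x := rfl

variable (Q : QuadraticForm F V) (QK : QuadraticForm K V)

omit [Finite F] [CharP F 2] [Finite K] [IsScalarTower F K V] in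
theorem Q_eq (hQ : ∀ (l : K) (x : V), Q (l • x) = Algebra.trace F K (l ^ 2 * QK x)) (x : V) :
    Q x = Algebra.trace F K (QK x) := by
  have h := hQ 1 x
  rwa [one_smul, one_pow, one_mul] at h

omit [Finite F] [CharP F 2] [Finite K] [IsScalarTower F K V] in
theorem B_eq (hB : ∀ (l : K) (x y : V), polar Q (l • x) y =
    Algebra.trace F K (l * polar QK x y)) (x y : V) :
    polar Q x y = Algebra.trace F K (polar QK x y) := by
  have h := hB 1 x y
  rwa [one_smul, one_mul] at h

omit [Finite F] [CharP F 2] [Finite K] in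
theorem rho_orth (hQ : ∀ (l : K) (x : V), Q (l • x) = Algebra.trace F K (l ^ 2 * QK x)) :
    (Orth QK).map (rho : (V ≃ₗ[K] V) →* (V ≃ₗ[F] V)) ≤ Orth Q := by
  rintro _ ⟨g, hg, rfl⟩ x
  rw [rho_apply, Q_eq Q QK hQ, Q_eq Q QK hQ, hg x]

omit [Finite F] [CharP F 2] [Finite K] in
theorem rho_om (hQ : ∀ (l : K) (x : V), Q (l • x) = Algebra.trace F K (l ^ 2 * QK x))
    (g : V ≃ₗ[K] V) (hg : g ∈ Om QK) : (rho g : V ≃ₗ[F] V) ∈ Om Q := by
  have h1 : (rho g : V ≃ₗ[F] V) ∈ (Om QK).map (rho : (V ≃ₗ[K] V) →* (V ≃ₗ[F] V)) :=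
    Subgroup.mem_map_of_mem _ hg
  rw [Om, Subgroup.map_commutator] at h1
  exact Subgroup.commutator_mono (rho_orth Q QK hQ) (rho_orth Q QK hQ) h1

end

end TRANS

open TRANS in
theorem h_TRANS : S_TRANS := by
  intro F K V _ _ _ _ _ _ _ _ _ _ _ Q QK hQ hB hnd
  have : CharP K 2 := charP_of_injective_algebraMap (algebraMap F K).injective 2
  refine ⟨?_, ?_, ?_, ?_⟩
  · intro x hx
    refine hnd x fun y => ?_
    rw [B_eq Q QK hB, hx y, map_zero]
  · intro ν J JK hJ hIs
    refine ⟨fun x => ?_, fun x y => ?_, fun x => ?_⟩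
    · rw [hJ, hJ, hIs.sq, algebraMap_smul]
    · rw [← sub_eq_zero]
      refine tr_nondeg (F := F) _ fun l => ?_
      rw [mul_sub, map_sub, ← hB, ← hB, ← map_smul, hJ, hJ, hIs.adj, sub_self]
    · refine tr_nondeg (F := F) _ fun l => ?_
      obtain ⟨m, rfl⟩ : ∃ m : K, l = m * m := by
        obtain ⟨m, hm⟩ := FiniteField.isSquare_of_char_two (ringChar.eq K 2) l
        exact ⟨m, hm⟩
      have h1 : m * m * polar QK (JK x) x = polar QK (JK (m • x)) (m • x) := by
        rw [map_smul, QuadraticMap.polar_smul_left, QuadraticMap.polar_smul_right, smul_eq_mul,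
          smul_eq_mul, mul_assoc]
      rw [h1, ← B_eq Q QK hB, hJ, hIs.alt]
  · rintro J J' JK JK' hJ hJ' ⟨c, hc, hc1, h1, h2⟩
    refine ⟨rho c, rho_om Q QK hQ c hc, fun h => hc1 ?_, fun x => ?_, fun x => ?_⟩
    · ext x
      have := DFunLike.congr_fun h x
      exact this
    · rw [rho_apply, rho_apply, ← hJ, ← hJ, h1]
    · rw [rho_apply, rho_apply, ← hJ', ← hJ', h2]
  · rintro J JK hJ ⟨S, hS, hQ0, hfin⟩
    refine ⟨S.restrictScalars F, fun x hx => ?_, fun x hx => ?_, ?_⟩
    · have h := hS x hx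
      rw [hJ] at h
      exact h
    · rw [Q_eq Q QK hQ, hQ0 x hx, map_zero]
    · have h1 : finrank F K * finrank K V = finrank F V := Module.finrank_mul_finrank F K V
      have h2 : finrank F K * finrank K S = finrank F S := Module.finrank_mul_finrank F K S
      have h3 : finrank F (S.restrictScalars F) = finrank F S := rfl
      rw [h3, ← h2, ← h1, ← hfin]
      ring

end Pool.Agent.H330.EvenQ
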