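import Pool.Agent.H330.EvenQ.Spec

/-! # EvenQ TS -/

namespace Pool.Agent.H330.EvenQ

open QuadraticMap Module

namespace TS

variable {F V : Type} [Field F] [AddCommGroup V] [Module F V]

theorem polar_zero {Q : QuadraticForm F V} {W : Submodule F V} (h : ∀ x ∈ W, Q x = 0) {x y : V}
    (hx : x ∈ W) (hy : y ∈ W) : polar Q x y = 0 := by
  unfold polar
  rw [h _ (W.add_mem hx hy), h x hx, h y hy]
  simp

/-- the Siegel transformation is not the identity -/
theorem sieg_ne {Q : QuadraticForm F V} (hQ : Nondeg Q) {a b : V} (ha : a ≠ 0)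
    (hb : b ∉ Submodule.span F {a}) : ¬ ∀ x, sieg Q a b x = x := by
  intro h
  apply ha
  apply hQ
  intro x
  rw [polar_comm]
  by_contra hne
  apply hb
  have h1 := h x
  unfold sieg at h1
  have h2 : polar Q x a • b = -((polar Q x b + Q b * polar Q x a) • a) := by
    rw [add_smul]
    have h3 : polar Q x a • b + polar Q x b • a + (Q b * polar Q x a) • a = 0 := by
      have h4 : x + (polar Q x a • b + polar Q x b • a + (Q b * polar Q x a) • a) = x := by
        rw [← add_assoc, ← add_assoc, h1]
      exact left_eq_add.1 h4.symm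
    rw [add_assoc] at h3
    exact eq_neg_of_add_eq_zero_left h3
  have h3 : b = (-((polar Q x a)⁻¹ * (polar Q x b + Q b * polar Q x a))) • a := by
    have h4 := congrArg (fun v => (polar Q x a)⁻¹ • v) h2
    simp only [smul_smul, inv_mul_cancel₀ hne, one_smul, smul_neg] at h4
    rw [neg_smul]
    exact h4
  rw [h3]
  exact Submodule.smul_mem _ _ (Submodule.mem_span_singleton_self a)

end TS

theorem h_TS (hS : S_SIEG) : S_TS := by
  intro F V _ _ _ _ _ _ Q hQ hd W W' hW hW' h2 h2'
  have key : ∀ a b : V, a ≠ 0 → b ∉ Submodule.span F {a} → Q a = 0 → polar Q a b = 0 →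
      (∀ x ∈ W, sieg Q a b x ∈ W) → (∀ x ∈ W', sieg Q a b x ∈ W') →
      ∃ c ∈ Om Q, c ≠ 1 ∧ (∀ x ∈ W, c x ∈ W) ∧ (∀ x ∈ W', c x ∈ W') := by
    intro a b ha hb hQa hab h3 h4
    obtain ⟨g, _, _, hg, hg'⟩ := hS F V Q hQ a b hQa hab
    refine ⟨g, hg' hd, ?_, ?_, ?_⟩
    · intro h
      apply TS.sieg_ne hQ ha hb
      intro x
      rw [← hg x, h]
      rfl
    · intro x hx
      rw [hg x]
      exact h3 x hx
    · intro x hx
      rw [hg x]
      exact h4 x hx
  by_cases hint : ∃ a, a ∈ W ∧ a ∈ W' ∧ a ≠ 0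
  · obtain ⟨a, haW, haW', ha⟩ := hint
    obtain ⟨b, hbW, hb⟩ : ∃ b ∈ W, b ∉ Submodule.span F {a} := by
      by_contra hcon
      push Not at hcon
      have h3 := Submodule.finrank_mono (show W ≤ Submodule.span F {a} from hcon)
      rw [finrank_span_singleton ha] at h3
      omega
    refine key a b ha hb (hW a haW) (TS.polar_zero hW haW hbW) ?_ ?_
    · intro x hx
      unfold sieg
      rw [TS.polar_zero hW hx haW, TS.polar_zero hW hx hbW]
      simpa using hx
    · intro x hx
      unfold sieg
      rw [TS.polar_zero hW' hx haW']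
      simp only [zero_smul, add_zero, mul_zero]
      exact W'.add_mem hx (W'.smul_mem _ haW')
  · push Not at hint
    obtain ⟨a, haW, ha⟩ : ∃ a ∈ W, a ≠ 0 := by
      by_contra hcon
      push Not at hcon
      have h3 : W = ⊥ := (Submodule.eq_bot_iff W).2 hcon
      rw [h3, finrank_bot] at h2
      omega
    obtain ⟨b, hbW, hb, hab⟩ : ∃ b ∈ W', b ≠ 0 ∧ polar Q a b = 0 := by
      have h3 : LinearMap.ker ((polarBilin Q a).domRestrict W') ≠ ⊥ := by
        apply LinearMap.ker_ne_bot_of_finrank_lt
        rw [finrank_self, h2']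
        omega
      obtain ⟨b, hb, hb0⟩ := Submodule.exists_mem_ne_zero_of_ne_bot h3
      refine ⟨b, b.2, ?_, hb⟩
      intro h
      exact hb0 (Subtype.ext h)
    refine key a b ha ?_ (hW a haW) hab ?_ ?_
    · intro h
      apply hb
      by_contra hb0
      exact hb0 (hint b (Submodule.span_le.2 (Set.singleton_subset_iff.2 haW) h) hbW)
    · intro x hx
      unfold sieg
      rw [TS.polar_zero hW hx haW]
      simp only [zero_smul, add_zero, mul_zero]
      exact W.add_mem hx (W.smul_mem _ haW)
    · intro x hx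
      unfold sieg
      rw [TS.polar_zero hW' hx hbW, hW' b hbW]
      simp only [zero_smul, add_zero, zero_mul]
      exact W'.add_mem hx (W'.smul_mem _ hbW)

end Pool.Agent.H330.EvenQ
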